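import Pool.Agent.H33.G.R_seed8.H412R2.RigStat

/-! Rigidity: existence of a stationary family (Krylov–Bogoliubov along an ultrafilter). -/

set_option autoImplicit false

namespace Pool.Agent.H412R2

open Finset Filter Topology

variable {q R : ℕ}

/-- probability of being in the class `v mod q^k` after `i` steps from `x` -/
noncomputable def Tk (κ : Ker q R) (i k : ℕ) (v x : ℤ) : ℝ :=
  ∑ s ∈ range (i * κ.Smax + 1), pr κ k v i s x

theorem Tk_mass (κ : Ker q R) (hq : 0 < q) (i : ℕ) (x : ℤ) :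
    Mass q (fun k v => Tk κ i k v x) where
  nonneg := fun k v => Finset.sum_nonneg fun s _ => pr_nonneg κ k v i s x
  per := fun k v y => Finset.sum_congr rfl fun s _ => pr_per κ k v y i s x
  cons := fun k v => by
    unfold Tk
    rw [Finset.sum_comm]
    exact Finset.sum_congr rfl fun s _ => pr_cons κ hq k v i s x

theorem Tk_total (κ : Ker q R) (hq : 0 < q) (i : ℕ) {x : ℤ} (hx : ¬ (q : ℤ) ∣ x) :
    Tk κ i 0 0 x = 1 :=
  pr_total κ hq i _ hx (by omega)

theorem Tk_le_one (κ : Ker q R) (hq : 0 < q) (i k : ℕ) (v : ℤ) {x : ℤ} (hx : ¬ (q : ℤ) ∣ x) :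
    Tk κ i k v x ≤ 1 := by
  have hM := Tk_mass κ hq i x
  have h1 : Tk κ i k v x ≤ Tk κ i 0 v x := hM.mono hq (Nat.zero_le k) v
  have h2 : Tk κ i 0 v x = Tk κ i 0 0 x := by
    have := hM.per 0 0 v
    simpa using this
  rw [h2, Tk_total κ hq i hx] at h1
  exact h1

theorem Tk_dead (κ : Ker q R) (i k : ℕ) (hk : 1 ≤ k) {v x : ℤ} (hv : (q : ℤ) ∣ v)
    (hx : ¬ (q : ℤ) ∣ x) : Tk κ i k v x = 0 :=
  Finset.sum_eq_zero fun s _ => pr_dead κ hk hv i s hx

theorem Tk_shift (κ : Ker q R) (i k : ℕ) (hk : 1 ≤ k) (v y : ℤ) {x : ℤ}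
    (hx : ¬ (q : ℤ) ∣ x) : Tk κ i k v (x + (q : ℤ) ^ (k + i * R) * y) = Tk κ i k v x := by
  unfold Tk
  refine Finset.sum_congr rfl fun s _ => ?_
  rw [add_comm k (i * R), pr_shift κ k v i s k hk hx y]
  have e : v - 2 ^ s * ((q : ℤ) ^ k * y) = v + (q : ℤ) ^ k * (-(2 ^ s * y)) := by ring
  rw [e, pr_per]

theorem P_iter_congr (κ : Ker q R) {F G : ℤ → ℝ} (h : ∀ x : ℤ, ¬ (q : ℤ) ∣ x → F x = G x)
    (i : ℕ) {x : ℤ} (hx : ¬ (q : ℤ) ∣ x) : (κ.P)^[i] F x = (κ.P)^[i] G x := by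
  induction i generalizing x with
  | zero => exact h x hx
  | succ i ih =>
    rw [Function.iterate_succ_apply', Function.iterate_succ_apply']
    change (∑ b ∈ κ.K x, (κ.P)^[i] F b) / ((κ.K x).card : ℝ) =
      (∑ b ∈ κ.K x, (κ.P)^[i] G b) / ((κ.K x).card : ℝ)
    rw [Finset.sum_congr rfl (fun b hb => ih (κ.hlive x b hx hb))]

theorem P_avg (κ : Ker q R) (hq : 0 < q) {K : ℕ} (hK : 1 ≤ K) {F : ℤ → ℝ}
    (hF : ∀ x y : ℤ, ¬ (q : ℤ) ∣ x → F (x + (q : ℤ) ^ K * y) = F x) (i : ℕ) {x : ℤ}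
    (hx : ¬ (q : ℤ) ∣ x) :
    (κ.P)^[i] F x = ∑ c ∈ range (q ^ K), F (c : ℤ) * Tk κ i K (c : ℤ) x := by
  have hdvd : ∀ x y : ℤ, (q : ℤ) ∣ x + (q : ℤ) ^ K * y ↔ (q : ℤ) ∣ x := fun x y =>
    (dvd_add_left ((dvd_pow_self _ (by omega)).mul_right y))
  have hF' : Per q K (fun c => if (q : ℤ) ∣ c then 0 else F c) := by
    intro x y
    simp only [hdvd]
    by_cases h : (q : ℤ) ∣ x
    · simp [h]
    · simp [h, hF x y h]
  rw [P_iter_congr κ (G := fun c => if (q : ℤ) ∣ c then 0 else F c)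
    (fun x hx => by simp [hx]) i hx, P_iter κ hq hF' i (i * κ.Smax + 1) hx (by omega),
    Finset.sum_comm]
  refine Finset.sum_congr rfl fun c _ => ?_
  unfold Tk
  rw [Finset.mul_sum]
  refine Finset.sum_congr rfl fun s _ => ?_
  by_cases h : (q : ℤ) ∣ (c : ℤ)
  · rw [pr_dead κ hK h i s hx, mul_zero, mul_zero]
  · rw [if_neg h]

theorem P_ind (κ : Ker q R) (hq : 0 < q) (i k : ℕ) (v : ℤ) {x : ℤ} (hx : ¬ (q : ℤ) ∣ x) :
    (κ.P)^[i] (fun z => if (q : ℤ) ^ k ∣ v - z then (1 : ℝ) else 0) x = Tk κ i k v x := by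
  have hF : Per q k (fun z => if (q : ℤ) ^ k ∣ v - z then (1 : ℝ) else 0) := by
    intro x y
    have : (q : ℤ) ^ k ∣ v - (x + (q : ℤ) ^ k * y) ↔ (q : ℤ) ^ k ∣ v - x := by
      have h : v - x = (v - (x + (q : ℤ) ^ k * y)) + (q : ℤ) ^ k * y := by ring
      rw [h, dvd_add_left (Dvd.intro _ rfl)]
    simp only [this]
  rw [P_iter κ hq hF i (i * κ.Smax + 1) hx (by omega)]
  unfold Tk
  refine Finset.sum_congr rfl fun s _ => ?_
  simp only [ite_mul, one_mul, zero_mul]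
  rw [sum_ind hq k v (fun c => pr κ k (c : ℤ) i s x)]
  have hqz : (0 : ℤ) < (q : ℤ) ^ k := by
    have : 0 < q ^ k := pow_pos hq k
    exact_mod_cast this
  rw [Int.toNat_of_nonneg (Int.emod_nonneg v hqz.ne')]
  exact ((pr_mass κ hq i s x).per k).congr (by
    have := @Int.dvd_self_sub_emod v ((q : ℤ) ^ k)
    rw [dvd_sub_comm]
    exact this)

theorem Tk_CK (κ : Ker q R) (hq : 0 < q) (k : ℕ) (hk : 1 ≤ k) (v : ℤ) (i j : ℕ) {x : ℤ}
    (hx : ¬ (q : ℤ) ∣ x) :
    Tk κ (i + j) k v x = ∑ c ∈ range (q ^ (k + j * R)),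
      Tk κ i (k + j * R) (c : ℤ) x * Tk κ j k v (c : ℤ) := by
  rw [← P_ind κ hq (i + j) k v hx, Function.iterate_add_apply,
    P_iter_congr κ (G := fun c => Tk κ j k v c) (fun x hx => P_ind κ hq j k v hx) i hx,
    P_avg κ hq (K := k + j * R) (by omega) (fun x y hx => Tk_shift κ j k hk v y hx) i hx]
  exact Finset.sum_congr rfl fun c _ => mul_comm _ _

theorem exists_stat {q R : ℕ} (κ : Ker q R) (hq : q.Prime) (hR : 1 ≤ R) (g : ℤ → ℝ)
    (hg : ∀ x y : ℤ, ¬ (q : ℤ) ∣ x → g (x + (q : ℤ) ^ (R + 1) * y) = g x)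
    (hneg : ∀ N : ℕ, 1 ≤ N → ∃ x : ℤ, ¬ (q : ℤ) ∣ x ∧ ∑ i ∈ range N, (κ.P)^[i] g x ≤ 0) :
    ∃ π : ℕ → ℤ → ℝ, Stat κ π ∧ ∑ v ∈ range (q ^ (R + 1)), g (v : ℤ) * π (R + 1) (v : ℤ) ≤ 0 := by
  have _ := hR
  have hq0 := hq.pos
  choose X hX hXneg using fun N : ℕ => hneg (N + 1) (by omega)
  set a : ℕ → ℤ → ℕ → ℝ := fun k v N =>
    (∑ i ∈ range (N + 1), Tk κ i k v (X N)) / ((N + 1 : ℕ) : ℝ) with ha
  have hN0 : ∀ N : ℕ, (0 : ℝ) < ((N + 1 : ℕ) : ℝ) := fun N => by positivity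
  have haM : ∀ N, Mass q (fun k v => a k v N) := by
    intro N
    refine ⟨fun k v => ?_, fun k v y => ?_, fun k v => ?_⟩
    · exact div_nonneg (Finset.sum_nonneg fun i _ => (Tk_mass κ hq0 i (X N)).nonneg k v)
        (hN0 N).le
    · simp only [ha]
      congr 1
      exact Finset.sum_congr rfl fun i _ => (Tk_mass κ hq0 i (X N)).per k v y
    · simp only [ha]
      rw [← Finset.sum_div, Finset.sum_comm]
      congr 1
      exact Finset.sum_congr rfl fun i _ => (Tk_mass κ hq0 i (X N)).cons k v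
  have haI : ∀ k v N, a k v N ∈ Set.Icc (0 : ℝ) 1 := by
    intro k v N
    refine ⟨(haM N).nonneg k v, ?_⟩
    simp only [ha]
    rw [div_le_one (hN0 N)]
    calc ∑ i ∈ range (N + 1), Tk κ i k v (X N) ≤ ∑ i ∈ range (N + 1), (1 : ℝ) :=
          Finset.sum_le_sum fun i _ => Tk_le_one κ hq0 i k v (hX N)
      _ = _ := by simp
  have hlim : ∀ k v, ∃ L : ℝ, L ∈ Set.Icc (0 : ℝ) 1 ∧
      Tendsto (a k v) (hyperfilter ℕ : Filter ℕ) (𝓝 L) := by
    intro k v
    have h := (isCompact_Icc (a := (0 : ℝ)) (b := 1)).ultrafilter_le_nhds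
      ((hyperfilter ℕ).map (a k v)) (by
        rw [le_principal_iff]
        exact Filter.mem_map.2 (Filter.univ_mem' (haI k v)))
    obtain ⟨L, hL, hL2⟩ := h
    exact ⟨L, hL, hL2⟩
  choose π hπI hπ using hlim
  have hinf : Tendsto (fun N : ℕ => (1 : ℝ) / ((N + 1 : ℕ) : ℝ)) (hyperfilter ℕ : Filter ℕ)
      (𝓝 0) := by
    have := (tendsto_one_div_add_atTop_nhds_zero_nat (𝕜 := ℝ)).mono_left Nat.hyperfilter_le_atTop
    simpa using this
  refine ⟨π, ⟨⟨fun k v => (hπI k v).1, ?_, ?_⟩, ?_, ?_, ?_⟩, ?_⟩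
  · -- periodic
    intro k v y
    refine tendsto_nhds_unique (hπ k (v + (q : ℤ) ^ k * y)) ?_
    have : a k (v + (q : ℤ) ^ k * y) = a k v := funext fun N => (haM N).per k v y
    rw [this]
    exact hπ k v
  · -- consistency
    intro k v
    refine tendsto_nhds_unique (hπ k v) ?_
    have : a k v = fun N => ∑ d ∈ range q, a (k + 1) (v + (q : ℤ) ^ k * (d : ℤ)) N :=
      funext fun N => (haM N).cons k v
    rw [this]
    exact tendsto_finsetSum _ fun d _ => hπ _ _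
  · -- total
    refine tendsto_nhds_unique (hπ 0 0) ?_
    have : a 0 0 = fun _ => 1 := by
      funext N
      simp only [ha]
      rw [Finset.sum_congr rfl (fun i _ => Tk_total κ hq0 i (hX N))]
      rw [div_eq_one_iff_eq (hN0 N).ne']
      simp
    rw [this]
    exact tendsto_const_nhds
  · -- dead
    intro k v hk hv
    refine tendsto_nhds_unique (hπ k v) ?_
    have : a k v = fun _ => 0 := by
      funext N
      simp only [ha]
      rw [Finset.sum_eq_zero (fun i _ => Tk_dead κ i k hk hv (hX N)), zero_div]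
    rw [this]
    exact tendsto_const_nhds
  · -- stationarity
    intro j k v hk
    have hR1 : Tendsto (fun N => ∑ c ∈ range (q ^ (k + j * R)),
        a (k + j * R) (c : ℤ) N * Tk κ j k v (c : ℤ)) (hyperfilter ℕ : Filter ℕ)
        (𝓝 (∑ c ∈ range (q ^ (k + j * R)), π (k + j * R) (c : ℤ) * Tk κ j k v (c : ℤ))) :=
      tendsto_finsetSum _ fun c _ => (hπ _ _).mul_const _
    have hR2 : ∀ N, ∑ c ∈ range (q ^ (k + j * R)), a (k + j * R) (c : ℤ) N * Tk κ j k v (c : ℤ) =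
        (∑ i ∈ range (N + 1), Tk κ (i + j) k v (X N)) / ((N + 1 : ℕ) : ℝ) := by
      intro N
      rw [Finset.sum_congr rfl (fun i _ => Tk_CK κ hq0 k hk v i j (hX N)), Finset.sum_comm,
        Finset.sum_div]
      refine Finset.sum_congr rfl fun c _ => ?_
      simp only [ha]
      rw [← Finset.sum_mul]
      ring
    have hR3 : Tendsto (fun N => (∑ i ∈ range (N + 1), Tk κ (i + j) k v (X N)) /
        ((N + 1 : ℕ) : ℝ) - a k v N) (hyperfilter ℕ : Filter ℕ) (𝓝 0) := by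
      rw [tendsto_zero_iff_abs_tendsto_zero]
      have hb : ∀ N, |(∑ i ∈ range (N + 1), Tk κ (i + j) k v (X N)) /
        ((N + 1 : ℕ) : ℝ) - a k v N| ≤ (j : ℝ) * (1 / ((N + 1 : ℕ) : ℝ)) := by
        intro N
        simp only [ha]
        rw [← sub_div, abs_div, abs_of_pos (hN0 N), mul_one_div]
        apply div_le_div_of_nonneg_right _ (hN0 N).le
        have key : ∀ (f : ℕ → ℝ), (∀ i, 0 ≤ f i) → (∀ i, f i ≤ 1) → ∀ n j : ℕ,
            |∑ i ∈ range n, f (i + j) - ∑ i ∈ range n, f i| ≤ (j : ℝ) := by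
          intro f h0 h1 n j
          have e1 : ∑ i ∈ range (j + n), f i = ∑ i ∈ range j, f i + ∑ i ∈ range n, f (i + j) := by
            rw [Finset.sum_range_add]
            congr 1
            exact Finset.sum_congr rfl fun i _ => by rw [add_comm]
          have e2 : ∑ i ∈ range (n + j), f i = ∑ i ∈ range n, f i + ∑ i ∈ range j, f (n + i) := by
            rw [Finset.sum_range_add]
          rw [add_comm j n] at e1
          have e3 : ∑ i ∈ range n, f (i + j) - ∑ i ∈ range n, f i =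
              ∑ i ∈ range j, f (n + i) - ∑ i ∈ range j, f i := by linarith
          rw [e3]
          have b1 : ∑ i ∈ range j, f (n + i) ≤ j := by
            calc _ ≤ ∑ i ∈ range j, (1 : ℝ) := Finset.sum_le_sum fun i _ => h1 _
              _ = _ := by simp
          have b2 : ∑ i ∈ range j, f i ≤ j := by
            calc _ ≤ ∑ i ∈ range j, (1 : ℝ) := Finset.sum_le_sum fun i _ => h1 _
              _ = _ := by simp
          have b3 : 0 ≤ ∑ i ∈ range j, f (n + i) := Finset.sum_nonneg fun i _ => h0 _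
          have b4 : 0 ≤ ∑ i ∈ range j, f i := Finset.sum_nonneg fun i _ => h0 _
          rw [abs_le]
          constructor <;> linarith
        exact key (fun i => Tk κ i k v (X N)) (fun i => (Tk_mass κ hq0 i (X N)).nonneg k v)
          (fun i => Tk_le_one κ hq0 i k v (hX N)) (N + 1) j
      refine squeeze_zero (fun N => abs_nonneg _) hb ?_
      simpa using hinf.const_mul (j : ℝ)
    have hR4 := (hπ k v).add hR3
    simp only [add_zero] at hR4
    refine tendsto_nhds_unique hR4 ?_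
    refine hR1.congr fun N => ?_
    rw [hR2 N]
    ring
  · -- the functional
    have h1 : Tendsto (fun N => ∑ v ∈ range (q ^ (R + 1)), g (v : ℤ) * a (R + 1) (v : ℤ) N)
        (hyperfilter ℕ : Filter ℕ)
        (𝓝 (∑ v ∈ range (q ^ (R + 1)), g (v : ℤ) * π (R + 1) (v : ℤ))) :=
      tendsto_finsetSum _ fun c _ => (hπ _ _).const_mul _
    refine le_of_tendsto h1 (Filter.Eventually.of_forall fun N => ?_)
    have h2 : ∑ v ∈ range (q ^ (R + 1)), g (v : ℤ) * a (R + 1) (v : ℤ) N =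
        (∑ i ∈ range (N + 1), (κ.P)^[i] g (X N)) / ((N + 1 : ℕ) : ℝ) := by
      rw [Finset.sum_congr rfl (fun i _ => P_avg κ hq0 (K := R + 1) (by omega) hg i (hX N)),
        Finset.sum_comm, Finset.sum_div]
      refine Finset.sum_congr rfl fun c _ => ?_
      simp only [ha]
      rw [← Finset.mul_sum]
      ring
    rw [h2]
    exact div_nonpos_of_nonpos_of_nonneg (hXneg N) (hN0 N).le

end Pool.Agent.H412R2
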