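import Pool.Agent.H33.G.R_seed8.H412R2.RigI
import Pool.Agent.H33.G.R_seed8.H412R2.RigEnt
import Pool.Agent.H33.G.R_seed8.H412R2.RigLim

/-! Rigidity: stationary families are uniform in each class mod `q`, hence theorem `positive`. -/

set_option autoImplicit false

namespace Pool.Agent.H412R2

open Finset

theorem stat_uniform {q R : ℕ} {κ : Ker q R} {π : ℕ → ℤ → ℝ} (hπ : Stat κ π) (hq : q.Prime)
    (hq2 : q ≠ 2) (hR : 1 ≤ R) (i : ℕ) (hi : 1 ≤ i) (z : ℤ) : π (i + 1) z = π i z / q := by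
  have hM := hπ.mass
  have hq0 := hq.pos
  have hD : Dn q π i (i + 1) = 0 := by
    apply le_antisymm
    · apply le_of_forall_pos_le_add
      intro ε hε
      rw [zero_add]
      exact Dn_small hπ hq hq2 hR (window_lower κ hq) i hi ε hε
    · unfold Dn
      exact Finset.sum_nonneg fun z _ => div_nonneg (sq_nonneg _) (hM.nonneg _ _)
  unfold Dn at hD
  have h1 := (Finset.sum_eq_zero_iff_of_nonneg
    (fun z _ => div_nonneg (sq_nonneg _) (hM.nonneg _ _))).1 hD
  -- reduce to the representative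
  have hqz : (0 : ℤ) < (q : ℤ) ^ (i + 1) := by
    have : 0 < q ^ (i + 1) := pow_pos hq0 _
    exact_mod_cast this
  set c := z % (q : ℤ) ^ (i + 1) with hc
  have hc0 : 0 ≤ c := Int.emod_nonneg z hqz.ne'
  have hc1 : c < (q : ℤ) ^ (i + 1) := Int.emod_lt_of_pos z hqz
  have hcast : ((c.toNat : ℕ) : ℤ) = c := Int.toNat_of_nonneg hc0
  have hz : z = c + (q : ℤ) ^ (i + 1) * (z / (q : ℤ) ^ (i + 1)) := (Int.emod_add_mul_ediv z _).symm
  have hmem : c.toNat ∈ range (q ^ (i + 1)) := by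
    rw [Finset.mem_range]
    have : ((c.toNat : ℕ) : ℤ) < ((q ^ (i + 1) : ℕ) : ℤ) := by
      rw [hcast]; push_cast; exact hc1
    exact_mod_cast this
  have h2 := h1 _ hmem
  rw [hcast] at h2
  have h3 : fl π q (i + 1) c = 0 := by
    rcases div_eq_zero_iff.1 h2 with h | h
    · exact pow_eq_zero_iff (two_ne_zero) |>.1 h
    · have h4 := fl_abs_le hM hq0 (show 1 ≤ i + 1 by omega) c
      rw [Nat.add_sub_cancel, h] at h4
      exact abs_eq_zero.1 (le_antisymm h4 (abs_nonneg _))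
  have h5 : fl π q (i + 1) z = 0 := by
    rw [hz, fl_per hM (i + 1)]; exact h3
  unfold fl at h5
  rw [Nat.add_sub_cancel] at h5
  linarith

theorem positive {q R : ℕ} (κ : Ker q R) (hq : q.Prime) (hq2 : q ≠ 2) (hR : 1 ≤ R) (g : ℤ → ℝ)
    (hg : ∀ x y : ℤ, ¬ (q : ℤ) ∣ x → g (x + (q : ℤ) ^ (R + 1) * y) = g x)
    (hpos : ∀ r ∈ Finset.Ico 1 q,
      0 < ∑ x ∈ (Finset.range (q ^ (R + 1))).filter (fun x => x % q = r), g (x : ℤ)) :
    ∃ N : ℕ, 1 ≤ N ∧ ∀ x : ℤ, ¬ (q : ℤ) ∣ x → 0 < ∑ i ∈ Finset.range N, (κ.P)^[i] g x := by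
  by_contra hcon
  push Not at hcon
  obtain ⟨π, hπ, hle⟩ := exists_stat κ hq hR g hg hcon
  have hM := hπ.mass
  have hq0 := hq.pos
  have hqr : (0 : ℝ) < q := by exact_mod_cast hq0
  have hunif : ∀ (n : ℕ) (z : ℤ), π (n + 1) z = π 1 z / (q : ℝ) ^ n := by
    intro n
    induction n with
    | zero => intro z; simp
    | succ n ih =>
      intro z
      rw [stat_uniform hπ hq hq2 hR (n + 1) (by omega) z, ih z, pow_succ]
      field_simp
  have e1 : ∑ v ∈ range (q ^ (R + 1)), g (v : ℤ) * π (R + 1) (v : ℤ) =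
      ∑ r ∈ range q, π 1 (r : ℤ) / (q : ℝ) ^ R *
        ∑ x ∈ (Finset.range (q ^ (R + 1))).filter (fun x => x % q = r), g (x : ℤ) := by
    have h1 : ∑ v ∈ range (q ^ (R + 1)), g (v : ℤ) * π (R + 1) (v : ℤ) =
        ∑ r ∈ range q, ∑ x ∈ (Finset.range (q ^ (R + 1))).filter (fun x => x % q = r),
          g (x : ℤ) * π (R + 1) (x : ℤ) := by
      rw [Finset.sum_fiberwise_of_maps_to]
      intro x _
      exact Finset.mem_range.2 (Nat.mod_lt _ hq0)
    rw [h1]
    refine Finset.sum_congr rfl fun r _ => ?_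
    rw [Finset.mul_sum]
    refine Finset.sum_congr rfl fun x hx => ?_
    rw [Finset.mem_filter] at hx
    rw [hunif R (x : ℤ)]
    have h2 : π 1 (x : ℤ) = π 1 (r : ℤ) := by
      have h3 : (x : ℤ) = (r : ℤ) + (q : ℤ) ^ 1 * ((x / q : ℕ) : ℤ) := by
        have h4 := Nat.mod_add_div x q
        rw [hx.2] at h4
        rw [pow_one]
        exact_mod_cast h4.symm
      rw [h3, hM.per 1]
    rw [h2]; ring
  have htot : ∑ r ∈ range q, π 1 (r : ℤ) = 1 := by
    have := hM.total 1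
    rw [pow_one, hπ.total] at this
    exact this
  have h0 : π 1 ((0 : ℕ) : ℤ) = 0 := hπ.dead 1 _ le_rfl (by simp)
  have hnn : ∀ r ∈ range q, 0 ≤ π 1 (r : ℤ) / (q : ℝ) ^ R *
        ∑ x ∈ (Finset.range (q ^ (R + 1))).filter (fun x => x % q = r), g (x : ℤ) := by
    intro r hr
    rcases Nat.eq_zero_or_pos r with h | h
    · subst h; rw [h0]; simp
    · exact mul_nonneg (div_nonneg (hM.nonneg _ _) (by positivity))
        (hpos r (Finset.mem_Ico.2 ⟨h, Finset.mem_range.1 hr⟩)).le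
  have hex : ∃ r ∈ range q, π 1 (r : ℤ) ≠ 0 := by
    by_contra hc
    push Not at hc
    rw [Finset.sum_eq_zero hc] at htot
    exact zero_ne_one htot
  obtain ⟨r, hr, hr0⟩ := hex
  have hr1 : 1 ≤ r := by
    rcases Nat.eq_zero_or_pos r with h | h
    · subst h; exact absurd h0 hr0
    · exact h
  have hposr : 0 < π 1 (r : ℤ) := lt_of_le_of_ne (hM.nonneg _ _) (Ne.symm hr0)
  have hlt : 0 < ∑ r ∈ range q, π 1 (r : ℤ) / (q : ℝ) ^ R *
        ∑ x ∈ (Finset.range (q ^ (R + 1))).filter (fun x => x % q = r), g (x : ℤ) := by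
    apply Finset.sum_pos' hnn
    refine ⟨r, hr, ?_⟩
    exact mul_pos (div_pos hposr (by positivity))
      (hpos r (Finset.mem_Ico.2 ⟨hr1, Finset.mem_range.1 hr⟩))
  rw [e1] at hle
  linarith

end Pool.Agent.H412R2
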