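import Pool.Agent.H33.G.R_seed8.H412R2.Oper
import Pool.Agent.H33.G.R_seed8.H412R2.LogAvg

/-! Task 5 of the project: most residues have full growth. -/

set_option autoImplicit false

namespace Pool.Agent.H412R2

namespace Typ

theorem kap_den_pos {E : ℕ} (hE : 1 ≤ E) : (0 : ℝ) < 1 - (1 / 2) ^ E := by
  have : ((1 : ℝ) / 2) ^ E < 1 := pow_lt_one₀ (by norm_num) (by norm_num) (by omega)
  linarith

theorem kap_pos {E : ℕ} (hE : 1 ≤ E) : 0 < kap E := by
  unfold kap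
  exact div_pos one_pos (kap_den_pos hE)

theorem geo_eq (r : ℝ) (hr : r ≠ 1) (E : ℕ) :
    ∑ e ∈ Finset.Icc 1 E, r ^ e = r * (1 - r ^ E) / (1 - r) := by
  have h1 : (1 : ℝ) - r ≠ 0 := sub_ne_zero.mpr (Ne.symm hr)
  induction E with
  | zero => simp
  | succ n ih =>
    rw [Finset.sum_Icc_succ_top (by omega), ih]
    field_simp
    ring

theorem geo_le (r : ℝ) (hr0 : 0 ≤ r) (hr : r < 1) (E : ℕ) :
    ∑ e ∈ Finset.Icc 1 E, r ^ e ≤ r / (1 - r) := by
  rw [geo_eq r (ne_of_lt hr)]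
  have h1 : (0 : ℝ) < 1 - r := by linarith
  rw [div_le_div_iff_of_pos_right h1]
  have : 0 ≤ r ^ E := pow_nonneg hr0 E
  nlinarith [mul_nonneg hr0 this]

theorem kap_sum {E : ℕ} (hE : 1 ≤ E) : ∑ e ∈ Finset.Icc 1 E, kap E * (1 / 2) ^ e = 1 := by
  rw [← Finset.mul_sum, geo_eq _ (by norm_num)]
  unfold kap
  have := (kap_den_pos hE).ne'
  field_simp
  norm_num

theorem kap_pow_le {T : ℕ} (hT : 1 ≤ T) : kap (6 * T) ^ T ≤ 2 := by
  unfold kap
  have hd := kap_den_pos (E := 6 * T) (by omega)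
  rw [div_pow, one_pow, div_le_iff₀ (pow_pos hd T)]
  have h1 : (1 : ℝ) + (T : ℝ) * (-(1 / 2) ^ (6 * T)) ≤ (1 + -(1 / 2) ^ (6 * T)) ^ T := by
    apply one_add_mul_le_pow
    have : ((1 : ℝ) / 2) ^ (6 * T) ≤ 1 := pow_le_one₀ (by norm_num) (by norm_num)
    linarith
  have h2 : (T : ℝ) * (1 / 2) ^ (6 * T) ≤ 1 / 2 := by
    have h3 : (T : ℝ) < 2 ^ T := by exact_mod_cast Nat.lt_two_pow_self
    have h4 : ((1 : ℝ) / 2) ^ (6 * T) ≤ (1 / 2) ^ (T + 1) :=
      pow_le_pow_of_le_one (by norm_num) (by norm_num) (by omega)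
    have h5 : (2 : ℝ) ^ T * (1 / 2) ^ (T + 1) = 1 / 2 := by
      rw [pow_succ, ← mul_assoc, ← mul_pow]; norm_num
    calc (T : ℝ) * (1 / 2) ^ (6 * T) ≤ 2 ^ T * (1 / 2) ^ (T + 1) := by
          apply mul_le_mul h3.le h4 (by positivity) (by positivity)
      _ = 1 / 2 := h5
  have h6 : (1 : ℝ) - (1 / 2) ^ (6 * T) = 1 + -(1 / 2) ^ (6 * T) := by ring
  rw [h6]
  nlinarith

theorem Lop_one_le {E : ℕ} (hE : 1 ≤ E) (x : ℤ) :
    Lop E (fun _ => 1) x ≤ (if (3 : ℤ) ∣ x then 0 else 3) := by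
  unfold Lop Lw
  split_ifs with hx
  · apply le_of_eq
    apply Finset.sum_eq_zero
    intro e _
    rw [if_neg]
    intro h
    have h2 : (3 : ℤ) ∣ 2 ^ e * x := Dvd.dvd.mul_left hx _
    have h3 : (3 : ℤ) ∣ 1 := by
      have := dvd_sub h2 h
      rwa [sub_sub_cancel] at this
    norm_num at h3
  · calc _ ≤ ∑ e ∈ Finset.Icc 1 E, 3 * (kap E * (1 / 2) ^ e) := by
          apply Finset.sum_le_sum
          intro e _
          have := kap_pos hE
          split_ifs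
          · simp
          · positivity
      _ = 3 := by rw [← Finset.mul_sum, kap_sum hE]; norm_num

/-- number of unit endpoints -/
noncomputable def Nn (T s : ℕ) (x : ℤ) : ℕ :=
  ((tr 3 (6 * T) T s x).filter (fun z => ¬ (3 : ℤ) ∣ z)).card

theorem ff_le {T : ℕ} (hT : 1 ≤ T) (x : ℤ) :
    ff (6 * T) (T + 1) x ≤ ∑ s ∈ Finset.range (T * (6 * T) + 1),
      (3 * kap (6 * T)) ^ T * (1 / 2) ^ s * (3 * (Nn T s x : ℝ)) := by
  have hk := kap_pos (E := 6 * T) (by omega)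
  have h1 : ff (6 * T) (T + 1) x ≤
      (Lop (6 * T))^[T] (fun z => if (3 : ℤ) ∣ z then (0 : ℝ) else 3) x := by
    unfold ff
    rw [Function.iterate_succ_apply]
    unfold Lop
    apply Lw_iter_mono
    · intro e; positivity
    · intro z
      exact Lop_one_le (by omega) z
  refine h1.trans (le_of_eq ?_)
  unfold Lop
  rw [Lw_iter_tr]
  apply Finset.sum_congr rfl
  intro s _
  congr 1
  unfold Nn
  rw [Finset.card_filter]
  push_cast
  rw [Finset.mul_sum]
  apply Finset.sum_congr rfl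
  intro z _
  by_cases hz : (3 : ℤ) ∣ z <;> simp [hz]

theorem Nn_le {T s : ℕ} (x : ℤ) : (Nn T s x : ℝ) ≤ ∑ z ∈ tr 3 (6 * T) T s x, (1 : ℝ) := by
  unfold Nn
  rw [Finset.sum_const, nsmul_eq_mul, mul_one]
  exact_mod_cast Finset.card_filter_le _ _

noncomputable def lo (T : ℕ) (x : ℤ) : ℝ :=
  3 * (1632 / 1000) ^ T * (Lw (6 * T) (fun e => kap (6 * T) * (3 / 8) ^ e))^[T] (fun _ => 1) x

noncomputable def hi (T : ℕ) (x : ℤ) : ℝ :=
  3 * (2 / 3) ^ (6 * T) * (Lw (6 * T) (fun e => kap (6 * T) * (3 / 4) ^ e))^[T] (fun _ => 1) x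

theorem term_lo {T s : ℕ} (hT : 1 ≤ T) (x : ℤ) (hs : 10 * s < 17 * T) :
    (3 * kap (6 * T)) ^ T * (1 / 2) ^ s * (3 * (Nn T s x : ℝ)) ≤
      3 * (1632 / 1000) ^ T * ((3 * kap (6 * T)) ^ T * (3 / 8) ^ s *
        ∑ z ∈ tr 3 (6 * T) T s x, (1 : ℝ)) := by
  have hk := kap_pos (E := 6 * T) (by omega)
  have hN := Nn_le (T := T) (s := s) x
  have h1 : ((4 : ℝ) / 3) ^ s ≤ (1632 / 1000) ^ T := by
    have h2 : (((4 : ℝ) / 3) ^ s) ^ 10 ≤ ((1632 / 1000) ^ T) ^ 10 := by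
      calc (((4 : ℝ) / 3) ^ s) ^ 10 = (4 / 3) ^ (10 * s) := by rw [← pow_mul, mul_comm]
        _ ≤ (4 / 3) ^ (17 * T) := pow_le_pow_right₀ (by norm_num) hs.le
        _ = ((4 / 3) ^ 17) ^ T := by rw [pow_mul]
        _ ≤ ((1632 / 1000) ^ 10) ^ T := by
            apply pow_le_pow_left₀ (by positivity)
            norm_num
        _ = ((1632 / 1000) ^ T) ^ 10 := by rw [← pow_mul, ← pow_mul, mul_comm]
    exact (pow_le_pow_iff_left₀ (by positivity) (by positivity) (by norm_num)).mp h2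
  have h3 : ((1 : ℝ) / 2) ^ s = (4 / 3) ^ s * (3 / 8) ^ s := by
    rw [← mul_pow]; norm_num
  rw [h3]
  have h4 : (0 : ℝ) ≤ (3 * kap (6 * T)) ^ T := by positivity
  have h5 : (0 : ℝ) ≤ (3 / 8) ^ s := by positivity
  calc (3 * kap (6 * T)) ^ T * ((4 / 3) ^ s * (3 / 8) ^ s) * (3 * (Nn T s x : ℝ))
      = (3 * (4 / 3) ^ s) * ((3 * kap (6 * T)) ^ T * (3 / 8) ^ s * (Nn T s x : ℝ)) := by ring
    _ ≤ (3 * (1632 / 1000) ^ T) * ((3 * kap (6 * T)) ^ T * (3 / 8) ^ s *
        ∑ z ∈ tr 3 (6 * T) T s x, (1 : ℝ)) := by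
        apply mul_le_mul
        · linarith
        · exact mul_le_mul_of_nonneg_left hN (mul_nonneg h4 h5)
        · positivity
        · positivity

theorem term_hi {T s : ℕ} (hT : 1 ≤ T) (x : ℤ) (hs : 6 * T < s) :
    (3 * kap (6 * T)) ^ T * (1 / 2) ^ s * (3 * (Nn T s x : ℝ)) ≤
      3 * (2 / 3) ^ (6 * T) * ((3 * kap (6 * T)) ^ T * (3 / 4) ^ s *
        ∑ z ∈ tr 3 (6 * T) T s x, (1 : ℝ)) := by
  have hk := kap_pos (E := 6 * T) (by omega)
  have hN := Nn_le (T := T) (s := s) x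
  have h1 : ((2 : ℝ) / 3) ^ s ≤ (2 / 3) ^ (6 * T) :=
    pow_le_pow_of_le_one (by norm_num) (by norm_num) hs.le
  have h3 : ((1 : ℝ) / 2) ^ s = (2 / 3) ^ s * (3 / 4) ^ s := by
    rw [← mul_pow]; norm_num
  rw [h3]
  have h4 : (0 : ℝ) ≤ (3 * kap (6 * T)) ^ T := by positivity
  have h5 : (0 : ℝ) ≤ (3 / 4) ^ s := by positivity
  calc (3 * kap (6 * T)) ^ T * ((2 / 3) ^ s * (3 / 4) ^ s) * (3 * (Nn T s x : ℝ))
      = (3 * (2 / 3) ^ s) * ((3 * kap (6 * T)) ^ T * (3 / 4) ^ s * (Nn T s x : ℝ)) := by ring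
    _ ≤ (3 * (2 / 3) ^ (6 * T)) * ((3 * kap (6 * T)) ^ T * (3 / 4) ^ s *
        ∑ z ∈ tr 3 (6 * T) T s x, (1 : ℝ)) := by
        apply mul_le_mul
        · linarith
        · exact mul_le_mul_of_nonneg_left hN (mul_nonneg h4 h5)
        · positivity
        · positivity

theorem Lw_one_nonneg {E T : ℕ} {u : ℕ → ℝ} (hu : ∀ e, 0 ≤ u e) (x : ℤ) :
    0 ≤ (Lw E u)^[T] (fun _ => 1) x := by
  have h0 : ∀ n : ℕ, ∀ x : ℤ, 0 ≤ (Lw E u)^[n] (fun _ => 1) x := by
    intro n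
    induction n with
    | zero => intro x; simp
    | succ n ih =>
      intro x
      rw [Function.iterate_succ_apply']
      unfold Lw
      apply Finset.sum_nonneg
      intro e _
      split_ifs
      · exact mul_nonneg (mul_nonneg (by norm_num) (hu e)) (ih _)
      · exact le_rfl
  exact h0 T x

theorem lo_nonneg {T : ℕ} (hT : 1 ≤ T) (x : ℤ) : 0 ≤ lo T x := by
  have hk := kap_pos (E := 6 * T) (by omega)
  unfold lo
  exact mul_nonneg (by positivity) (Lw_one_nonneg (fun e => by positivity) x)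

theorem hi_nonneg {T : ℕ} (hT : 1 ≤ T) (x : ℤ) : 0 ≤ hi T x := by
  have hk := kap_pos (E := 6 * T) (by omega)
  unfold hi
  exact mul_nonneg (by positivity) (Lw_one_nonneg (fun e => by positivity) x)

/-- a bad residue has a small martingale value up to the lower and the upper part -/
theorem bad_le {T : ℕ} (hT : 1 ≤ T) {η : ℝ} (x : ℤ)
    (hbad : ∀ s : ℕ, 17 * T ≤ 10 * s → s ≤ 6 * T →
        (Nn T s x : ℝ) < 2 ^ s / 3 ^ T * Real.exp (-(η * T))) :
    ff (6 * T) (T + 1) x ≤ lo T x + hi T x + (6 * T + 1) * (6 * Real.exp (-(η * T))) := by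
  have hk := kap_pos (E := 6 * T) (by omega)
  have hkT := kap_pow_le hT
  refine (ff_le hT x).trans ?_
  have hlo : lo T x = ∑ s ∈ Finset.range (T * (6 * T) + 1),
      3 * (1632 / 1000) ^ T * ((3 * kap (6 * T)) ^ T * (3 / 8) ^ s *
        ∑ z ∈ tr 3 (6 * T) T s x, (1 : ℝ)) := by
    unfold lo
    rw [Lw_iter_tr, Finset.mul_sum]
  have hhi : hi T x = ∑ s ∈ Finset.range (T * (6 * T) + 1),
      3 * (2 / 3) ^ (6 * T) * ((3 * kap (6 * T)) ^ T * (3 / 4) ^ s *
        ∑ z ∈ tr 3 (6 * T) T s x, (1 : ℝ)) := by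
    unfold hi
    rw [Lw_iter_tr, Finset.mul_sum]
  have hmid : ∑ s ∈ Finset.range (T * (6 * T) + 1),
      (if s ≤ 6 * T then 6 * Real.exp (-(η * T)) else 0) ≤
      (6 * T + 1) * (6 * Real.exp (-(η * T))) := by
    rw [← Finset.sum_filter, Finset.sum_const, nsmul_eq_mul]
    apply mul_le_mul_of_nonneg_right _ (by positivity)
    have : ((Finset.range (T * (6 * T) + 1)).filter (fun s => s ≤ 6 * T)).card ≤ 6 * T + 1 := by
      calc _ ≤ (Finset.range (6 * T + 1)).card := by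
            apply Finset.card_le_card
            intro s hs
            simp only [Finset.mem_filter, Finset.mem_range] at hs ⊢
            omega
        _ = 6 * T + 1 := Finset.card_range _
    exact_mod_cast this
  rw [hlo, hhi]
  refine le_trans ?_ (add_le_add_right hmid _)
  rw [← Finset.sum_add_distrib, ← Finset.sum_add_distrib]
  apply Finset.sum_le_sum
  intro s _
  have hn1 : 0 ≤ 3 * (1632 / 1000) ^ T * ((3 * kap (6 * T)) ^ T * (3 / 8) ^ s *
        ∑ z ∈ tr 3 (6 * T) T s x, (1 : ℝ)) := by positivity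
  have hn2 : 0 ≤ 3 * (2 / 3) ^ (6 * T) * ((3 * kap (6 * T)) ^ T * (3 / 4) ^ s *
        ∑ z ∈ tr 3 (6 * T) T s x, (1 : ℝ)) := by positivity
  have hn3 : 0 ≤ (if s ≤ 6 * T then 6 * Real.exp (-(η * T)) else 0) := by
    split_ifs
    · positivity
    · exact le_rfl
  rcases lt_or_ge (10 * s) (17 * T) with h | h
  · have := term_lo hT x h
    linarith
  · rcases lt_or_ge (6 * T) s with h' | h'
    · have := term_hi hT x h'
      linarith
    · rw [if_pos h']
      have h1 := (hbad s h h').le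
      have h2 : (3 * kap (6 * T)) ^ T * (1 / 2) ^ s * (3 * (Nn T s x : ℝ)) ≤
          6 * Real.exp (-(η * T)) := by
        calc (3 * kap (6 * T)) ^ T * (1 / 2) ^ s * (3 * (Nn T s x : ℝ))
            ≤ (3 * kap (6 * T)) ^ T * (1 / 2) ^ s *
                (3 * (2 ^ s / 3 ^ T * Real.exp (-(η * T)))) := by
              apply mul_le_mul_of_nonneg_left _ (by positivity)
              linarith
          _ = 3 * kap (6 * T) ^ T * Real.exp (-(η * T)) := by
              have e1 : ((1 : ℝ) / 2) ^ s * 2 ^ s = 1 := by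
                rw [← mul_pow]; norm_num
              have e2 : ((3 : ℝ) ^ T) ≠ 0 := by positivity
              rw [mul_pow]
              calc _ = (3 * kap (6 * T) ^ T * Real.exp (-(η * T))) * ((1 / 2) ^ s * 2 ^ s) *
                      ((3 : ℝ) ^ T / 3 ^ T) := by ring
                _ = _ := by rw [e1, div_self e2]; ring
          _ ≤ 6 * Real.exp (-(η * T)) := by
              have := Real.exp_pos (-(η * T))
              nlinarith
      linarith

theorem sum_range_three (f : ℕ → ℝ) (n : ℕ) :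
    ∑ x ∈ Finset.range (3 * n), f x =
      ∑ y ∈ Finset.range n, (f (3 * y) + f (3 * y + 1) + f (3 * y + 2)) := by
  induction n with
  | zero => simp
  | succ n ih =>
    rw [Finset.sum_range_succ, ← ih, show 3 * (n + 1) = 3 * n + 1 + 1 + 1 by ring,
      Finset.sum_range_succ, Finset.sum_range_succ, Finset.sum_range_succ]
    ring

theorem sum_lo {T : ℕ} (hT : 1 ≤ T) :
    ∑ x ∈ Finset.range (3 ^ (T + 1)), lo T (x : ℤ) ≤ 18 * (9792 / 10000) ^ T * 3 ^ T := by
  have hk := kap_pos (E := 6 * T) (by omega)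
  have hkT := kap_pow_le hT
  unfold lo
  rw [← Finset.mul_sum, Lw_total (m := 1) (fun _ _ => rfl)]
  have h1 : ∑ e ∈ Finset.Icc 1 (6 * T), kap (6 * T) * ((3 : ℝ) / 8) ^ e ≤ kap (6 * T) * (3 / 5) := by
    rw [← Finset.mul_sum]
    apply mul_le_mul_of_nonneg_left _ hk.le
    refine (geo_le _ (by norm_num) (by norm_num) _).trans ?_
    norm_num
  have h0 : 0 ≤ ∑ e ∈ Finset.Icc 1 (6 * T), kap (6 * T) * ((3 : ℝ) / 8) ^ e :=
    Finset.sum_nonneg (fun e _ => by positivity)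
  have h2 : (3 * ∑ e ∈ Finset.Icc 1 (6 * T), kap (6 * T) * ((3 : ℝ) / 8) ^ e) ^ T ≤
      (3 * (kap (6 * T) * (3 / 5))) ^ T := by
    apply pow_le_pow_left₀ (by positivity)
    linarith
  have h3 : (∑ _y ∈ Finset.range (3 ^ 1), (1 : ℝ)) = 3 := by simp
  rw [h3]
  calc 3 * (1632 / 1000 : ℝ) ^ T *
        ((3 * ∑ e ∈ Finset.Icc 1 (6 * T), kap (6 * T) * ((3 : ℝ) / 8) ^ e) ^ T * 3)
      ≤ 3 * (1632 / 1000 : ℝ) ^ T * ((3 * (kap (6 * T) * (3 / 5))) ^ T * 3) := by
        apply mul_le_mul_of_nonneg_left _ (by positivity)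
        linarith
    _ = 9 * kap (6 * T) ^ T * ((1632 / 1000 * (3 / 5)) ^ T * 3 ^ T) := by
        rw [mul_pow, mul_pow, mul_pow]; ring
    _ ≤ 9 * 2 * ((1632 / 1000 * (3 / 5)) ^ T * 3 ^ T) := by
        apply mul_le_mul_of_nonneg_right _ (by positivity)
        linarith
    _ = 18 * (9792 / 10000) ^ T * 3 ^ T := by
        norm_num; ring

theorem sum_hi {T : ℕ} (hT : 1 ≤ T) :
    ∑ x ∈ Finset.range (3 ^ (T + 1)), hi T (x : ℤ) ≤ 18 * (9792 / 10000) ^ T * 3 ^ T := by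
  have hk := kap_pos (E := 6 * T) (by omega)
  have hkT := kap_pow_le hT
  unfold hi
  rw [← Finset.mul_sum, Lw_total (m := 1) (fun _ _ => rfl)]
  have h1 : ∑ e ∈ Finset.Icc 1 (6 * T), kap (6 * T) * ((3 : ℝ) / 4) ^ e ≤ kap (6 * T) * 3 := by
    rw [← Finset.mul_sum]
    apply mul_le_mul_of_nonneg_left _ hk.le
    refine (geo_le _ (by norm_num) (by norm_num) _).trans ?_
    norm_num
  have h0 : 0 ≤ ∑ e ∈ Finset.Icc 1 (6 * T), kap (6 * T) * ((3 : ℝ) / 4) ^ e :=
    Finset.sum_nonneg (fun e _ => by positivity)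
  have h2 : (3 * ∑ e ∈ Finset.Icc 1 (6 * T), kap (6 * T) * ((3 : ℝ) / 4) ^ e) ^ T ≤
      (3 * (kap (6 * T) * 3)) ^ T := by
    apply pow_le_pow_left₀ (by positivity)
    linarith
  have h3 : (∑ _y ∈ Finset.range (3 ^ 1), (1 : ℝ)) = 3 := by simp
  rw [h3]
  calc 3 * (2 / 3 : ℝ) ^ (6 * T) *
        ((3 * ∑ e ∈ Finset.Icc 1 (6 * T), kap (6 * T) * ((3 : ℝ) / 4) ^ e) ^ T * 3)
      ≤ 3 * (2 / 3 : ℝ) ^ (6 * T) * ((3 * (kap (6 * T) * 3)) ^ T * 3) := by
        apply mul_le_mul_of_nonneg_left _ (by positivity)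
        linarith
    _ = 9 * kap (6 * T) ^ T * (((2 / 3) ^ 6 * 3) ^ T * 3 ^ T) := by
        rw [mul_pow, mul_pow, mul_pow, pow_mul]; ring
    _ ≤ 9 * 2 * (((2 / 3) ^ 6 * 3) ^ T * 3 ^ T) := by
        apply mul_le_mul_of_nonneg_right _ (by positivity)
        linarith
    _ ≤ 9 * 2 * ((9792 / 10000) ^ T * 3 ^ T) := by
        apply mul_le_mul_of_nonneg_left _ (by norm_num)
        apply mul_le_mul_of_nonneg_right _ (by positivity)
        apply pow_le_pow_left₀ (by norm_num)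
        norm_num
    _ = 18 * (9792 / 10000) ^ T * 3 ^ T := by ring

theorem sum_ff {T : ℕ} (hT : 1 ≤ T) :
    ∑ x ∈ Finset.range (3 ^ (T + 1)), ff (6 * T) (T + 1) (x : ℤ) = 3 * 3 ^ T := by
  unfold ff Lop
  have h := Lw_total (E := 6 * T) (u := fun e => kap (6 * T) * (1 / 2) ^ e) (h := fun _ => 1)
    (m := 0) (fun _ _ => rfl) (T + 1)
  rw [add_zero] at h
  rw [h, kap_sum (by omega)]
  simp
  ring

theorem sum_units {T : ℕ} {K : ℝ}
    (hlog : ∀ x : ℤ, ¬ (3 : ℤ) ∣ x →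
      ∑ y ∈ Finset.range (3 ^ T), - Real.log (ff (6 * T) (T + 1) (x + 3 * (y : ℤ))) ≤ K) :
    ∑ x ∈ Finset.range (3 ^ (T + 1)),
      (if (3 : ℤ) ∣ (x : ℤ) then 0 else - Real.log (ff (6 * T) (T + 1) (x : ℤ))) ≤ 2 * K := by
  rw [show 3 ^ (T + 1) = 3 * 3 ^ T by ring, sum_range_three]
  have h1 := hlog 1 (by norm_num)
  have h2 := hlog 2 (by norm_num)
  have h3 : ∑ y ∈ Finset.range (3 ^ T),
      ((if (3 : ℤ) ∣ ((3 * y : ℕ) : ℤ) then 0 else
          - Real.log (ff (6 * T) (T + 1) ((3 * y : ℕ) : ℤ))) +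
        (if (3 : ℤ) ∣ ((3 * y + 1 : ℕ) : ℤ) then 0 else
          - Real.log (ff (6 * T) (T + 1) ((3 * y + 1 : ℕ) : ℤ))) +
        (if (3 : ℤ) ∣ ((3 * y + 2 : ℕ) : ℤ) then 0 else
          - Real.log (ff (6 * T) (T + 1) ((3 * y + 2 : ℕ) : ℤ)))) =
      ∑ y ∈ Finset.range (3 ^ T), - Real.log (ff (6 * T) (T + 1) (1 + 3 * (y : ℤ))) +
      ∑ y ∈ Finset.range (3 ^ T), - Real.log (ff (6 * T) (T + 1) (2 + 3 * (y : ℤ))) := by
    rw [← Finset.sum_add_distrib]
    apply Finset.sum_congr rfl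
    intro y _
    rw [if_pos (by omega), if_neg (by omega), if_neg (by omega)]
    push_cast
    rw [zero_add, add_comm (3 * (y : ℤ)) 1, add_comm (3 * (y : ℤ)) 2]
  rw [h3]
  linarith

/-- the pointwise inequality -/
theorem pointwise {T : ℕ} (hT : 1 ≤ T) {η c : ℝ} (hc : 0 < c)
    (hA : (6 * T + 1) * (6 * Real.exp (-(η * T))) ≤ Real.exp (-(c * T)) / 2) (x : ℤ)
    (hx : ¬ (3 : ℤ) ∣ x)
    (hbad : ∀ s : ℕ, 17 * T ≤ 10 * s → s ≤ 6 * T →
        (Nn T s x : ℝ) < 2 ^ s / 3 ^ T * Real.exp (-(η * T))) :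
    1 ≤ (- Real.log (ff (6 * T) (T + 1) x) + ff (6 * T) (T + 1) x) / (c * T) +
      2 * Real.exp (c * T) * (lo T x + hi T x) := by
  have hG : 0 < ff (6 * T) (T + 1) x := ff_pos (by omega) hx
  have hlo := lo_nonneg hT x
  have hhi := hi_nonneg hT x
  have hT' : (0 : ℝ) < T := by exact_mod_cast (by omega : 0 < T)
  have hcT : 0 < c * T := mul_pos hc hT'
  have hlog : Real.log (ff (6 * T) (T + 1) x) ≤ ff (6 * T) (T + 1) x - 1 :=
    Real.log_le_sub_one_of_pos hG
  have hexp : Real.exp (c * T) * Real.exp (-(c * T)) = 1 := by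
    rw [← Real.exp_add]; simp
  rcases lt_or_ge (ff (6 * T) (T + 1) x) (Real.exp (-(c * T))) with h | h
  · have h1 : Real.log (ff (6 * T) (T + 1) x) < -(c * T) := by
      rw [Real.log_lt_iff_lt_exp hG]
      exact h
    have h2 : 1 ≤ (- Real.log (ff (6 * T) (T + 1) x) + ff (6 * T) (T + 1) x) / (c * T) := by
      rw [le_div_iff₀ hcT]
      linarith
    have h3 : 0 ≤ 2 * Real.exp (c * T) * (lo T x + hi T x) := by positivity
    linarith
  · have h1 := bad_le hT x hbad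
    have h2 : Real.exp (-(c * T)) / 2 ≤ lo T x + hi T x := by linarith
    have h3 : 1 ≤ 2 * Real.exp (c * T) * (lo T x + hi T x) := by
      have := mul_le_mul_of_nonneg_left h2 (by positivity : 0 ≤ 2 * Real.exp (c * T))
      calc (1 : ℝ) = Real.exp (c * T) * Real.exp (-(c * T)) := hexp.symm
        _ = 2 * Real.exp (c * T) * (Real.exp (-(c * T)) / 2) := by ring
        _ ≤ _ := this
    have h4 : 0 ≤ (- Real.log (ff (6 * T) (T + 1) x) + ff (6 * T) (T + 1) x) / (c * T) := by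
      apply div_nonneg _ hcT.le
      linarith
    linarith

theorem eventually_small (C η δ c : ℝ) (hη : 0 < η) (hδ : 0 < δ) (hc : 0 < c)
    (hc1 : c ≤ η / 2) (hc2 : c ≤ 1 / 200) : ∃ T₀ : ℕ, ∀ T : ℕ, T₀ ≤ T → 1 ≤ T ∧
      (6 * T + 1) * (6 * Real.exp (-(η * T))) ≤ Real.exp (-(c * T)) / 2 ∧
      (2 * (C * Real.sqrt T * (1 + Real.log T)) + 3) / (c * T) ≤ δ / 2 ∧
      2 * Real.exp (c * T) * (36 * (9792 / 10000) ^ T) ≤ δ / 2 := by
  have t0 : Filter.Tendsto (fun T : ℕ => (T : ℝ)) Filter.atTop Filter.atTop :=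
    tendsto_natCast_atTop_atTop
  have t1 : Filter.Tendsto (fun T : ℕ => Real.log T / Real.sqrt T) Filter.atTop (nhds 0) := by
    have h := (isLittleO_log_rpow_atTop (r := 1 / 2) (by norm_num)).tendsto_div_nhds_zero
    have h2 := h.comp t0
    refine h2.congr (fun T => ?_)
    simp [Real.sqrt_eq_rpow]
  have t2 : Filter.Tendsto (fun T : ℕ => 1 / Real.sqrt T) Filter.atTop (nhds 0) := by
    have h : Filter.Tendsto (fun x : ℝ => 1 / Real.sqrt x) Filter.atTop (nhds 0) := by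
      simp_rw [one_div]
      exact tendsto_inv_atTop_zero.comp Real.tendsto_sqrt_atTop
    exact h.comp t0
  have t3 : Filter.Tendsto (fun T : ℕ => 1 / (T : ℝ)) Filter.atTop (nhds 0) := by
    simp_rw [one_div]
    exact tendsto_inv_atTop_zero.comp t0
  have tB : Filter.Tendsto (fun T : ℕ => (2 * C / c) * (1 / Real.sqrt T +
      Real.log T / Real.sqrt T) + (3 / c) * (1 / (T : ℝ))) Filter.atTop (nhds 0) := by
    have := ((t2.add t1).const_mul (2 * C / c)).add (t3.const_mul (3 / c))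
    simpa using this
  have tA : Filter.Tendsto (fun T : ℕ => (6 * (T : ℝ) + 1) * 12 * Real.exp (-(η / 2 * T)))
      Filter.atTop (nhds 0) := by
    have h1 : Filter.Tendsto (fun x : ℝ => (6 * x + 1) * 12 * Real.exp (-(η / 2 * x)))
        Filter.atTop (nhds 0) := by
      have e1 := Real.tendsto_pow_mul_exp_neg_atTop_nhds_zero 1
      have e0 := Real.tendsto_pow_mul_exp_neg_atTop_nhds_zero 0
      have s1 : Filter.Tendsto (fun x : ℝ => η / 2 * x) Filter.atTop Filter.atTop :=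
        Filter.tendsto_id.const_mul_atTop (by positivity)
      have f1 := (e1.comp s1).const_mul (72 * (2 / η))
      have f0 := (e0.comp s1).const_mul 12
      have f := f1.add f0
      simp only [mul_zero, add_zero] at f
      refine f.congr (fun x => ?_)
      simp only [Function.comp, pow_one, pow_zero]
      field_simp
      ring
    exact h1.comp t0
  have tC : Filter.Tendsto (fun T : ℕ => 72 * (Real.exp (1 / 200) * (9792 / 10000)) ^ T)
      Filter.atTop (nhds 0) := by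
    have hlt : Real.exp (1 / 200) * (9792 / 10000) < 1 := by
      have h1 : Real.exp (1 / 200 : ℝ) ≤ 1 / (1 - 1 / 200) :=
        Real.exp_bound_div_one_sub_of_interval (by norm_num) (by norm_num)
      nlinarith
    have := (tendsto_pow_atTop_nhds_zero_of_lt_one (by positivity) hlt).const_mul 72
    simpa using this
  have eA := tA.eventually (ge_mem_nhds (show (0 : ℝ) < 1 by norm_num))
  have eB := tB.eventually (ge_mem_nhds (show (0 : ℝ) < δ / 2 by positivity))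
  have eC := tC.eventually (ge_mem_nhds (show (0 : ℝ) < δ / 2 by positivity))
  obtain ⟨T₀, hT₀⟩ := Filter.eventually_atTop.mp (((Filter.eventually_ge_atTop 1).and eA).and
    (eB.and eC))
  refine ⟨T₀, fun T hT => ?_⟩
  obtain ⟨⟨h1, h2⟩, h3, h4⟩ := hT₀ T hT
  have hT' : (0 : ℝ) < T := by exact_mod_cast (by omega : 0 < T)
  refine ⟨h1, ?_, ?_, ?_⟩
  · have e1 : Real.exp (-(η * T)) = Real.exp (-(η / 2 * T)) * Real.exp (-(η / 2 * T)) := by
      rw [← Real.exp_add]; congr 1; ring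
    have e2 : Real.exp (-(η / 2 * T)) ≤ Real.exp (-(c * T)) := by
      apply Real.exp_le_exp.mpr
      nlinarith
    have e3 : 0 < Real.exp (-(η / 2 * T)) := Real.exp_pos _
    rw [e1]
    calc (6 * (T : ℝ) + 1) * (6 * (Real.exp (-(η / 2 * T)) * Real.exp (-(η / 2 * T))))
        = ((6 * (T : ℝ) + 1) * 12 * Real.exp (-(η / 2 * T))) * Real.exp (-(η / 2 * T)) / 2 := by
          ring
      _ ≤ 1 * Real.exp (-(c * T)) / 2 := by
          have := mul_le_mul h2 e2 e3.le (by norm_num)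
          linarith
      _ = _ := by ring
  · refine le_trans (le_of_eq ?_) h3
    have hs : Real.sqrt T * Real.sqrt T = T := Real.mul_self_sqrt hT'.le
    have hs0 : Real.sqrt T ≠ 0 := (Real.sqrt_pos.mpr hT').ne'
    have e1 : C * Real.sqrt T / (T : ℝ) = C * (1 / Real.sqrt T) := by
      have e0 : 1 / Real.sqrt T = Real.sqrt T / T := by
        rw [div_eq_div_iff hs0 hT'.ne', one_mul, hs]
      rw [e0]; ring
    calc (2 * (C * Real.sqrt T * (1 + Real.log T)) + 3) / (c * T)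
        = 2 / c * (C * Real.sqrt T / (T : ℝ)) * (1 + Real.log T) + 3 / c * (1 / T) := by
          field_simp
      _ = _ := by rw [e1]; ring
  · refine le_trans ?_ h4
    have e1 : Real.exp (c * T) ≤ Real.exp (1 / 200) ^ T := by
      rw [← Real.exp_nat_mul]
      apply Real.exp_le_exp.mpr
      nlinarith
    calc 2 * Real.exp (c * T) * (36 * (9792 / 10000) ^ T)
        ≤ 2 * Real.exp (1 / 200) ^ T * (36 * (9792 / 10000) ^ T) := by
          apply mul_le_mul_of_nonneg_right _ (by positivity)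
          linarith
      _ = _ := by rw [mul_pow]; ring

end Typ

open scoped Classical in
theorem typical (η δ : ℝ) (hη : 0 < η) (hδ : 0 < δ) : ∃ T₀ : ℕ, ∀ T : ℕ, T₀ ≤ T →
    (((Finset.range (3 ^ (T + 1))).filter (fun x : ℕ => ¬ (3 : ℤ) ∣ (x : ℤ) ∧
      ∀ s : ℕ, 17 * T ≤ 10 * s → s ≤ 6 * T →
        (((tr 3 (6 * T) T s (x : ℤ)).filter (fun z => ¬ (3 : ℤ) ∣ z)).card : ℝ) <
          2 ^ s / 3 ^ T * Real.exp (-(η * T)))).card : ℝ) ≤ δ * 3 ^ T := by
  obtain ⟨C, hC, hlog⟩ := log_avg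
  set c : ℝ := min (η / 2) (1 / 200) with hcdef
  have hc : 0 < c := lt_min (by positivity) (by norm_num)
  obtain ⟨T₀, hT₀⟩ := Typ.eventually_small C η δ c hη hδ hc (min_le_left _ _) (min_le_right _ _)
  refine ⟨T₀, fun T hT => ?_⟩
  obtain ⟨hT1, hA, hB, hCC⟩ := hT₀ T hT
  have hT' : (0 : ℝ) < T := by exact_mod_cast (by omega : 0 < T)
  have hcT : 0 < c * T := mul_pos hc hT'
  have h3T : (0 : ℝ) < 3 ^ T := by positivity
  -- the sum over the units
  have hsumlog := Typ.sum_units (T := T) (fun x hx => hlog T (6 * T) hT1 le_rfl x hx)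
  have hff0 : ∀ x : ℤ, 0 ≤ ff (6 * T) (T + 1) x := fun x => by
    have hk := Typ.kap_pos (E := 6 * T) (by omega)
    unfold ff Lop
    exact Typ.Lw_one_nonneg (fun e => by positivity) x
  rw [Finset.card_filter]
  push_cast
  calc (∑ x ∈ Finset.range (3 ^ (T + 1)), (if ¬ (3 : ℤ) ∣ (x : ℤ) ∧
      ∀ s : ℕ, 17 * T ≤ 10 * s → s ≤ 6 * T →
        (((tr 3 (6 * T) T s (x : ℤ)).filter (fun z => ¬ (3 : ℤ) ∣ z)).card : ℝ) <
          2 ^ s / 3 ^ T * Real.exp (-(η * T)) then (1 : ℝ) else 0))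
      ≤ ∑ x ∈ Finset.range (3 ^ (T + 1)),
        (((if (3 : ℤ) ∣ (x : ℤ) then 0 else - Real.log (ff (6 * T) (T + 1) (x : ℤ))) +
          ff (6 * T) (T + 1) (x : ℤ)) / (c * T) +
          2 * Real.exp (c * T) * (Typ.lo T (x : ℤ) + Typ.hi T (x : ℤ))) := by
        apply Finset.sum_le_sum
        intro x _
        have hlo := Typ.lo_nonneg hT1 (x : ℤ)
        have hhi := Typ.hi_nonneg hT1 (x : ℤ)
        have hf := hff0 (x : ℤ)
        split_ifs with h1 h2 h2
        · exact absurd h2 h1.1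
        · exact Typ.pointwise hT1 hc hA (x : ℤ) h1.1 h1.2
        · positivity
        · have hG : 0 < ff (6 * T) (T + 1) (x : ℤ) := ff_pos (by omega) h2
          have hl := Real.log_le_sub_one_of_pos hG
          have h4 : 0 ≤ (- Real.log (ff (6 * T) (T + 1) (x : ℤ)) + ff (6 * T) (T + 1) (x : ℤ)) /
              (c * T) := by
            apply div_nonneg _ hcT.le
            linarith
          positivity
    _ = ((∑ x ∈ Finset.range (3 ^ (T + 1)),
          (if (3 : ℤ) ∣ (x : ℤ) then 0 else - Real.log (ff (6 * T) (T + 1) (x : ℤ)))) +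
          ∑ x ∈ Finset.range (3 ^ (T + 1)), ff (6 * T) (T + 1) (x : ℤ)) / (c * T) +
          2 * Real.exp (c * T) * (∑ x ∈ Finset.range (3 ^ (T + 1)), Typ.lo T (x : ℤ) +
            ∑ x ∈ Finset.range (3 ^ (T + 1)), Typ.hi T (x : ℤ)) := by
        rw [Finset.sum_add_distrib, ← Finset.sum_div, Finset.sum_add_distrib, ← Finset.mul_sum,
          Finset.sum_add_distrib]
    _ ≤ (2 * (3 ^ T * (C * Real.sqrt T * (1 + Real.log T))) + 3 * 3 ^ T) / (c * T) +
          2 * Real.exp (c * T) * (18 * (9792 / 10000) ^ T * 3 ^ T +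
            18 * (9792 / 10000) ^ T * 3 ^ T) := by
        rw [Typ.sum_ff hT1]
        apply add_le_add
        · rw [div_le_div_iff_of_pos_right hcT]
          linarith
        · apply mul_le_mul_of_nonneg_left _ (by positivity)
          exact add_le_add (Typ.sum_lo hT1) (Typ.sum_hi hT1)
    _ = ((2 * (C * Real.sqrt T * (1 + Real.log T)) + 3) / (c * T) +
          2 * Real.exp (c * T) * (36 * (9792 / 10000) ^ T)) * 3 ^ T := by
        ring
    _ ≤ (δ / 2 + δ / 2) * 3 ^ T := by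
        apply mul_le_mul_of_nonneg_right _ h3T.le
        exact add_le_add hB hCC
    _ = δ * 3 ^ T := by ring

end Pool.Agent.H412R2
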