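import Mathlib

/-!
Backward trees of the `q x + 1` map, capped transfer operators and homogeneous Markov kernels:
definitions shared by all modules of `Pool.Agent.H412R2`.
-/

set_option autoImplicit false

namespace Pool.Agent.H412R2

/-- `tr q E n s x`: the set of endpoints of backward words with `n` letters, all letters in `[1,E]`,
of total size `s`, starting at `x`; a letter `e` leads from `x` to `b` with `q b + 1 = 2^e x`. -/
def tr (q E : ℕ) : ℕ → ℕ → ℤ → Finset ℤ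
  | 0, s, x => if s = 0 then {x} else ∅
  | n + 1, s, x => (Finset.Icc 1 (min s E)).biUnion fun e =>
      if (q : ℤ) ∣ 2 ^ e * x - 1 then tr q E n (s - e) ((2 ^ e * x - 1) / q) else ∅

/-- transfer operator of the capped backward `3x+1` tree with letter weights `u` -/
noncomputable def Lw (E : ℕ) (u : ℕ → ℝ) (h : ℤ → ℝ) : ℤ → ℝ := fun x =>
  ∑ e ∈ Finset.Icc 1 E, if (3 : ℤ) ∣ 2 ^ e * x - 1 then 3 * u e * h ((2 ^ e * x - 1) / 3) else 0

/-- normalising constant: `∑_{1 ≤ e ≤ E} kap E * 2^{-e} = 1` -/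
noncomputable def kap (E : ℕ) : ℝ := 1 / (1 - (1 / 2) ^ E)

/-- the critical operator -/
noncomputable def Lop (E : ℕ) : (ℤ → ℝ) → (ℤ → ℝ) := Lw E (fun e => kap E * (1 / 2) ^ e)

/-- the critical martingale: `ff E n x = ∑_{words w of n letters valid at x} 3^n kap^n 2^{-|w|}` -/
noncomputable def ff (E n : ℕ) : ℤ → ℝ := (Lop E)^[n] (fun _ => 1)

/-- paths of a kernel with children sets `K` and sizes `S`: number of steps, total size, start, end -/
inductive Path (S : ℤ → ℕ) (K : ℤ → Finset ℤ) : ℕ → ℕ → ℤ → ℤ → Prop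
  | refl (x : ℤ) : Path S K 0 0 x x
  | step {j s : ℕ} {x b z : ℤ} : b ∈ K x → Path S K j s b z → Path S K (j + 1) (s + S x) x z

/-- A backward kernel: from an alive `x` (`q ∤ x`) one goes to the children `b ∈ K x`, all alive,
`b = (2^{S x} x - o)/q^R`; both `S` and the offsets `o` depend only on `x mod q^{R+1}`. -/
structure Ker (q R : ℕ) where
  S : ℤ → ℕ
  K : ℤ → Finset ℤ
  Smax : ℕ
  D : ℕ
  hSmax : ∀ x : ℤ, S x ≤ Smax
  hS : ∀ x y : ℤ, ¬ (q : ℤ) ∣ x → S (x + (q : ℤ) ^ (R + 1) * y) = S x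
  hK : ∀ x y b : ℤ, ¬ (q : ℤ) ∣ x →
    (b + 2 ^ (S x) * ((q : ℤ) * y) ∈ K (x + (q : ℤ) ^ (R + 1) * y) ↔ b ∈ K x)
  hcard : ∀ x : ℤ, ¬ (q : ℤ) ∣ x → 2 ≤ (K x).card
  hlive : ∀ x b : ℤ, ¬ (q : ℤ) ∣ x → b ∈ K x → ¬ (q : ℤ) ∣ b
  hsep : ∀ (j s : ℕ) (x b b' z z' : ℤ), ¬ (q : ℤ) ∣ x → b ∈ K x → b' ∈ K x →
    Path S K j s b z → Path S K j s b' z' → z ≡ z' [ZMOD (q : ℤ) ^ (D * (j + 1))] → b = b'

/-- Markov operator of a kernel (uniform choice among the children) -/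
noncomputable def Ker.P {q R : ℕ} (κ : Ker q R) (f : ℤ → ℝ) (x : ℤ) : ℝ :=
  (∑ b ∈ κ.K x, f b) / ((κ.K x).card : ℝ)

end Pool.Agent.H412R2
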