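import Pool.Agent.H33.G.R_seed8.H412R2.Tree
import Pool.Agent.H33.G.R_seed8.H412R2.CountThm

set_option autoImplicit false

/-!
Task 8 (FINAL): the kernel built from `typical`, the main counting theorem and the two frozen
statements, all from the statements `TypicalStmt` (task 5) and `PositiveStmt` (task 6).
-/

namespace Pool.Agent.H412R2

open scoped Classical in
/-- the statement of `typical` (task 5) -/
def TypicalStmt : Prop := ∀ (η δ : ℝ), 0 < η → 0 < δ → ∃ T₀ : ℕ, ∀ T : ℕ, T₀ ≤ T →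
    (((Finset.range (3 ^ (T + 1))).filter (fun x : ℕ => ¬ (3 : ℤ) ∣ (x : ℤ) ∧
      ∀ s : ℕ, 17 * T ≤ 10 * s → s ≤ 6 * T →
        (((tr 3 (6 * T) T s (x : ℤ)).filter (fun z => ¬ (3 : ℤ) ∣ z)).card : ℝ) <
          2 ^ s / 3 ^ T * Real.exp (-(η * T)))).card : ℝ) ≤ δ * 3 ^ T

/-- the statement of `positive` (task 6) -/
def PositiveStmt : Prop := ∀ {q R : ℕ} (κ : Ker q R), q.Prime → q ≠ 2 → 1 ≤ R → ∀ g : ℤ → ℝ,
    (∀ x y : ℤ, ¬ (q : ℤ) ∣ x → g (x + (q : ℤ) ^ (R + 1) * y) = g x) →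
    (∀ r ∈ Finset.Ico 1 q,
      0 < ∑ x ∈ (Finset.range (q ^ (R + 1))).filter (fun x => x % q = r), g (x : ℤ)) →
    ∃ N : ℕ, 1 ≤ N ∧ ∀ x : ℤ, ¬ (q : ℤ) ∣ x → 0 < ∑ i ∈ Finset.range N, (κ.P)^[i] g x

/-- the statement of the main counting theorem -/
def MainCountStmt : Prop := ∀ σ : ℝ, 0 < σ → σ < 1 → ∀ a : ℤ, ¬ (3 : ℤ) ∣ a →
    ∃ c B₀ : ℝ, 0 < c ∧ 1 ≤ B₀ ∧ ∀ B : ℝ, B₀ ≤ B → ∃ F : Finset ℤ,
      (∀ z ∈ F, (|z| : ℝ) ≤ B ∧ ∃ E n s, z ∈ tr 3 E n s a) ∧ c * B ^ σ ≤ F.card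

/-! ### the kernel -/

/-- number of unit endpoints of `T`-letter words of size `s` -/
noncomputable def NU (T s : ℕ) (x : ℤ) : ℕ :=
  ((tr 3 (6 * T) T s x).filter (fun z => ¬ (3 : ℤ) ∣ z)).card

/-- `s` is a good size for `x` -/
def Good (η : ℝ) (T : ℕ) (x : ℤ) (s : ℕ) : Prop :=
  17 * T ≤ 10 * s ∧ s ≤ 6 * T ∧ 2 ^ s / 3 ^ T * Real.exp (-(η * T)) ≤ (NU T s x : ℝ)

theorem mem_unit_shift (T s : ℕ) (x y z : ℤ) :
    z + 2 ^ s * (3 * y) ∈ (tr 3 (6 * T) T s (x + 3 ^ (T + 1) * y)).filter (fun z => ¬ (3 : ℤ) ∣ z) ↔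
      z ∈ (tr 3 (6 * T) T s x).filter (fun z => ¬ (3 : ℤ) ∣ z) := by
  have h := mem_tr_shift (q := 3) (E := 6 * T) (n := T) (s := s) (by norm_num) x (3 * y) z
  have e : x + 3 ^ (T + 1) * y = x + ((3 : ℕ) : ℤ) ^ T * (3 * y) := by
    push_cast; ring
  rw [e, Finset.mem_filter, Finset.mem_filter, h]
  have h3 : (3 : ℤ) ∣ z + 2 ^ s * (3 * y) ↔ (3 : ℤ) ∣ z := by
    have : (3 : ℤ) ∣ 2 ^ s * (3 * y) := ⟨2 ^ s * y, by ring⟩
    exact dvd_add_left this
  rw [h3]

theorem NU_shift (T s : ℕ) (x y : ℤ) : NU T s (x + 3 ^ (T + 1) * y) = NU T s x := by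
  unfold NU
  symm
  refine Finset.card_bij (fun z _ => z + 2 ^ s * (3 * y)) ?_ ?_ ?_
  · intro z hz
    exact (mem_unit_shift T s x y z).2 hz
  · intro z _ z' _ h
    simpa using h
  · intro w hw
    refine ⟨w - 2 ^ s * (3 * y), ?_, by ring⟩
    apply (mem_unit_shift T s x y _).1
    simpa using hw

theorem good_shift (η : ℝ) (T : ℕ) (x y : ℤ) (s : ℕ) :
    Good η T (x + 3 ^ (T + 1) * y) s ↔ Good η T x s := by
  unfold Good; rw [NU_shift]

open scoped Classical in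
/-- the size used from `x` -/
noncomputable def SS (η : ℝ) (T : ℕ) (x : ℤ) : ℕ :=
  if h : ∃ s, Good η T x s then Nat.find h else 6 * T

/-- the children of `x` -/
noncomputable def KK (η : ℝ) (T : ℕ) (x : ℤ) : Finset ℤ :=
  (tr 3 (6 * T) T (SS η T x) x).filter (fun z => ¬ (3 : ℤ) ∣ z)

theorem SS_shift (η : ℝ) (T : ℕ) (x y : ℤ) : SS η T (x + 3 ^ (T + 1) * y) = SS η T x := by
  have h : Good η T (x + 3 ^ (T + 1) * y) = Good η T x := by
    funext s; exact propext (good_shift η T x y s)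
  unfold SS
  rw [h]

theorem SS_good {η : ℝ} {T : ℕ} {x : ℤ} (h : ∃ s, Good η T x s) : Good η T x (SS η T x) := by
  classical
  unfold SS
  rw [dif_pos h]
  convert Nat.find_spec h

theorem SS_bad {η : ℝ} {T : ℕ} {x : ℤ} (h : ¬ ∃ s, Good η T x s) : SS η T x = 6 * T := by
  unfold SS
  rw [dif_neg h]

theorem SS_le (η : ℝ) (T : ℕ) (x : ℤ) : SS η T x ≤ 6 * T := by
  by_cases h : ∃ s, Good η T x s
  · exact (SS_good h).2.1
  · rw [SS_bad h]

theorem SS_ge (η : ℝ) (T : ℕ) (x : ℤ) : 17 * T ≤ 10 * SS η T x := by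
  by_cases h : ∃ s, Good η T x s
  · exact (SS_good h).1
  · rw [SS_bad h]; omega

theorem path_size {η : ℝ} {T j s : ℕ} {x z : ℤ} (h : Path (SS η T) (KK η T) j s x z) :
    s ≤ 6 * T * j := by
  induction h with
  | refl x => simp
  | step hb _ ih =>
    rename_i j s x b z _
    have := SS_le η T x
    calc s + SS η T x ≤ 6 * T * j + 6 * T := by omega
      _ = 6 * T * (j + 1) := by ring

theorem path_tr {η : ℝ} {T j s : ℕ} {x z : ℤ} (h : Path (SS η T) (KK η T) j s x z) :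
    z ∈ tr 3 (6 * T) (T * j) s x := by
  induction h with
  | refl x => 
    rw [Nat.mul_zero, mem_tr_zero]; exact ⟨rfl, rfl⟩
  | step hb _ ih =>
    rename_i j s x b z _
    have h1 : b ∈ tr 3 (6 * T) T (SS η T x) x := (Finset.mem_filter.1 hb).1
    have h2 := tr_comp (q := 3) (by norm_num) h1 ih
    have e1 : T + T * j = T * (j + 1) := by ring
    have e2 : SS η T x + s = s + SS η T x := by ring
    rw [e1, e2] at h2
    exact h2

theorem two_pow_gt {T s : ℕ} (hT : 1 ≤ T) (h : 17 * T ≤ 10 * s) : 3 ^ T < 2 ^ s := by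
  have h1 : (3 ^ T) ^ 10 < (2 ^ s) ^ 10 := by
    calc (3 ^ T) ^ 10 = (3 ^ 10) ^ T := by rw [← pow_mul, ← pow_mul, mul_comm]
      _ < (2 ^ 17) ^ T := Nat.pow_lt_pow_left (by norm_num) (by omega)
      _ = 2 ^ (17 * T) := by rw [← pow_mul]
      _ ≤ 2 ^ (10 * s) := Nat.pow_le_pow_right (by norm_num) h
      _ = (2 ^ s) ^ 10 := by rw [← pow_mul, mul_comm]
  exact lt_of_pow_lt_pow_left₀ 10 (by positivity) h1


/-! ### real inequalities -/

/-- `c2 = 1.7 log 2 - log 3 > 0` -/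
noncomputable def c2 : ℝ := 17 / 10 * Real.log 2 - Real.log 3

theorem c2_gt : (7 / 100 : ℝ) < c2 := by
  unfold c2
  have h2 := Real.log_two_gt_d9
  have h3 := Real.log_three_lt_d9
  norm_num at *
  linarith

theorem log_ratio_ge {T s : ℕ} (h : 17 * T ≤ 10 * s) :
    c2 * T ≤ Real.log (2 ^ s / 3 ^ T) := by
  rw [Real.log_div (by positivity) (by positivity), Real.log_pow, Real.log_pow]
  unfold c2
  have h' : (17 * T : ℝ) ≤ 10 * s := by exact_mod_cast h
  have := Real.log_pos (by norm_num : (1 : ℝ) < 2)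
  nlinarith

theorem log_ratio_le {T s : ℕ} (h : s ≤ 6 * T) :
    Real.log (2 ^ s / 3 ^ T) ≤ 6 * T := by
  rw [Real.log_div (by positivity) (by positivity), Real.log_pow, Real.log_pow]
  have h' : (s : ℝ) ≤ 6 * T := by exact_mod_cast h
  have h2 := Real.log_two_lt_d9
  have h2' := Real.log_pos (by norm_num : (1 : ℝ) < 2)
  have h3 := Real.log_pos (by norm_num : (1 : ℝ) < 3)
  have h4 : (0 : ℝ) ≤ T := by positivity
  have h5 : (0 : ℝ) ≤ s := by positivity
  have h6 : Real.log 2 ≤ 1 := by norm_num at h2; linarith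
  have h7 : (s : ℝ) * Real.log 2 ≤ 6 * T * 1 := by
    apply mul_le_mul h' h6 h2'.le (by positivity)
  have h8 : 0 ≤ (T : ℝ) * Real.log 3 := by positivity
  linarith

theorem KK_card (η : ℝ) (T : ℕ) (x : ℤ) : (KK η T x).card = NU T (SS η T x) x := rfl

theorem KK_card_good {η : ℝ} {T : ℕ} {x : ℤ} (h : ∃ s, Good η T x s) :
    2 ^ (SS η T x) / 3 ^ T * Real.exp (-(η * T)) ≤ ((KK η T x).card : ℝ) := (SS_good h).2.2

theorem log_card_good {η : ℝ} {T : ℕ} {x : ℤ} (h : ∃ s, Good η T x s) :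
    Real.log (2 ^ (SS η T x) / 3 ^ T) - η * T ≤ Real.log ((KK η T x).card : ℝ) := by
  have h1 := KK_card_good h
  have h2 := Real.log_le_log (by positivity) h1
  rw [Real.log_mul (by positivity) (by positivity), Real.log_exp] at h2
  linarith

theorem KK_card_ge {η : ℝ} {T : ℕ} (hη : η ≤ c2 / 4) (hT : 20 ≤ T) {x : ℤ}
    (hx : ¬ (3 : ℤ) ∣ x) : 2 ≤ (KK η T x).card := by
  by_cases h : ∃ s, Good η T x s
  · have h1 := KK_card_good h
    have h2 := log_card_good h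
    have h3 := log_ratio_ge (SS_ge η T x)
    have hc := c2_gt
    have hT' : (20 : ℝ) ≤ T := by exact_mod_cast hT
    have h4 : (1 : ℝ) ≤ Real.log ((KK η T x).card : ℝ) := by
      have : (7 / 100 * (3 / 4) * 20 : ℝ) ≤ c2 * T - η * T := by nlinarith
      linarith
    by_contra hlt
    have h5 : ((KK η T x).card : ℝ) ≤ 1 := by
      have : (KK η T x).card ≤ 1 := by omega
      exact_mod_cast this
    have h6 := Real.log_nonpos (by positivity) h5
    linarith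
  · have h1 := tr_fallback (E := 6 * T) (n := T - 2) (s := 6 * T) hx (by omega) le_rfl
    rw [show T - 2 + 2 = T by omega] at h1
    unfold KK
    rw [SS_bad h]
    exact h1

theorem path_sep {η : ℝ} {T : ℕ} (hT : 1 ≤ T) (j s : ℕ) (x b b' z z' : ℤ)
    (hb : b ∈ KK η T x) (hb' : b' ∈ KK η T x)
    (h : Path (SS η T) (KK η T) j s b z) (h' : Path (SS η T) (KK η T) j s b' z')
    (hz : z ≡ z' [ZMOD (3 : ℤ) ^ (6 * T * (j + 1))]) : b = b' := by
  have h1 : b ∈ tr 3 (6 * T) T (SS η T x) x := (Finset.mem_filter.1 hb).1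
  have h1' : b' ∈ tr 3 (6 * T) T (SS η T x) x := (Finset.mem_filter.1 hb').1
  have h2 := path_tr h
  have h2' := path_tr h'
  have h3 := tr_comp (q := 3) (by norm_num) h1 h2
  have h3' := tr_comp (q := 3) (by norm_num) h1' h2'
  have a1 := tr_off_nonneg (by norm_num) h3
  have a2 := tr_off_le (by norm_num) h3
  have a1' := tr_off_nonneg (by norm_num) h3'
  have a2' := tr_off_le (by norm_num) h3'
  have hs : SS η T x + s ≤ 6 * T * (j + 1) := by
    have e1 := SS_le η T x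
    have e2 := path_size h
    calc SS η T x + s ≤ 6 * T + 6 * T * j := by omega
      _ = 6 * T * (j + 1) := by ring
  have hzz : z = z' := by
    by_contra hne
    have hd : (3 : ℤ) ^ (6 * T * (j + 1)) ∣ z' - z := (Int.modEq_iff_dvd).1 hz
    have hle : (3 : ℤ) ^ (6 * T * (j + 1)) ≤ |z' - z| := by
      apply Int.le_of_dvd
      · exact abs_pos.2 (sub_ne_zero.2 (Ne.symm hne))
      · exact (dvd_abs _ _).2 hd
    have hup : |z' - z| ≤ 2 ^ (SS η T x + s) := by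
      have hp : (0 : ℤ) < ((3 : ℕ) : ℤ) ^ (T + T * j) := by positivity
      rw [abs_le]
      constructor
      · nlinarith
      · nlinarith
    have h23 : (2 : ℤ) ^ (SS η T x + s) < 3 ^ (6 * T * (j + 1)) := by
      calc (2 : ℤ) ^ (SS η T x + s) ≤ 2 ^ (6 * T * (j + 1)) := pow_le_pow_right₀ (by norm_num) hs
        _ < 3 ^ (6 * T * (j + 1)) := by
          apply pow_lt_pow_left₀ (by norm_num) (by norm_num)
          have : 0 < 6 * T * (j + 1) := by positivity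
          omega
    omega
  subst hzz
  exact tr_middle (q := 3) (by decide) hT h1 h2 h1' h2'

/-- the kernel of the project -/
noncomputable def ker (η : ℝ) (T : ℕ) (hη : η ≤ c2 / 4) (hT : 20 ≤ T) : Ker 3 T where
  S := SS η T
  K := KK η T
  Smax := 6 * T
  D := 6 * T
  hSmax := SS_le η T
  hS := by
    intro x y _
    have := SS_shift η T x y
    exact_mod_cast this
  hK := by
    intro x y b _
    unfold KK
    push_cast
    rw [SS_shift η T x y]
    exact mem_unit_shift T (SS η T x) x y b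
  hcard := by
    intro x hx
    exact KK_card_ge hη hT (by exact_mod_cast hx)
  hlive := by
    intro x b _ hb
    have := (Finset.mem_filter.1 hb).2
    exact_mod_cast this
  hsep := by
    intro j s x b b' z z' _ hb hb' h h' hz
    exact path_sep (by omega) j s x b b' z z' hb hb' h h' (by exact_mod_cast hz)

theorem class_card (T r : ℕ) (hr : r ∈ Finset.Ico 1 3) :
    ((Finset.range (3 ^ (T + 1))).filter (fun x => x % 3 = r)).card = 3 ^ T := by
  have hr' := Finset.mem_Ico.1 hr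
  have : (Finset.range (3 ^ (T + 1))).filter (fun x => x % 3 = r) =
      (Finset.range (3 ^ T)).image (fun y => 3 * y + r) := by
    ext x
    simp only [Finset.mem_filter, Finset.mem_range, Finset.mem_image, pow_succ]
    constructor
    · rintro ⟨h1, h2⟩
      exact ⟨x / 3, by omega, by omega⟩
    · rintro ⟨y, h1, h2⟩
      constructor <;> omega
  rw [this, Finset.card_image_of_injective, Finset.card_range]
  intro a b h
  simpa using h

theorem term_good {η σ : ℝ} {T : ℕ} (hσ1 : σ < 1) {x : ℤ} (h : ∃ s, Good η T x s) :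
    ((1 - σ) * c2 - η) * T ≤
      Real.log ((KK η T x).card) - σ * Real.log (2 ^ (SS η T x) / (3 : ℝ) ^ T) := by
  have h1 := log_card_good h
  have h2 := log_ratio_ge (SS_ge η T x)
  nlinarith

theorem term_bad {η σ : ℝ} {T : ℕ} (hσ1 : σ < 1) (x : ℤ) :
    -(6 * T : ℝ) ≤
      Real.log ((KK η T x).card) - σ * Real.log (2 ^ (SS η T x) / (3 : ℝ) ^ T) := by
  have h1 : 0 ≤ Real.log ((KK η T x).card) := Real.log_natCast_nonneg _
  have h2 := log_ratio_ge (SS_ge η T x)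
  have h3 := log_ratio_le (SS_le η T x)
  have hc := c2_gt
  have h4 : 0 ≤ c2 * T := by positivity
  have h5 : σ * Real.log (2 ^ (SS η T x) / (3 : ℝ) ^ T) ≤ 1 * (6 * T) := by
    apply mul_le_mul hσ1.le h3 (by linarith) (by norm_num)
  linarith

theorem ker_hpos (typ : TypicalStmt) (σ η : ℝ) (hσ1 : σ < 1) (hη : η = (1 - σ) * c2 / 4) :
    ∃ T : ℕ, 20 ≤ T ∧ ∀ r ∈ Finset.Ico 1 3,
      0 < ∑ x ∈ (Finset.range (3 ^ (T + 1))).filter (fun x => x % 3 = r),
        (Real.log ((KK η T (x : ℤ)).card) - σ * Real.log (2 ^ (SS η T (x : ℤ)) / (3 : ℝ) ^ T)) := by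
  classical
  have hc := c2_gt
  have hη0 : 0 < η := by rw [hη]; apply div_pos (mul_pos (by linarith) (by linarith)) (by norm_num)
  set A : ℝ := 3 * η with hA
  have hA0 : 0 < A := by positivity
  obtain ⟨T₀, hT₀⟩ := typ η (A / (2 * (A + 6))) hη0 (by positivity)
  refine ⟨max T₀ 20, le_max_right _ _, ?_⟩
  set T := max T₀ 20 with hTdef
  intro r hr
  have hT20 : 20 ≤ T := le_max_right _ _
  have hty := hT₀ T (le_max_left _ _)
  set C := (Finset.range (3 ^ (T + 1))).filter (fun x => x % 3 = r) with hC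
  have hCc : (C.card : ℝ) = 3 ^ T := by
    have := class_card T r hr
    rw [hC, this]; push_cast; ring
  set Bd := C.filter (fun x : ℕ => ¬ ∃ s, Good η T (x : ℤ) s) with hBd
  have hBdc : (Bd.card : ℝ) ≤ A / (2 * (A + 6)) * 3 ^ T := by
    refine le_trans ?_ hty
    have : Bd.card ≤ _ := Finset.card_le_card (s := Bd)
      (t := (Finset.range (3 ^ (T + 1))).filter (fun x : ℕ => ¬ (3 : ℤ) ∣ (x : ℤ) ∧
        ∀ s : ℕ, 17 * T ≤ 10 * s → s ≤ 6 * T →
        (((tr 3 (6 * T) T s (x : ℤ)).filter (fun z => ¬ (3 : ℤ) ∣ z)).card : ℝ) <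
          2 ^ s / 3 ^ T * Real.exp (-(η * T)))) ?_
    · exact_mod_cast this
    · intro x hx
      rw [hBd, Finset.mem_filter, hC, Finset.mem_filter] at hx
      obtain ⟨⟨hx1, hx2⟩, hx3⟩ := hx
      rw [Finset.mem_filter]
      have hr' := Finset.mem_Ico.1 hr
      refine ⟨hx1, by omega, ?_⟩
      intro s hs1 hs2
      by_contra hlt
      exact hx3 ⟨s, hs1, hs2, not_lt.1 hlt⟩
  have hterm : ∀ x ∈ C, A * T - (if ¬ ∃ s, Good η T (x : ℤ) s then (A + 6) * T else 0) ≤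
      Real.log ((KK η T (x : ℤ)).card) - σ * Real.log (2 ^ (SS η T (x : ℤ)) / (3 : ℝ) ^ T) := by
    intro x _
    by_cases h : ∃ s, Good η T (x : ℤ) s
    · rw [if_neg (not_not.2 h)]
      have := term_good (η := η) hσ1 h
      have e : ((1 - σ) * c2 - η) * T = A * T := by rw [hA, hη]; ring
      linarith
    · rw [if_pos h]
      have := term_bad (η := η) (T := T) hσ1 (x : ℤ)
      linarith
  refine lt_of_lt_of_le ?_ (Finset.sum_le_sum hterm)
  rw [Finset.sum_sub_distrib, Finset.sum_const, nsmul_eq_mul, ← Finset.sum_filter, Finset.sum_const,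
    nsmul_eq_mul, hCc]
  have hTpos : (0 : ℝ) < T := by
    have : 0 < T := by omega
    exact_mod_cast this
  have h1 : (Bd.card : ℝ) * ((A + 6) * T) ≤ A / (2 * (A + 6)) * 3 ^ T * ((A + 6) * T) := by
    apply mul_le_mul_of_nonneg_right hBdc (by positivity)
  have h2 : A / (2 * (A + 6)) * 3 ^ T * ((A + 6) * T) = 3 ^ T * (A * T) / 2 := by
    field_simp
  have h3 : 0 < 3 ^ T * (A * T) := by positivity
  have h4 : (Bd.card : ℝ) * ((A + 6) * T) = ((C.filter (fun x : ℕ => ¬ ∃ s, Good η T (x : ℤ) s)).card : ℝ) * ((A + 6) * T) := rfl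
  linarith

/-- absorbing the logarithms -/
theorem absorb {σ σ' c B N : ℝ} (hB : 1 ≤ B) (hσσ : σ < σ') (hN : 0 ≤ N)
    (h : c * B ^ σ' ≤ N * (1 + Real.log B) ^ 2) :
    c / (1 + 1 / ((σ' - σ) / 2)) ^ 2 * B ^ σ ≤ N := by
  set ε := (σ' - σ) / 2 with hε
  have hε0 : 0 < ε := by rw [hε]; linarith
  have hB0 : 0 < B := by linarith
  have h1 : Real.log B ≤ B ^ ε / ε := Real.log_le_rpow_div hB0.le hε0
  have h2 : 1 ≤ B ^ ε := Real.one_le_rpow hB hε0.le
  have h3 : 1 + Real.log B ≤ (1 + 1 / ε) * B ^ ε := by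
    have : (1 + 1 / ε) * B ^ ε = B ^ ε + B ^ ε / ε := by ring
    linarith
  have h0 : 0 ≤ 1 + Real.log B := by
    have := Real.log_nonneg hB
    linarith
  have h4 : (1 + Real.log B) ^ 2 ≤ (1 + 1 / ε) ^ 2 * (B ^ ε) ^ 2 := by
    rw [← mul_pow]
    exact pow_le_pow_left₀ h0 h3 2
  have h5 : B ^ σ' = B ^ σ * (B ^ ε) ^ 2 := by
    rw [← Real.rpow_natCast (B ^ ε) 2, ← Real.rpow_mul hB0.le, ← Real.rpow_add hB0]
    congr 1
    rw [hε]; push_cast; ring
  have hP : 0 < (1 + 1 / ε) ^ 2 := by positivity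
  have hQ : 0 < (B ^ ε) ^ 2 := by positivity
  have h6 : c * B ^ σ' ≤ N * ((1 + 1 / ε) ^ 2 * (B ^ ε) ^ 2) :=
    h.trans (mul_le_mul_of_nonneg_left h4 hN)
  rw [h5] at h6
  have h7 : (c * B ^ σ) * (B ^ ε) ^ 2 ≤ (N * (1 + 1 / ε) ^ 2) * (B ^ ε) ^ 2 := by
    calc (c * B ^ σ) * (B ^ ε) ^ 2 = c * (B ^ σ * (B ^ ε) ^ 2) := by ring
      _ ≤ N * ((1 + 1 / ε) ^ 2 * (B ^ ε) ^ 2) := h6
      _ = _ := by ring
  have h8 := le_of_mul_le_mul_right h7 hQ
  rw [div_mul_eq_mul_div, div_le_iff₀ hP]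
  exact h8

/-- the main counting theorem -/
theorem main_count_of (typ : TypicalStmt) (pos : PositiveStmt) : MainCountStmt := by
  intro σ hσ hσ1 a ha
  set σ' : ℝ := (1 + σ) / 2 with hσ'
  have hs1 : σ' < 1 := by rw [hσ']; linarith
  have hs2 : σ < σ' := by rw [hσ']; linarith
  have hc := c2_gt
  set η : ℝ := (1 - σ') * c2 / 4 with hη
  have hη4 : η ≤ c2 / 4 := by
    rw [hη]
    have : 0 ≤ σ' * c2 := by
      apply mul_nonneg <;> linarith
    linarith
  obtain ⟨T, hT, hpos⟩ := ker_hpos typ σ' η hs1 hη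
  obtain ⟨c, B₀, hc0, hB₀, hcount⟩ := count_of_positive (ker η T hη4 hT) Nat.prime_three σ'
    (by linarith)
    (by
      intro x _
      have h := two_pow_gt (by omega) (SS_ge η T x)
      change ((3 : ℕ) : ℝ) ^ T < 2 ^ (SS η T x)
      exact_mod_cast h)
    (by
      intro x b _ hb
      change |((3 : ℕ) : ℤ) ^ T * b - 2 ^ (SS η T x) * x| ≤ 2 ^ (6 * T) * ((3 : ℕ) : ℤ) ^ T
      have hb' : b ∈ tr 3 (6 * T) T (SS η T x) x := (Finset.mem_filter.1 hb).1
      have a1 := tr_off_nonneg (by norm_num) hb'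
      have a2 := tr_off_le (by norm_num) hb'
      have h2 : (2 : ℤ) ^ (SS η T x) * ((3 : ℕ) : ℤ) ^ T ≤ 2 ^ (6 * T) * ((3 : ℕ) : ℤ) ^ T := by
        apply mul_le_mul_of_nonneg_right _ (by positivity)
        exact pow_le_pow_right₀ (by norm_num) (SS_le η T x)
      rw [abs_le]
      constructor <;> linarith)
    (by
      intro r hr
      exact hpos r hr)
    (pos (ker η T hη4 hT) Nat.prime_three (by norm_num) (by omega)) a (by exact_mod_cast ha)
  refine ⟨c / (1 + 1 / ((σ' - σ) / 2)) ^ 2, B₀, ?_, hB₀, ?_⟩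
  · have : 0 < (σ' - σ) / 2 := by linarith
    positivity
  · intro B hB
    obtain ⟨F, hF1, hF2⟩ := hcount B hB
    refine ⟨F, ?_, absorb (hB₀.trans hB) hs2 (by positivity) hF2⟩
    intro z hz
    obtain ⟨h1, j, s, h2⟩ := hF1 z hz
    exact ⟨h1, 6 * T, T * j, s, path_tr h2⟩

/-! ### trees and iteration -/

/-- the accelerated `3x+1` map on `ℤ` -/
def fT : ℤ → ℤ := fun m : ℤ => if m % 2 = 0 then m / 2 else (3 * m + 1) / 2

/-- the Collatz map on `ℕ` -/
def fC : ℕ → ℕ := fun m : ℕ => if m % 2 = 0 then m / 2 else 3 * m + 1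

theorem fT_halves (m : ℕ) (x : ℤ) : fT^[m] (2 ^ m * x) = x := by
  induction m with
  | zero => simp
  | succ m ih =>
    rw [Function.iterate_succ_apply]
    have : fT (2 ^ (m + 1) * x) = 2 ^ m * x := by
      have e : (2 : ℤ) ^ (m + 1) * x = 2 * (2 ^ m * x) := by ring
      unfold fT
      rw [e, if_pos (by omega)]
      omega
    rw [this, ih]

theorem fC_halves (m : ℕ) (x : ℕ) : fC^[m] (2 ^ m * x) = x := by
  induction m with
  | zero => simp
  | succ m ih =>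
    rw [Function.iterate_succ_apply]
    have : fC (2 ^ (m + 1) * x) = 2 ^ m * x := by
      have e : 2 ^ (m + 1) * x = 2 * (2 ^ m * x) := by ring
      unfold fC
      rw [e, if_pos (by omega)]
      omega
    rw [this, ih]

theorem tr_reach_T {E n s : ℕ} {x z : ℤ} (hz : z ∈ tr 3 E n s x) : ∃ k, fT^[k] z = x := by
  induction n generalizing s x with
  | zero =>
    rw [mem_tr_zero] at hz
    exact ⟨0, by simpa using hz.2⟩
  | succ n ih =>
    obtain ⟨e, b, he, _, _, hb, hz'⟩ := (mem_tr_succ (by norm_num)).1 hz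
    obtain ⟨k, hk⟩ := ih hz'
    obtain ⟨e', rfl⟩ : ∃ e', e = e' + 1 := ⟨e - 1, by omega⟩
    refine ⟨e' + (1 + k), ?_⟩
    rw [Function.iterate_add_apply, Function.iterate_add_apply, hk, Function.iterate_one]
    have h1 : (2 : ℤ) ^ (e' + 1) * x = 2 * (2 ^ e' * x) := by ring
    push_cast at hb
    rw [h1] at hb
    have h2 : fT b = 2 ^ e' * x := by
      unfold fT
      rw [if_neg (by omega)]
      omega
    rw [h2, fT_halves]

theorem tr_reach_C {E n s : ℕ} {x : ℕ} {z : ℤ} (hx : 1 ≤ x) (hz : z ∈ tr 3 E n s (x : ℤ)) :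
    1 ≤ z ∧ ∃ k, fC^[k] z.toNat = x := by
  induction n generalizing s x with
  | zero =>
    rw [mem_tr_zero] at hz
    obtain ⟨_, rfl⟩ := hz
    exact ⟨by exact_mod_cast hx, 0, by simp⟩
  | succ n ih =>
    obtain ⟨e, b, he, _, _, hb, hz'⟩ := (mem_tr_succ (by norm_num)).1 hz
    obtain ⟨e', rfl⟩ : ∃ e', e = e' + 1 := ⟨e - 1, by omega⟩
    have h1 : (2 : ℤ) ^ (e' + 1) * x = 2 * (2 ^ e' * x) := by ring
    push_cast at hb
    have hpos : (1 : ℤ) ≤ 2 ^ e' * (x : ℤ) := by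
      have h3 : (1 : ℤ) ≤ 2 ^ e' := one_le_pow₀ (by norm_num)
      have h4 : (1 : ℤ) ≤ (x : ℤ) := by exact_mod_cast hx
      nlinarith
    have hb1 : 1 ≤ b := by
      rw [h1] at hb; omega
    obtain ⟨b', rfl⟩ : ∃ b' : ℕ, b = (b' : ℤ) := ⟨b.toNat, by omega⟩
    obtain ⟨hz1, k, hk⟩ := ih (by exact_mod_cast hb1) hz'
    refine ⟨hz1, (e' + 1) + (1 + k), ?_⟩
    rw [Function.iterate_add_apply, Function.iterate_add_apply fC 1 k, hk, Function.iterate_one]
    have hb' : 3 * b' + 1 = 2 ^ (e' + 1) * x := by exact_mod_cast hb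
    have h2 : fC b' = 2 ^ (e' + 1) * x := by
      unfold fC
      have h5 : 2 ^ (e' + 1) * x = 2 * (2 ^ e' * x) := by ring
      rw [h5] at hb' ⊢
      rw [if_neg (by omega)]
      omega
    rw [h2, fC_halves]

/-! ### frozen statements -/

theorem S16129_of (mc : MainCountStmt) :
    ∀ a : ℤ, a % 3 ≠ 0 →
      Filter.Tendsto
        (fun x : ℕ =>
          Real.log
              (({n : ℤ | |n| ≤ (x : ℤ) ∧
                  ∃ k : ℕ,
                    (fun m : ℤ => if m % 2 = 0 then m / 2 else (3 * m + 1) / 2)^[k] n = a}.ncard : ℕ) : ℝ) /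
            Real.log (x : ℝ))
        Filter.atTop (nhds 1) := by
  intro a ha
  have ha' : ¬ (3 : ℤ) ∣ a := by omega
  change Filter.Tendsto (fun x : ℕ => Real.log (({n : ℤ | |n| ≤ (x : ℤ) ∧
    ∃ k : ℕ, fT^[k] n = a}.ncard : ℕ) : ℝ) / Real.log (x : ℝ)) Filter.atTop (nhds 1)
  have hfin : ∀ x : ℕ, {n : ℤ | |n| ≤ (x : ℤ) ∧ ∃ k : ℕ, fT^[k] n = a}.Finite := by
    intro x
    apply (Set.finite_Icc (-(x : ℤ)) x).subset
    rintro n ⟨hn, _⟩
    exact abs_le.1 hn
  have hlog : Filter.Tendsto (fun x : ℕ => Real.log (x : ℝ)) Filter.atTop Filter.atTop :=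
    Real.tendsto_log_atTop.comp tendsto_natCast_atTop_atTop
  have hsmall : ∀ (C ε : ℝ), 0 < ε → ∀ᶠ x : ℕ in Filter.atTop, C < ε * Real.log (x : ℝ) := by
    intro C ε hε
    filter_upwards [hlog.eventually_gt_atTop (C / ε)] with x hx
    rwa [div_lt_iff₀ hε, mul_comm] at hx
  rw [tendsto_order]
  constructor
  · intro a' ha1
    set σ : ℝ := max (1 / 2) ((1 + a') / 2) with hσ
    have hσ0 : 0 < σ := lt_of_lt_of_le (by norm_num) (le_max_left _ _)
    have hσ1 : σ < 1 := max_lt (by norm_num) (by linarith)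
    have hσa : a' < σ := lt_of_lt_of_le (by linarith) (le_max_right _ _)
    obtain ⟨c, B₀, hc, hB₀, H⟩ := mc σ hσ0 hσ1 a ha'
    filter_upwards [hsmall (-Real.log c) (σ - a') (by linarith), hlog.eventually_gt_atTop 0,
      tendsto_natCast_atTop_atTop.eventually_ge_atTop B₀] with x hx hx0 hx1
    have hx1' : (1 : ℝ) ≤ x := hB₀.trans hx1
    obtain ⟨F, hF1, hF2⟩ := H x hx1
    have hsub : (F : Set ℤ) ⊆ {n : ℤ | |n| ≤ (x : ℤ) ∧ ∃ k : ℕ, fT^[k] n = a} := by
      intro z hz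
      obtain ⟨h1, E, n, s, h2⟩ := hF1 z hz
      exact ⟨by exact_mod_cast h1, tr_reach_T h2⟩
    have hcard := Set.ncard_le_ncard hsub (hfin x)
    rw [Set.ncard_coe_finset] at hcard
    have hcard' : c * (x : ℝ) ^ σ ≤
        (({n : ℤ | |n| ≤ (x : ℤ) ∧ ∃ k : ℕ, fT^[k] n = a}.ncard : ℕ) : ℝ) :=
      hF2.trans (by exact_mod_cast hcard)
    have hx00 : (0 : ℝ) < x := by linarith
    have hl := Real.log_le_log (by positivity) hcard'
    rw [Real.log_mul (by positivity) (by positivity), Real.log_rpow hx00] at hl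
    rw [lt_div_iff₀ hx0]
    linarith
  · intro a' ha1
    filter_upwards [hsmall (Real.log 3) (a' - 1) (by linarith), hlog.eventually_gt_atTop 0,
      Filter.eventually_ge_atTop 1] with x hx hx0 hx1
    have hx1' : (1 : ℝ) ≤ x := by exact_mod_cast hx1
    have hsub : {n : ℤ | |n| ≤ (x : ℤ) ∧ ∃ k : ℕ, fT^[k] n = a} ⊆
        ((Finset.Icc (-(x : ℤ)) x : Finset ℤ) : Set ℤ) := by
      rintro n ⟨hn, _⟩
      rw [Finset.coe_Icc]
      exact abs_le.1 hn
    have hcard := Set.ncard_le_ncard hsub (Finset.finite_toSet _)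
    rw [Set.ncard_coe_finset, Int.card_Icc] at hcard
    have hcard' : (({n : ℤ | |n| ≤ (x : ℤ) ∧ ∃ k : ℕ, fT^[k] n = a}.ncard : ℕ) : ℝ) ≤ 3 * x := by
      have : {n : ℤ | |n| ≤ (x : ℤ) ∧ ∃ k : ℕ, fT^[k] n = a}.ncard ≤ 3 * x := by omega
      exact_mod_cast this
    have hl : Real.log (({n : ℤ | |n| ≤ (x : ℤ) ∧ ∃ k : ℕ, fT^[k] n = a}.ncard : ℕ) : ℝ) ≤
        Real.log 3 + Real.log x := by
      rw [← Real.log_mul (by norm_num) (by linarith)]
      rcases Nat.eq_zero_or_pos ({n : ℤ | |n| ≤ (x : ℤ) ∧ ∃ k : ℕ, fT^[k] n = a}.ncard) with h0 | h0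
      · rw [h0]
        simp only [Nat.cast_zero, Real.log_zero]
        apply Real.log_nonneg
        linarith
      · exact Real.log_le_log (by exact_mod_cast h0) hcard'
    rw [div_lt_iff₀ hx0]
    linarith

theorem S18793_of (mc : MainCountStmt) :
    ∀ ε : ℝ, 0 < ε → ∃ c : ℝ, 0 < c ∧ ∃ x₀ : ℝ, ∀ x : ℝ, x₀ ≤ x →
      c * x ^ (1 - ε) <
        (Nat.card {n : ℕ // 1 ≤ n ∧ (n : ℝ) < x ∧
          ∃ k : ℕ, (fun m : ℕ => if m % 2 = 0 then m / 2 else 3 * m + 1)^[k] n = 1} : ℝ) := by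
  intro ε hε
  set σ : ℝ := max (1 / 2) (1 - ε) with hσ
  have hσ0 : 0 < σ := lt_of_lt_of_le (by norm_num) (le_max_left _ _)
  have hσ1 : σ < 1 := max_lt (by norm_num) (by linarith)
  have hσa : 1 - ε ≤ σ := le_max_right _ _
  obtain ⟨c, B₀, hc, hB₀, H⟩ := mc σ hσ0 hσ1 1 (by norm_num)
  refine ⟨c / 2 * (1 / 2) ^ σ, by positivity, 2 * B₀, ?_⟩
  intro x hx
  change _ < (Nat.card {n : ℕ // 1 ≤ n ∧ (n : ℝ) < x ∧ ∃ k : ℕ, fC^[k] n = 1} : ℝ)
  obtain ⟨F, hF1, hF2⟩ := H (x / 2) (by linarith)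
  have hx0 : 0 < x := by linarith
  have hfin : {n : ℕ | 1 ≤ n ∧ (n : ℝ) < x ∧ ∃ k : ℕ, fC^[k] n = 1}.Finite := by
    apply (Set.finite_Iio ⌈x⌉₊).subset
    rintro n ⟨_, hn, _⟩
    exact Nat.lt_ceil.2 hn
  have hcard : F.card ≤ Nat.card {n : ℕ // 1 ≤ n ∧ (n : ℝ) < x ∧ ∃ k : ℕ, fC^[k] n = 1} := by
    change F.card ≤ Nat.card {n : ℕ | 1 ≤ n ∧ (n : ℝ) < x ∧ ∃ k : ℕ, fC^[k] n = 1}
    rw [Nat.card_coe_set_eq]
    have hpos : ∀ z ∈ F, 1 ≤ z ∧ ∃ k, fC^[k] z.toNat = 1 := by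
      intro z hz
      obtain ⟨_, E, n, s, h2⟩ := hF1 z hz
      exact tr_reach_C (x := 1) le_rfl (by exact_mod_cast h2)
    have himg : (F.image Int.toNat).card = F.card := by
      apply Finset.card_image_of_injOn
      intro z hz w hw h
      have h1 := (hpos z hz).1
      have h2 := (hpos w hw).1
      have h3 : z.toNat = w.toNat := h
      omega
    rw [← himg, ← Set.ncard_coe_finset]
    apply Set.ncard_le_ncard _ hfin
    intro n hn
    rw [Finset.mem_coe, Finset.mem_image] at hn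
    obtain ⟨z, hz, rfl⟩ := hn
    obtain ⟨h1, h2⟩ := hpos z hz
    have h3 := (hF1 z hz).1
    refine ⟨by omega, ?_, h2⟩
    have h4 : ((z.toNat : ℕ) : ℝ) = (z : ℝ) := by
      have : ((z.toNat : ℕ) : ℤ) = z := Int.toNat_of_nonneg (by omega)
      exact_mod_cast this
    rw [h4]
    have h5 : (z : ℝ) ≤ |(z : ℝ)| := le_abs_self _
    linarith
  have hF3 : (0 : ℝ) < c * (x / 2) ^ σ := by positivity
  have hcard' : (F.card : ℝ) ≤
      (Nat.card {n : ℕ // 1 ≤ n ∧ (n : ℝ) < x ∧ ∃ k : ℕ, fC^[k] n = 1} : ℝ) := by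
    exact_mod_cast hcard
  have h1 : x ^ (1 - ε) ≤ x ^ σ := Real.rpow_le_rpow_of_exponent_le (by linarith) hσa
  have h2 : (x / 2) ^ σ = (1 / 2) ^ σ * x ^ σ := by
    rw [← Real.mul_rpow (by norm_num) hx0.le]; congr 1; ring
  calc c / 2 * (1 / 2) ^ σ * x ^ (1 - ε) ≤ c / 2 * (1 / 2) ^ σ * x ^ σ :=
        mul_le_mul_of_nonneg_left h1 (by positivity)
    _ = c * (x / 2) ^ σ / 2 := by rw [h2]; ring
    _ < c * (x / 2) ^ σ := by linarith
    _ ≤ F.card := hF2
    _ ≤ _ := hcard'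

end Pool.Agent.H412R2
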