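import Pool.Agent.H33.G.R_seed8.H412R2.Tree

/-! Task 2 (OPER): facts on the transfer operator `Lw`. -/

set_option autoImplicit false

namespace Pool.Agent.H412R2

/-! ### sums of periodic functions -/

theorem sum_range_zmod (N : ℕ) [NeZero N] (H : ZMod N → ℝ) :
    ∑ y ∈ Finset.range N, H ((y : ℕ) : ZMod N) = ∑ v : ZMod N, H v := by
  refine Finset.sum_nbij' (fun y => (y : ZMod N)) (fun v => v.val) ?_ ?_ ?_ ?_ ?_
  · intro y _; exact Finset.mem_univ _
  · intro v _; exact Finset.mem_range.2 (ZMod.val_lt v)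
  · intro y hy; exact ZMod.val_natCast_of_lt (Finset.mem_range.1 hy)
  · intro v _; exact ZMod.natCast_zmod_val v
  · intro y _; rfl

theorem sum_periodic_affine {N : ℕ} (hN : 0 < N) {F : ℤ → ℝ}
    (hF : ∀ x y : ℤ, F (x + (N : ℤ) * y) = F x) {c : ℤ} (hc : IsCoprime c (N : ℤ)) (d : ℤ) :
    ∑ y ∈ Finset.range N, F (c * (y : ℤ) + d) = ∑ y ∈ Finset.range N, F (y : ℤ) := by
  have : NeZero N := ⟨hN.ne'⟩
  set G : ZMod N → ℝ := fun v => F (v.val : ℤ) with hGdef
  have hG : ∀ a : ℤ, F a = G (a : ZMod N) := by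
    intro a
    rw [hGdef]
    simp only [ZMod.val_intCast]
    have h1 : a = a % N + N * (a / N) := (Int.emod_add_mul_ediv a N).symm
    conv_lhs => rw [h1]
    exact hF _ _
  have hunit : IsUnit ((c : ℤ) : ZMod N) := by
    obtain ⟨a, b, hab⟩ := hc
    have h1 : ((a : ℤ) : ZMod N) * (c : ZMod N) = 1 := by
      have h2 : ((a * c + b * (N : ℤ) : ℤ) : ZMod N) = ((1 : ℤ) : ZMod N) := by rw [hab]
      push_cast at h2
      rw [ZMod.natCast_self, mul_zero, add_zero] at h2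
      exact h2
    exact IsUnit.of_mul_eq_one (M := ZMod N) _ (by rw [mul_comm]; exact h1)
  have e1 : ∑ y ∈ Finset.range N, F (c * (y : ℤ) + d) =
      ∑ y ∈ Finset.range N, (fun v : ZMod N => G ((c : ZMod N) * v + (d : ZMod N))) ((y : ℕ) : ZMod N) := by
    apply Finset.sum_congr rfl
    intro y _
    rw [hG]
    push_cast
    rfl
  have e2 : ∑ y ∈ Finset.range N, F (y : ℤ) = ∑ y ∈ Finset.range N, G ((y : ℕ) : ZMod N) := by
    apply Finset.sum_congr rfl
    intro y _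
    rw [hG]
    push_cast
    rfl
  rw [e1, e2, sum_range_zmod N G,
    sum_range_zmod N (fun v : ZMod N => G ((c : ZMod N) * v + (d : ZMod N)))]
  obtain ⟨u, hu⟩ := hunit
  have hbij : Function.Bijective (fun v : ZMod N => (c : ZMod N) * v + (d : ZMod N)) := by
    rw [← hu]
    exact ((Units.mulLeft u).trans (Equiv.addRight (d : ZMod N))).bijective
  exact hbij.sum_comp G

theorem isCoprime_two_pow_three_pow (e m : ℕ) : IsCoprime ((2 : ℤ) ^ e) (((3 ^ m : ℕ)) : ℤ) := by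
  have : IsCoprime (2 : ℤ) 3 := by
    rw [Int.isCoprime_iff_gcd_eq_one]; decide
  push_cast
  exact this.pow

theorem sum_range_three_mul (M : ℕ) (φ : ℤ → ℝ) :
    ∑ x ∈ Finset.range (3 * M), φ (x : ℤ) =
      ∑ y ∈ Finset.range M, (φ (3 * (y : ℤ)) + φ (3 * (y : ℤ) + 1) + φ (3 * (y : ℤ) + 2)) := by
  induction M with
  | zero => simp
  | succ M ih =>
    have h3 : 3 * (M + 1) = 3 * M + 1 + 1 + 1 := by ring
    rw [h3, Finset.sum_range_succ, Finset.sum_range_succ, Finset.sum_range_succ, ih,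
      Finset.sum_range_succ]
    push_cast
    ring_nf

/-! ### the operator -/

theorem dvd_shift (e : ℕ) (x y : ℤ) : (3 : ℤ) ∣ 2 ^ e * (x + 3 * y) - 1 ↔ (3 : ℤ) ∣ 2 ^ e * x - 1 := by
  have h : (2 : ℤ) ^ e * (x + 3 * y) - 1 = (2 ^ e * x - 1) + 3 * (2 ^ e * y) := by ring
  rw [h]
  exact Int.dvd_add_self_mul.trans Iff.rfl

theorem div_shift (e : ℕ) (x y : ℤ) :
    (2 ^ e * (x + 3 * y) - 1) / 3 = (2 ^ e * x - 1) / 3 + 2 ^ e * y := by
  have h : (2 : ℤ) ^ e * (x + 3 * y) - 1 = (2 ^ e * x - 1) + 3 * (2 ^ e * y) := by ring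
  rw [h, Int.add_mul_ediv_left _ _ (by norm_num)]

theorem Lw_shift (E : ℕ) (u : ℕ → ℝ) (h : ℤ → ℝ) (x y : ℤ) :
    Lw E u h (x + 3 * y) = ∑ e ∈ Finset.Icc 1 E, if (3 : ℤ) ∣ 2 ^ e * x - 1 then
      3 * u e * h ((2 ^ e * x - 1) / 3 + 2 ^ e * y) else 0 := by
  unfold Lw
  apply Finset.sum_congr rfl
  intro e _
  simp only [dvd_shift, div_shift]

theorem Lw_periodic_one {E : ℕ} {u : ℕ → ℝ} {g : ℤ → ℝ} {k : ℕ}
    (hper : ∀ x y : ℤ, g (x + 3 ^ k * y) = g x) (x y : ℤ) :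
    Lw E u g (x + 3 ^ (k + 1) * y) = Lw E u g x := by
  have h1 : x + 3 ^ (k + 1) * y = x + 3 * (3 ^ k * y) := by ring
  rw [h1, Lw_shift]
  unfold Lw
  apply Finset.sum_congr rfl
  intro e _
  have h2 : (2 ^ e * x - 1) / 3 + 2 ^ e * (3 ^ k * y) = (2 ^ e * x - 1) / 3 + 3 ^ k * (2 ^ e * y) := by
    ring
  rw [h2, hper]

theorem Lw_periodic {E : ℕ} {u : ℕ → ℝ} {h : ℤ → ℝ} {m : ℕ}
    (hper : ∀ x y : ℤ, h (x + 3 ^ m * y) = h x) (t : ℕ) (x y : ℤ) :
    (Lw E u)^[t] h (x + 3 ^ (t + m) * y) = (Lw E u)^[t] h x := by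
  induction t generalizing x y with
  | zero => simpa using hper x y
  | succ t ih =>
    rw [Function.iterate_succ_apply']
    have h1 : t + 1 + m = (t + m) + 1 := by ring
    rw [h1]
    exact Lw_periodic_one ih x y

theorem Lw_iter_sum {E : ℕ} {u : ℕ → ℝ} {h : ℤ → ℝ} {m : ℕ}
    (hper : ∀ x y : ℤ, h (x + 3 ^ m * y) = h x) (t : ℕ) (x : ℤ) :
    ∑ y ∈ Finset.range (3 ^ m), (Lw E u)^[t] h (x + 3 ^ t * (y : ℤ)) =
      ((Lw E u)^[t] (fun _ => 1) x) * ∑ y ∈ Finset.range (3 ^ m), h (y : ℤ) := by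
  have hN : 0 < 3 ^ m := by positivity
  induction t generalizing x with
  | zero =>
    have h1 := sum_periodic_affine hN (F := h) (by intro a b; push_cast; exact hper a b)
      (c := 1) isCoprime_one_left x
    simp only [Function.iterate_zero, id_eq, pow_zero, one_mul]
    rw [← h1]
    apply Finset.sum_congr rfl
    intro y _
    rw [one_mul, add_comm]
  | succ t ih =>
    simp only [Function.iterate_succ_apply']
    have h1 : ∀ y : ℕ, Lw E u ((Lw E u)^[t] h) (x + 3 ^ (t + 1) * (y : ℤ)) =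
        ∑ e ∈ Finset.Icc 1 E, if (3 : ℤ) ∣ 2 ^ e * x - 1 then
          3 * u e * (Lw E u)^[t] h ((2 ^ e * x - 1) / 3 + 3 ^ t * (2 ^ e * (y : ℤ))) else 0 := by
      intro y
      have h2 : x + 3 ^ (t + 1) * (y : ℤ) = x + 3 * (3 ^ t * (y : ℤ)) := by ring
      rw [h2, Lw_shift]
      apply Finset.sum_congr rfl
      intro e _
      have h3 : (2 ^ e * x - 1) / 3 + 2 ^ e * (3 ^ t * (y : ℤ)) =
        (2 ^ e * x - 1) / 3 + 3 ^ t * (2 ^ e * (y : ℤ)) := by ring
      rw [h3]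
    simp only [h1]
    rw [Finset.sum_comm]
    have h2 : Lw E u ((Lw E u)^[t] fun _ => 1) x = ∑ e ∈ Finset.Icc 1 E,
      if (3 : ℤ) ∣ 2 ^ e * x - 1 then 3 * u e * (Lw E u)^[t] (fun _ => 1) ((2 ^ e * x - 1) / 3) else 0 := rfl
    rw [h2, Finset.sum_mul]
    apply Finset.sum_congr rfl
    intro e _
    split_ifs with hd
    · rw [← Finset.mul_sum]
      have h3 := sum_periodic_affine hN
        (F := fun v => (Lw E u)^[t] h ((2 ^ e * x - 1) / 3 + 3 ^ t * v))
        (by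
          intro a b
          have h4 := Lw_periodic (E := E) (u := u) hper t ((2 ^ e * x - 1) / 3 + 3 ^ t * a) b
          have h5 : (2 ^ e * x - 1) / 3 + 3 ^ t * (a + ((3 ^ m : ℕ) : ℤ) * b) =
            (2 ^ e * x - 1) / 3 + 3 ^ t * a + 3 ^ (t + m) * b := by
            push_cast; ring
          show (Lw E u)^[t] h ((2 ^ e * x - 1) / 3 + 3 ^ t * (a + ((3 ^ m : ℕ) : ℤ) * b)) =
            (Lw E u)^[t] h ((2 ^ e * x - 1) / 3 + 3 ^ t * a)
          rw [h5, h4])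
        (isCoprime_two_pow_three_pow e m) 0
      simp only [add_zero] at h3
      rw [h3, ih]
      ring
    · simp

theorem Lw_sum_step {E : ℕ} {u : ℕ → ℝ} {g : ℤ → ℝ} {k : ℕ}
    (hper : ∀ x y : ℤ, g (x + 3 ^ k * y) = g x) :
    ∑ x ∈ Finset.range (3 ^ (k + 1)), Lw E u g (x : ℤ) =
      (3 * ∑ e ∈ Finset.Icc 1 E, u e) * ∑ y ∈ Finset.range (3 ^ k), g (y : ℤ) := by
  have hN : 0 < 3 ^ k := by positivity
  have hR : (3 * ∑ e ∈ Finset.Icc 1 E, u e) * ∑ y ∈ Finset.range (3 ^ k), g (y : ℤ) =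
      ∑ e ∈ Finset.Icc 1 E, 3 * u e * ∑ y ∈ Finset.range (3 ^ k), g (y : ℤ) := by
    rw [← Finset.sum_mul, Finset.mul_sum (Finset.Icc 1 E)]
  rw [hR]
  unfold Lw
  rw [Finset.sum_comm]
  apply Finset.sum_congr rfl
  intro e _
  have h3 : 3 ^ (k + 1) = 3 * 3 ^ k := by ring
  rw [h3, sum_range_three_mul (3 ^ k) (fun x : ℤ => if (3 : ℤ) ∣ 2 ^ e * x - 1 then
    3 * u e * g ((2 ^ e * x - 1) / 3) else 0)]
  have hsh : ∀ (r : ℤ) (y : ℕ), (if (3 : ℤ) ∣ 2 ^ e * (3 * (y : ℤ) + r) - 1 then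
      3 * u e * g ((2 ^ e * (3 * (y : ℤ) + r) - 1) / 3) else 0) =
      if (3 : ℤ) ∣ 2 ^ e * r - 1 then 3 * u e * g (2 ^ e * (y : ℤ) + (2 ^ e * r - 1) / 3) else 0 := by
    intro r y
    have h1 : 3 * (y : ℤ) + r = r + 3 * y := by ring
    rw [h1]
    simp only [dvd_shift, div_shift]
    rw [add_comm ((2 ^ e * r - 1) / 3)]
  have hsh0 : ∀ (y : ℕ), (if (3 : ℤ) ∣ 2 ^ e * (3 * (y : ℤ)) - 1 then
      3 * u e * g ((2 ^ e * (3 * (y : ℤ)) - 1) / 3) else 0) = 0 := by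
    intro y
    rw [if_neg]
    have h1 : (2 : ℤ) ^ e * (3 * (y : ℤ)) - 1 = 3 * (2 ^ e * y) - 1 := by ring
    rw [h1]
    omega
  simp only [hsh, hsh0, zero_add]
  rw [Finset.sum_add_distrib]
  have hper' : ∀ x y : ℤ, g (x + ((3 ^ k : ℕ) : ℤ) * y) = g x := by
    intro x y; push_cast; exact hper x y
  have hp := pow_two_mod_three e
  by_cases he : e % 2 = 0
  · rw [if_pos he] at hp
    have d1 : (3 : ℤ) ∣ 2 ^ e * 1 - 1 := by omega
    have d2 : ¬ (3 : ℤ) ∣ 2 ^ e * 2 - 1 := by omega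
    simp only [if_pos d1, if_neg d2, Finset.sum_const_zero, add_zero]
    rw [← Finset.mul_sum, sum_periodic_affine hN hper' (isCoprime_two_pow_three_pow e k)]
  · rw [if_neg he] at hp
    have d1 : ¬ (3 : ℤ) ∣ 2 ^ e * 1 - 1 := by omega
    have d2 : (3 : ℤ) ∣ 2 ^ e * 2 - 1 := by omega
    simp only [if_neg d1, if_pos d2, Finset.sum_const_zero, zero_add]
    rw [← Finset.mul_sum, sum_periodic_affine hN hper' (isCoprime_two_pow_three_pow e k)]

theorem Lw_total {E : ℕ} {u : ℕ → ℝ} {h : ℤ → ℝ} {m : ℕ}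
    (hper : ∀ x y : ℤ, h (x + 3 ^ m * y) = h x) (t : ℕ) :
    ∑ x ∈ Finset.range (3 ^ (t + m)), (Lw E u)^[t] h (x : ℤ) =
      (3 * ∑ e ∈ Finset.Icc 1 E, u e) ^ t * ∑ y ∈ Finset.range (3 ^ m), h (y : ℤ) := by
  induction t with
  | zero => simp
  | succ t ih =>
    simp only [Function.iterate_succ_apply']
    have h1 : t + 1 + m = (t + m) + 1 := by ring
    rw [h1, Lw_sum_step (Lw_periodic hper t), ih, pow_succ]
    ring

theorem tr_empty_of_lt {q E n s : ℕ} {x : ℤ} (h : n * E < s) : tr q E n s x = ∅ := by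
  rw [Finset.eq_empty_iff_forall_notMem]
  intro z hz
  have := (tr_size_le hz).2
  omega

theorem Lw_iter_tr {E : ℕ} (c w : ℝ) (h : ℤ → ℝ) (x : ℤ) (n : ℕ) :
    (Lw E (fun e => c * w ^ e))^[n] h x =
      ∑ s ∈ Finset.range (n * E + 1), (3 * c) ^ n * w ^ s * ∑ z ∈ tr 3 E n s x, h z := by
  induction n generalizing x with
  | zero =>
    simp [tr]
  | succ n ih =>
    rw [Function.iterate_succ_apply']
    have h1 : Lw E (fun e => c * w ^ e) ((Lw E (fun e => c * w ^ e))^[n] h) x =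
      ∑ e ∈ Finset.Icc 1 E, if (3 : ℤ) ∣ 2 ^ e * x - 1 then
        3 * (c * w ^ e) * (Lw E (fun e => c * w ^ e))^[n] h ((2 ^ e * x - 1) / 3) else 0 := rfl
    rw [h1]
    -- rewrite the right-hand side
    have h2 : ∀ s ∈ Finset.range ((n + 1) * E + 1),
        (3 * c) ^ (n + 1) * w ^ s * ∑ z ∈ tr 3 E (n + 1) s x, h z =
        ∑ e ∈ Finset.Icc 1 E, if e ≤ s ∧ (3 : ℤ) ∣ 2 ^ e * x - 1 then
          (3 * c) ^ (n + 1) * w ^ s * ∑ z ∈ tr 3 E n (s - e) ((2 ^ e * x - 1) / 3), h z else 0 := by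
      intro s _
      rw [sum_tr_succ (by decide) (by norm_num), Finset.mul_sum]
      have hsub : Finset.Icc 1 (min s E) ⊆ Finset.Icc 1 E :=
        Finset.Icc_subset_Icc_right (min_le_right _ _)
      rw [← Finset.sum_subset hsub (f := fun e => if e ≤ s ∧ (3 : ℤ) ∣ 2 ^ e * x - 1 then
          (3 * c) ^ (n + 1) * w ^ s * ∑ z ∈ tr 3 E n (s - e) ((2 ^ e * x - 1) / 3), h z else 0)]
      · apply Finset.sum_congr rfl
        intro e he
        rw [Finset.mem_Icc, le_min_iff] at he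
        have hd : ((3 : ℕ) : ℤ) = 3 := rfl
        rw [hd]
        by_cases hdv : (3 : ℤ) ∣ 2 ^ e * x - 1
        · rw [if_pos hdv, if_pos ⟨he.2.1, hdv⟩]
        · rw [if_neg hdv, if_neg (by tauto), mul_zero]
      · intro e he he'
        rw [Finset.mem_Icc] at he
        rw [Finset.mem_Icc, le_min_iff] at he'
        rw [if_neg]
        rintro ⟨h3, _⟩
        exact he' ⟨he.1, h3, he.2⟩
    rw [Finset.sum_congr rfl h2, Finset.sum_comm]
    apply Finset.sum_congr rfl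
    intro e he
    rw [Finset.mem_Icc] at he
    by_cases hdv : (3 : ℤ) ∣ 2 ^ e * x - 1
    · rw [if_pos hdv, ih]
      simp only [hdv, and_true]
      rw [← Finset.sum_filter]
      have hfil : (Finset.range ((n + 1) * E + 1)).filter (fun s => e ≤ s) =
          (Finset.range ((n + 1) * E + 1 - e)).image (fun s => s + e) := by
        ext s
        simp only [Finset.mem_filter, Finset.mem_range, Finset.mem_image]
        constructor
        · rintro ⟨h3, h4⟩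
          exact ⟨s - e, by omega, by omega⟩
        · rintro ⟨s', h3, rfl⟩
          omega
      rw [hfil, Finset.sum_image (by intro a _ b _ hab; simpa using hab)]
      have hsub : Finset.range (n * E + 1) ⊆ Finset.range ((n + 1) * E + 1 - e) := by
        intro s hs
        rw [Finset.mem_range] at hs ⊢
        rw [add_mul, one_mul]
        omega
      rw [← Finset.sum_subset hsub, Finset.mul_sum]
      · apply Finset.sum_congr rfl
        intro s _
        rw [Nat.add_sub_cancel, pow_succ, pow_add]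
        ring
      · intro s _ hs
        rw [Finset.mem_range] at hs
        rw [Nat.add_sub_cancel, tr_empty_of_lt (by omega)]
        simp
    · rw [if_neg hdv]
      simp [hdv]

theorem Lw_mono {E : ℕ} {u : ℕ → ℝ} (hu : ∀ e, 0 ≤ u e) {h₁ h₂ : ℤ → ℝ}
    (hh : ∀ x, h₁ x ≤ h₂ x) (x : ℤ) : Lw E u h₁ x ≤ Lw E u h₂ x := by
  unfold Lw
  apply Finset.sum_le_sum
  intro e _
  split_ifs
  · apply mul_le_mul_of_nonneg_left (hh _)
    have := hu e
    positivity
  · exact le_refl _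

theorem Lw_iter_mono {E : ℕ} {u : ℕ → ℝ} (hu : ∀ e, 0 ≤ u e) {h₁ h₂ : ℤ → ℝ}
    (hh : ∀ x, h₁ x ≤ h₂ x) (n : ℕ) (x : ℤ) : (Lw E u)^[n] h₁ x ≤ (Lw E u)^[n] h₂ x := by
  induction n generalizing x with
  | zero => simpa using hh x
  | succ n ih =>
    rw [Function.iterate_succ_apply', Function.iterate_succ_apply']
    exact Lw_mono hu ih x

end Pool.Agent.H412R2
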