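import Pool.Agent.H33.G.R_seed8.H412R2.Defs

/-! Rigidity, part A: finite inequalities (Titu, translations on `ZMod (q^L)`, convolution). -/

set_option autoImplicit false

namespace Pool.Agent.H412R2

open Finset

theorem titu {ι : Type*} (s : Finset ι) (A w : ι → ℝ) (hw : ∀ i ∈ s, 0 ≤ w i)
    (h0 : ∀ i ∈ s, w i = 0 → A i = 0) :
    (∑ i ∈ s, A i) ^ 2 / (∑ i ∈ s, w i) ≤ ∑ i ∈ s, A i ^ 2 / w i := by
  have hcs : (∑ i ∈ s, A i) ^ 2 ≤ (∑ i ∈ s, A i ^ 2 / w i) * ∑ i ∈ s, w i := by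
    apply Finset.sum_sq_le_sum_mul_sum_of_sq_le_mul
    · intro i hi
      exact div_nonneg (sq_nonneg _) (hw i hi)
    · exact hw
    · intro i hi
      by_cases h : w i = 0
      · simp [h0 i hi h, h]
      · rw [div_mul_cancel₀ _ h]
  by_cases hW : ∑ i ∈ s, w i = 0
  · rw [hW, div_zero]
    exact Finset.sum_nonneg fun i hi => div_nonneg (sq_nonneg _) (hw i hi)
  · have hpos : 0 < ∑ i ∈ s, w i :=
      lt_of_le_of_ne (Finset.sum_nonneg hw) (Ne.symm hW)
    rw [div_le_iff₀ hpos]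
    exact hcs

theorem tele {G : Type*} [AddCommGroup G] [Fintype G] (f : G → ℝ) (w : G) (N : ℕ) :
    ∑ v, (f (v + N • w) - f v) ^ 2 ≤ (N : ℝ) ^ 2 * ∑ v, (f (v + w) - f v) ^ 2 := by
  have h1 : ∀ v, f (v + N • w) - f v =
      ∑ i ∈ Finset.range N, (f (v + (i + 1) • w) - f (v + i • w)) := by
    intro v
    rw [Finset.sum_range_sub (fun i => f (v + i • w))]
    simp
  calc ∑ v, (f (v + N • w) - f v) ^ 2
      = ∑ v, (∑ i ∈ Finset.range N, (f (v + (i + 1) • w) - f (v + i • w))) ^ 2 := by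
        refine Finset.sum_congr rfl fun v _ => ?_
        rw [h1 v]
    _ ≤ ∑ v, (N : ℝ) * ∑ i ∈ Finset.range N, (f (v + (i + 1) • w) - f (v + i • w)) ^ 2 := by
        refine Finset.sum_le_sum fun v _ => ?_
        have := @sq_sum_le_card_mul_sum_sq ℕ ℝ _ _ _ _ (Finset.range N)
          (fun i => f (v + (i + 1) • w) - f (v + i • w))
        simpa using this
    _ = (N : ℝ) * ∑ i ∈ Finset.range N, ∑ v, (f (v + (i + 1) • w) - f (v + i • w)) ^ 2 := by
        rw [← Finset.mul_sum, Finset.sum_comm]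
    _ = (N : ℝ) * ∑ i ∈ Finset.range N, ∑ v, (f (v + w) - f v) ^ 2 := by
        congr 1
        refine Finset.sum_congr rfl fun i _ => ?_
        have := Equiv.sum_comp (Equiv.addRight (i • w)) (fun v => (f (v + w) - f v) ^ 2)
        rw [← this]
        refine Finset.sum_congr rfl fun v _ => ?_
        simp only [Equiv.coe_addRight]
        rw [succ_nsmul, ← add_assoc]
    _ = (N : ℝ) ^ 2 * ∑ v, (f (v + w) - f v) ^ 2 := by
        simp; ring

/-- sum over a period of a composition with an affine permutation -/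
theorem sum_range_affine {n : ℕ} (hn : 0 < n) (F : ℤ → ℝ) (hF : ∀ x y : ℤ, F (x + n * y) = F x)
    (u t : ℤ) (hu : IsCoprime u (n : ℤ)) :
    ∑ v ∈ Finset.range n, F (u * v + t) = ∑ v ∈ Finset.range n, F v := by
  have : NeZero n := ⟨hn.ne'⟩
  have key : ∀ x : ℤ, F x = F (((x : ZMod n).val : ℕ) : ℤ) := by
    intro x
    have h : ((((x : ZMod n).val : ℕ) : ℤ) : ZMod n) = (x : ZMod n) := by
      simp
    rw [ZMod.intCast_eq_intCast_iff_dvd_sub] at h
    obtain ⟨c, hc⟩ := h
    have : x = ((((x : ZMod n).val : ℕ) : ℤ)) + n * c := by linarith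
    conv_lhs => rw [this]
    rw [hF]
  have hr : ∀ H : ℤ → ℝ, (∀ x y : ℤ, H (x + n * y) = H x) →
      ∑ v ∈ Finset.range n, H v = ∑ v : ZMod n, H ((v.val : ℕ) : ℤ) := by
    intro H _
    symm
    apply Finset.sum_bij (fun (v : ZMod n) _ => v.val)
    · intro a _
      simp [ZMod.val_lt]
    · intro a _ b _ h
      exact ZMod.val_injective n h
    · intro b hb
      refine ⟨(b : ZMod n), Finset.mem_univ _, ?_⟩
      rw [ZMod.val_natCast, Nat.mod_eq_of_lt (Finset.mem_range.mp hb)]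
    · intro a _
      rfl
  have hF' : ∀ x y : ℤ, F (u * (x + n * y) + t) = F (u * x + t) := by
    intro x y
    have : u * (x + n * y) + t = (u * x + t) + n * (u * y) := by ring
    rw [this, hF]
  rw [hr (fun v => F (u * v + t)) hF', hr F hF]
  obtain ⟨a, b, hab⟩ := hu
  have hunit : (u : ZMod n) * (a : ZMod n) = 1 := by
    have : ((a * u + b * n : ℤ) : ZMod n) = 1 := by rw [hab]; simp
    push_cast at this
    simp at this
    rw [mul_comm]; exact this
  let e : ZMod n ≃ ZMod n :=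
    { toFun := fun v => (u : ZMod n) * v + t
      invFun := fun v => (a : ZMod n) * (v - t)
      left_inv := by
        intro v
        have : (a : ZMod n) * ((u : ZMod n) * v + t - t) = ((u : ZMod n) * a) * v := by ring
        simp only [this, hunit, one_mul]
      right_inv := by
        intro v
        have : (u : ZMod n) * ((a : ZMod n) * (v - t)) + t = ((u : ZMod n) * a) * (v - t) + t := by
          ring
        simp only [this, hunit, one_mul, sub_add_cancel] }
  rw [← Equiv.sum_comp e (fun v => F ((v.val : ℕ) : ℤ))]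
  refine Finset.sum_congr rfl fun v _ => ?_
  rw [key (u * ((v.val : ℕ) : ℤ) + t)]
  congr 3
  simp [e]

theorem sharp_bound {q L : ℕ} (hq : q.Prime) (hL : 1 ≤ L) (f : ZMod (q ^ L) → ℝ)
    (hf : ∀ v, ∑ d ∈ Finset.range q, f (v + (q : ZMod (q ^ L)) ^ (L - 1) * (d : ZMod (q ^ L))) = 0)
    (w : ZMod (q ^ L)) (hw : w ≠ 0) [Fintype (ZMod (q ^ L))] :
    ∑ v, f v ^ 2 ≤ (q : ℝ) ^ (2 * L) * ∑ v, (f (v + w) - f v) ^ 2 := by
  have : NeZero (q ^ L) := ⟨(pow_pos hq.pos L).ne'⟩
  set Δ := ∑ v, (f (v + w) - f v) ^ 2 with hΔ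
  -- write w.val = q^i * u
  have hwv : w.val ≠ 0 := by
    intro h; apply hw; rwa [ZMod.val_eq_zero] at h
  obtain ⟨i, u, hu, hiu⟩ := Nat.exists_eq_pow_mul_and_not_dvd hwv q hq.ne_one
  have hiL : i < L := by
    have h1 : q ^ i ≤ w.val := by
      rw [hiu]
      have : 1 ≤ u := Nat.one_le_iff_ne_zero.mpr (by rintro rfl; simp at hu)
      calc q ^ i = q ^ i * 1 := by ring
        _ ≤ q ^ i * u := Nat.mul_le_mul_left _ this
    have h2 : w.val < q ^ L := ZMod.val_lt w
    exact (Nat.pow_lt_pow_iff_right hq.one_lt).mp (lt_of_le_of_lt h1 h2)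
  set k := q ^ (L - 1 - i) with hk
  have hkw : (k • w : ZMod (q ^ L)) = (q : ZMod (q ^ L)) ^ (L - 1) * (u : ZMod (q ^ L)) := by
    have hw' : w = ((q ^ i * u : ℕ) : ZMod (q ^ L)) := by
      rw [← hiu]; simp
    rw [hw', nsmul_eq_mul, hk]
    push_cast
    rw [← mul_assoc, ← pow_add]
    congr 2
    omega
  have hk1 : k ≤ q ^ (L - 1) := Nat.pow_le_pow_right hq.pos (by omega)
  have hqL : (q : ZMod (q ^ L)) ^ (L - 1) * (q : ZMod (q ^ L)) = 0 := by
    rw [← pow_succ]
    have : L - 1 + 1 = L := by omega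
    rw [this]
    have := ZMod.natCast_self (q ^ L)
    push_cast at this
    exact this
  -- sharp property along k•w
  have hf2 : ∀ v, ∑ d ∈ Finset.range q, f (v + (d * k) • w) = 0 := by
    intro v
    have h1 := sum_range_affine (n := q) hq.pos
      (fun d : ℤ => f (v + (q : ZMod (q ^ L)) ^ (L - 1) * (d : ZMod (q ^ L)))) (by
        intro x y
        congr 1
        push_cast
        rw [mul_add, ← mul_assoc ((q : ZMod (q ^ L)) ^ (L - 1)) (q : ZMod (q ^ L)), hqL]
        ring) u 0 (Nat.isCoprime_iff_coprime.2 ((Nat.Prime.coprime_iff_not_dvd hq).2 hu).symm)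
    have h2 : ∑ d ∈ Finset.range q, f (v + (d * k) • w) =
        ∑ d ∈ Finset.range q, f (v + (q : ZMod (q ^ L)) ^ (L - 1) *
          ((((u : ℤ) * (d : ℤ) + 0 : ℤ)) : ZMod (q ^ L))) := by
      refine Finset.sum_congr rfl fun d _ => ?_
      congr 1
      rw [mul_smul, hkw, nsmul_eq_mul]
      push_cast
      ring
    rw [h2, h1]
    have h3 := hf v
    simpa using h3
  have hqpos : (0 : ℝ) < q := by exact_mod_cast hq.pos
  have hmain : ∀ v, (q : ℝ) * f v = ∑ d ∈ Finset.range q, (f v - f (v + (d * k) • w)) := by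
    intro v
    rw [Finset.sum_sub_distrib, hf2 v]
    simp
  have hsq : ∀ v, (q : ℝ) ^ 2 * f v ^ 2 ≤
      q * ∑ d ∈ Finset.range q, (f (v + (d * k) • w) - f v) ^ 2 := by
    intro v
    have h1 := @sq_sum_le_card_mul_sum_sq ℕ ℝ _ _ _ _ (Finset.range q)
      (fun d => (f v - f (v + (d * k) • w)))
    rw [← hmain v, Finset.card_range] at h1
    calc (q : ℝ) ^ 2 * f v ^ 2 = ((q : ℝ) * f v) ^ 2 := by ring
      _ ≤ _ := h1
      _ = _ := by
        congr 1
        refine Finset.sum_congr rfl fun d _ => ?_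
        ring
  have hsum : (q : ℝ) ^ 2 * ∑ v, f v ^ 2 ≤
      q * ∑ d ∈ Finset.range q, ((d * k : ℕ) : ℝ) ^ 2 * Δ := by
    calc (q : ℝ) ^ 2 * ∑ v, f v ^ 2 = ∑ v, (q : ℝ) ^ 2 * f v ^ 2 := by rw [Finset.mul_sum]
      _ ≤ ∑ v, q * ∑ d ∈ Finset.range q, (f (v + (d * k) • w) - f v) ^ 2 :=
          Finset.sum_le_sum fun v _ => hsq v
      _ = q * ∑ d ∈ Finset.range q, ∑ v, (f (v + (d * k) • w) - f v) ^ 2 := by
          rw [← Finset.mul_sum, Finset.sum_comm]
      _ ≤ q * ∑ d ∈ Finset.range q, ((d * k : ℕ) : ℝ) ^ 2 * Δ := by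
          refine mul_le_mul_of_nonneg_left ?_ hqpos.le
          exact Finset.sum_le_sum fun d _ => tele f w (d * k)
  have hΔ0 : 0 ≤ Δ := Finset.sum_nonneg fun v _ => sq_nonneg _
  have hdk : ∀ d ∈ Finset.range q, ((d * k : ℕ) : ℝ) ^ 2 * Δ ≤ ((q : ℝ) ^ L) ^ 2 * Δ := by
    intro d hd
    refine mul_le_mul_of_nonneg_right ?_ hΔ0
    refine pow_le_pow_left₀ (by positivity) ?_ 2
    have : d * k ≤ q * q ^ (L - 1) := Nat.mul_le_mul (Finset.mem_range.mp hd).le hk1
    have h2 : q * q ^ (L - 1) = q ^ L := by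
      rw [← pow_succ']
      congr 1
      omega
    rw [h2] at this
    exact_mod_cast this
  have hfin : (q : ℝ) ^ 2 * ∑ v, f v ^ 2 ≤ (q : ℝ) ^ 2 * ((q : ℝ) ^ (2 * L) * Δ) := by
    calc _ ≤ q * ∑ d ∈ Finset.range q, ((d * k : ℕ) : ℝ) ^ 2 * Δ := hsum
      _ ≤ q * ∑ d ∈ Finset.range q, ((q : ℝ) ^ L) ^ 2 * Δ := by
          refine mul_le_mul_of_nonneg_left ?_ hqpos.le
          exact Finset.sum_le_sum hdk
      _ = _ := by
          rw [Finset.sum_const, Finset.card_range, nsmul_eq_mul, pow_mul']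
          ring
  exact le_of_mul_le_mul_left hfin (by positivity)

/-- convolution inequality -/
theorem conv_bound {G : Type*} [AddCommGroup G] [Fintype G] [DecidableEq G] (μ f : G → ℝ)
    (hμ : ∀ t, 0 ≤ μ t) (γ : ℝ)
    (hγ : ∀ w : G, w ≠ 0 → 2 * γ * ∑ v, f v ^ 2 ≤ ∑ v, (f (v + w) - f v) ^ 2) :
    ∑ v, (∑ t, μ t * f (v - t)) ^ 2 ≤
      (∑ v, f v ^ 2) * ((∑ t, μ t) ^ 2 - γ * ((∑ t, μ t) ^ 2 - ∑ t, μ t ^ 2)) := by
  set N := ∑ v, f v ^ 2 with hN
  have hcorr : ∀ t t' : G, ∑ v, f (v - t) * f (v - t') ≤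
      N * (1 - (if t = t' then 0 else γ)) := by
    intro t t'
    have e1 : ∑ v, f (v - t) ^ 2 = N := by
      have := Equiv.sum_comp (Equiv.subRight t) (fun v => f v ^ 2)
      simpa using this
    have e2 : ∑ v, f (v - t') ^ 2 = N := by
      have := Equiv.sum_comp (Equiv.subRight t') (fun v => f v ^ 2)
      simpa using this
    by_cases h : t = t'
    · subst h
      simp only [if_true, sub_zero, mul_one]
      rw [← e1]
      refine le_of_eq (Finset.sum_congr rfl fun v _ => by ring)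
    · have e3 : ∑ v, (f (v - t) - f (v - t')) ^ 2 = ∑ v, (f (v + (t' - t)) - f v) ^ 2 := by
        have := Equiv.sum_comp (Equiv.subRight t') (fun v => (f (v + (t' - t)) - f v) ^ 2)
        rw [← this]
        refine Finset.sum_congr rfl fun v _ => ?_
        simp only [Equiv.subRight_apply]
        congr 3
        abel_nf
      have e4 := hγ (t' - t) (sub_ne_zero.mpr (Ne.symm h))
      rw [← e3] at e4
      have e5 : ∑ v, (f (v - t) - f (v - t')) ^ 2 =
          ∑ v, f (v - t) ^ 2 + ∑ v, f (v - t') ^ 2 - 2 * ∑ v, f (v - t) * f (v - t') := by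
        rw [Finset.mul_sum, ← Finset.sum_add_distrib, ← Finset.sum_sub_distrib]
        refine Finset.sum_congr rfl fun v _ => by ring
      rw [e5, e1, e2] at e4
      simp only [if_neg h]
      linarith
  have hexp : ∑ v, (∑ t, μ t * f (v - t)) ^ 2 =
      ∑ t, ∑ t', μ t * μ t' * ∑ v, f (v - t) * f (v - t') := by
    calc ∑ v, (∑ t, μ t * f (v - t)) ^ 2
        = ∑ v, ∑ t, ∑ t', (μ t * f (v - t)) * (μ t' * f (v - t')) := by
          refine Finset.sum_congr rfl fun v _ => ?_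
          rw [sq, Finset.sum_mul_sum]
      _ = ∑ t, ∑ t', ∑ v, (μ t * f (v - t)) * (μ t' * f (v - t')) := by
          rw [Finset.sum_comm]
          refine Finset.sum_congr rfl fun t _ => ?_
          rw [Finset.sum_comm]
      _ = _ := by
          refine Finset.sum_congr rfl fun t _ => Finset.sum_congr rfl fun t' _ => ?_
          rw [Finset.mul_sum]
          refine Finset.sum_congr rfl fun v _ => by ring
  rw [hexp]
  calc ∑ t, ∑ t', μ t * μ t' * ∑ v, f (v - t) * f (v - t')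
      ≤ ∑ t, ∑ t', μ t * μ t' * (N * (1 - (if t = t' then 0 else γ))) := by
        refine Finset.sum_le_sum fun t _ => Finset.sum_le_sum fun t' _ => ?_
        exact mul_le_mul_of_nonneg_left (hcorr t t') (mul_nonneg (hμ t) (hμ t'))
    _ = N * ((∑ t, μ t) ^ 2 - γ * ((∑ t, μ t) ^ 2 - ∑ t, μ t ^ 2)) := by
        have h1 : (∑ t, μ t) ^ 2 = ∑ t, ∑ t', μ t * μ t' := by
          rw [sq, Finset.sum_mul_sum]
        have h2 : ∑ t, μ t ^ 2 = ∑ t, ∑ t', (if t = t' then μ t * μ t' else 0) := by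
          refine Finset.sum_congr rfl fun t _ => ?_
          rw [Finset.sum_ite_eq Finset.univ t (fun t' => μ t * μ t')]
          simp [sq]
        rw [h1, h2, ← Finset.sum_sub_distrib, Finset.mul_sum, ← Finset.sum_sub_distrib,
          Finset.mul_sum]
        refine Finset.sum_congr rfl fun t _ => ?_
        rw [← Finset.sum_sub_distrib, Finset.mul_sum, ← Finset.sum_sub_distrib, Finset.mul_sum]
        refine Finset.sum_congr rfl fun t' _ => ?_
        by_cases h : t = t'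
        · simp only [if_pos h]; ring
        · simp only [if_neg h]; ring

/-- mixture inequality: components `i`, targets `a` -/
theorem mix_bound {G ι α : Type*} [CommRing G] [Fintype G] [DecidableEq G]
    (I : Finset ι) (A : Finset α) (f : ι → G → ℝ) (M : ι → ℝ) (μ : ι → α → G → ℝ) (U : ι → α → Gˣ)
    (γ : ℝ) (hM : ∀ i ∈ I, 0 ≤ M i) (hM0 : ∀ i ∈ I, M i = 0 → ∀ y, f i y = 0)
    (hμ : ∀ i ∈ I, ∀ a ∈ A, ∀ t, 0 ≤ μ i a t)
    (hγ : ∀ i ∈ I, ∀ w : G, w ≠ 0 →
      2 * γ * ∑ v, f i v ^ 2 ≤ ∑ v, (f i (v + w) - f i v) ^ 2) :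
    ∑ a ∈ A, ∑ v, (∑ i ∈ I, ∑ y, μ i a (v - (U i a : G) * y) * f i y) ^ 2 /
        (∑ i ∈ I, (∑ t, μ i a t) * M i) ≤
      ∑ i ∈ I, ((∑ y, f i y ^ 2) / M i) *
        ∑ a ∈ A, ((∑ t, μ i a t) - γ * ((∑ t, μ i a t) - (∑ t, μ i a t ^ 2) / (∑ t, μ i a t))) := by
  have hcomp : ∀ i ∈ I, ∀ a ∈ A,
      ∑ v, (∑ y, μ i a (v - (U i a : G) * y) * f i y) ^ 2 / ((∑ t, μ i a t) * M i) ≤
      ((∑ y, f i y ^ 2) / M i) *
        ((∑ t, μ i a t) - γ * ((∑ t, μ i a t) - (∑ t, μ i a t ^ 2) / (∑ t, μ i a t))) := by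
    intro i hi a ha
    set m := ∑ t, μ i a t with hm
    have hm0 : 0 ≤ m := Finset.sum_nonneg fun t _ => hμ i hi a ha t
    -- substitution
    set g : G → ℝ := fun w => f i (((U i a)⁻¹ : Gˣ) * w) with hg
    have hsub : ∀ v, ∑ y, μ i a (v - (U i a : G) * y) * f i y = ∑ t, μ i a t * g (v - t) := by
      intro v
      have e1 : ∑ y, μ i a (v - (U i a : G) * y) * f i y = ∑ w, μ i a (v - w) * g w := by
        have := Equiv.sum_comp (Units.mulLeft (U i a)) (fun w => μ i a (v - w) * g w)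
        rw [← this]
        refine Finset.sum_congr rfl fun y _ => ?_
        simp [hg]
      have e2 := Equiv.sum_comp (Equiv.subLeft v) (fun t => μ i a t * g (v - t))
      rw [e1, ← e2]
      refine Finset.sum_congr rfl fun w _ => ?_
      simp
    have hgsq : ∑ w, g w ^ 2 = ∑ y, f i y ^ 2 := by
      have := Equiv.sum_comp (Units.mulLeft (U i a)⁻¹) (fun y => f i y ^ 2)
      rw [← this]
      rfl
    have hgγ : ∀ w : G, w ≠ 0 → 2 * γ * ∑ v, g v ^ 2 ≤ ∑ v, (g (v + w) - g v) ^ 2 := by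
      intro w hw
      have h1 := hγ i hi ((((U i a)⁻¹ : Gˣ) : G) * w) (by
        intro h
        apply hw
        have := congrArg (fun z => (U i a : G) * z) h
        simpa using this)
      rw [hgsq]
      refine h1.trans (le_of_eq ?_)
      have := Equiv.sum_comp (Units.mulLeft (U i a)⁻¹)
        (fun y => (f i (y + (((U i a)⁻¹ : Gˣ) : G) * w) - f i y) ^ 2)
      rw [← this]
      refine Finset.sum_congr rfl fun v _ => ?_
      simp [hg, mul_add]
    have hcb := conv_bound (μ i a) g (hμ i hi a ha) γ hgγ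
    simp_rw [hsub]
    rw [hgsq] at hcb
    rw [← Finset.sum_div]
    by_cases hmz : m = 0
    · simp [hmz]
    by_cases hMz : M i = 0
    · simp [hMz]
    have hmpos : 0 < m := lt_of_le_of_ne hm0 (Ne.symm hmz)
    have hMpos : 0 < M i := lt_of_le_of_ne (hM i hi) (Ne.symm hMz)
    rw [div_le_iff₀ (mul_pos hmpos hMpos)]
    refine hcb.trans (le_of_eq ?_)
    rw [← hm]
    field_simp
  calc ∑ a ∈ A, ∑ v, (∑ i ∈ I, ∑ y, μ i a (v - (U i a : G) * y) * f i y) ^ 2 /
        (∑ i ∈ I, (∑ t, μ i a t) * M i)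
      ≤ ∑ a ∈ A, ∑ v, ∑ i ∈ I, (∑ y, μ i a (v - (U i a : G) * y) * f i y) ^ 2 /
        ((∑ t, μ i a t) * M i) := by
        refine Finset.sum_le_sum fun a ha => Finset.sum_le_sum fun v _ => ?_
        apply titu
        · intro i hi
          exact mul_nonneg (Finset.sum_nonneg fun t _ => hμ i hi a ha t) (hM i hi)
        · intro i hi h
          rcases mul_eq_zero.1 h with h | h
          · apply Finset.sum_eq_zero
            intro y _
            have := (Finset.sum_eq_zero_iff_of_nonneg (fun t _ => hμ i hi a ha t)).1 h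
              (v - (U i a : G) * y) (Finset.mem_univ _)
            rw [this, zero_mul]
          · apply Finset.sum_eq_zero
            intro y _
            rw [hM0 i hi h y, mul_zero]
    _ = ∑ i ∈ I, ∑ a ∈ A, ∑ v, (∑ y, μ i a (v - (U i a : G) * y) * f i y) ^ 2 /
        ((∑ t, μ i a t) * M i) := by
        rw [Finset.sum_comm (s := I)]
        exact Finset.sum_congr rfl fun a _ => Finset.sum_comm
    _ ≤ _ := by
        refine Finset.sum_le_sum fun i hi => ?_
        rw [Finset.mul_sum]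
        exact Finset.sum_le_sum fun a ha => hcomp i hi a ha

end Pool.Agent.H412R2
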