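import Pool.Agent.H33.G.R_seed8.H412R2.RigA

/-! Rigidity, part B: periodic functions on `ℤ`, windows, mass families. -/

set_option autoImplicit false

namespace Pool.Agent.H412R2

open Finset

theorem sum_range_mul' (a b : ℕ) (f : ℕ → ℝ) :
    ∑ z ∈ range (a * b), f z = ∑ i ∈ range a, ∑ j ∈ range b, f (i + a * j) := by
  induction b with
  | zero => simp
  | succ b ih =>
    rw [Nat.mul_succ, Finset.sum_range_add, ih]
    rw [← Finset.sum_add_distrib]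
    refine Finset.sum_congr rfl fun i _ => ?_
    rw [Finset.sum_range_succ]
    congr 2
    ring

/-- periodic of level `k` -/
def Per (q k : ℕ) (F : ℤ → ℝ) : Prop := ∀ x y : ℤ, F (x + (q : ℤ) ^ k * y) = F x

theorem Per.mono {q k l : ℕ} {F : ℤ → ℝ} (h : Per q k F) (hkl : k ≤ l) : Per q l F := by
  intro x y
  obtain ⟨d, rfl⟩ := Nat.exists_eq_add_of_le hkl
  rw [pow_add, mul_assoc]
  exact h x _

theorem Per.congr {q k : ℕ} {F : ℤ → ℝ} (h : Per q k F) {x y : ℤ} (hxy : (q : ℤ) ^ k ∣ x - y) :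
    F x = F y := by
  obtain ⟨c, hc⟩ := hxy
  have : x = y + (q : ℤ) ^ k * c := by linarith
  rw [this, h]

/-- window function -/
def wnd (q m L : ℕ) (F : ℤ → ℝ) (a : ℤ) : ZMod (q ^ L) → ℝ :=
  fun v => F (a + (q : ℤ) ^ m * (v.val : ℤ))

theorem wnd_intCast {q m L : ℕ} (hq : 0 < q) {F : ℤ → ℝ} (hF : Per q (m + L) F) (a y : ℤ) :
    wnd q m L F a ((y : ℤ) : ZMod (q ^ L)) = F (a + (q : ℤ) ^ m * y) := by
  have : NeZero (q ^ L) := ⟨(pow_pos hq L).ne'⟩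
  unfold wnd
  apply hF.congr
  have h : ((((y : ZMod (q ^ L)).val : ℕ) : ℤ) : ZMod (q ^ L)) = (y : ZMod (q ^ L)) := by simp
  rw [ZMod.intCast_eq_intCast_iff_dvd_sub] at h
  obtain ⟨c, hc⟩ := h
  refine ⟨-c, ?_⟩
  have : a + (q : ℤ) ^ m * (((y : ZMod (q ^ L)).val : ℕ) : ℤ) - (a + (q : ℤ) ^ m * y) =
      -((q : ℤ) ^ m * (y - (((y : ZMod (q ^ L)).val : ℕ) : ℤ))) := by ring
  rw [this, hc]
  push_cast
  ring

theorem sum_window_range {q m L : ℕ} {F : ℤ → ℝ} :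
    ∑ z ∈ range (q ^ (m + L)), F (z : ℤ) =
      ∑ a ∈ range (q ^ m), ∑ y ∈ range (q ^ L), F ((a : ℤ) + (q : ℤ) ^ m * (y : ℤ)) := by
  rw [pow_add, sum_range_mul' (q ^ m) (q ^ L) (fun z => F (z : ℤ))]
  refine Finset.sum_congr rfl fun a _ => Finset.sum_congr rfl fun y _ => ?_
  push_cast
  rfl

theorem sum_zmod_range {N : ℕ} [NeZero N] (g : ZMod N → ℝ) :
    ∑ v : ZMod N, g v = ∑ y ∈ range N, g ((y : ℕ) : ZMod N) := by
  symm
  apply Finset.sum_bij' (fun y _ => ((y : ℕ) : ZMod N)) (fun v _ => v.val)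
  · intro a _; exact Finset.mem_univ _
  · intro a _; simp [ZMod.val_lt]
  · intro a ha
    rw [ZMod.val_natCast, Nat.mod_eq_of_lt (Finset.mem_range.mp ha)]
  · intro a _; simp
  · intro a _; rfl

theorem sum_wnd {q m L : ℕ} [NeZero (q ^ L)] {F : ℤ → ℝ} (a : ℤ)
    (φ : ℝ → ℝ) :
    ∑ v : ZMod (q ^ L), φ (wnd q m L F a v) =
      ∑ y ∈ range (q ^ L), φ (F (a + (q : ℤ) ^ m * (y : ℤ))) := by
  rw [sum_zmod_range]
  refine Finset.sum_congr rfl fun y hy => ?_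
  unfold wnd
  rw [ZMod.val_natCast, Nat.mod_eq_of_lt (Finset.mem_range.mp hy)]

theorem sum_window {q m L : ℕ} [NeZero (q ^ L)] {F : ℤ → ℝ} :
    ∑ z ∈ range (q ^ (m + L)), F (z : ℤ) =
      ∑ a ∈ range (q ^ m), ∑ v : ZMod (q ^ L), wnd q m L F a v := by
  rw [sum_window_range]
  refine Finset.sum_congr rfl fun a _ => ?_
  exact (sum_wnd (a : ℤ) (fun x => x)).symm

/-- mass families -/
structure Mass (q : ℕ) (μ : ℕ → ℤ → ℝ) : Prop where
  nonneg : ∀ k v, 0 ≤ μ k v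
  per : ∀ k, Per q k (μ k)
  cons : ∀ k v, μ k v = ∑ d ∈ range q, μ (k + 1) (v + (q : ℤ) ^ k * (d : ℤ))

namespace Mass
variable {q : ℕ} {μ : ℕ → ℤ → ℝ}

theorem cons_add (h : Mass q μ) (k L : ℕ) (v : ℤ) :
    μ k v = ∑ y ∈ range (q ^ L), μ (k + L) (v + (q : ℤ) ^ k * (y : ℤ)) := by
  induction L generalizing v with
  | zero => simp
  | succ L ih =>
    rw [ih, pow_succ, sum_range_mul']
    refine Finset.sum_congr rfl fun y _ => ?_
    rw [h.cons (k + L)]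
    refine Finset.sum_congr rfl fun d _ => ?_
    rw [add_assoc k L 1]
    congr 1
    push_cast
    ring

theorem le_succ (h : Mass q μ) (hq : 0 < q) (k : ℕ) (v : ℤ) : μ (k + 1) v ≤ μ k v := by
  rw [h.cons k v]
  have := Finset.single_le_sum (f := fun d : ℕ => μ (k + 1) (v + (q : ℤ) ^ k * (d : ℤ)))
    (fun d _ => h.nonneg _ _) (Finset.mem_range.2 hq)
  simpa using this

theorem le_add (h : Mass q μ) (hq : 0 < q) (k L : ℕ) (v : ℤ) : μ (k + L) v ≤ μ k v := by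
  induction L with
  | zero => simp
  | succ L ih => exact (h.le_succ hq (k + L) v).trans ih

theorem mono (h : Mass q μ) (hq : 0 < q) {k l : ℕ} (hkl : k ≤ l) (v : ℤ) : μ l v ≤ μ k v := by
  obtain ⟨L, rfl⟩ := Nat.exists_eq_add_of_le hkl
  exact h.le_add hq k L v

theorem total (h : Mass q μ) (k : ℕ) : ∑ v ∈ range (q ^ k), μ k (v : ℤ) = μ 0 0 := by
  have := h.cons_add 0 k 0
  simpa using this.symm

end Mass

end Pool.Agent.H412R2
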