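import Pool.Agent.H33.G.R_seed8.H412R2.RigC

/-! Rigidity, part D: the general mixture inequality for kernels. -/

set_option autoImplicit false

namespace Pool.Agent.H412R2

open Finset

variable {q R : ℕ}

/-- `pr` with size `s - s'`, zero if `s < s'` -/
noncomputable def prz (κ : Ker q R) (k : ℕ) (z : ℤ) (i s s' : ℕ) (c : ℤ) : ℝ :=
  if s' ≤ s then pr κ k z i (s - s') c else 0

theorem prz_nonneg (κ : Ker q R) (k : ℕ) (z : ℤ) (i s s' : ℕ) (c : ℤ) :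
    0 ≤ prz κ k z i s s' c := by
  unfold prz; split_ifs
  · exact pr_nonneg _ _ _ _ _ _
  · exact le_rfl

theorem prz_mass (κ : Ker q R) (hq : 0 < q) (i s s' : ℕ) (c : ℤ) :
    Mass q (fun k z => prz κ k z i s s' c) := by
  by_cases h : s' ≤ s
  · have e : (fun (k : ℕ) (z : ℤ) => prz κ k z i s s' c) = fun k z => pr κ k z i (s - s') c := by
      funext k z; simp [prz, h]
    rw [e]
    exact pr_mass κ hq i (s - s') c
  · have e : (fun (k : ℕ) (z : ℤ) => prz κ k z i s s' c) = fun _ _ => 0 := by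
      funext k z; simp [prz, h]
    rw [e]
    exact ⟨fun _ _ => le_rfl, fun _ _ _ => rfl, fun _ _ => by simp⟩

theorem prz_shift (κ : Ker q R) (k : ℕ) (v : ℤ) (i s s' m : ℕ) (hm : 1 ≤ m) {x : ℤ}
    (hx : ¬ (q : ℤ) ∣ x) (y : ℤ) :
    prz κ k v i s s' (x + (q : ℤ) ^ (i * R + m) * y) =
      prz κ k (v - 2 ^ (s - s') * ((q : ℤ) ^ m * y)) i s s' x := by
  unfold prz
  split_ifs
  · exact pr_shift κ k v i (s - s') m hm hx y
  · rfl

theorem coprime_two_pow (hq : q.Prime) (hq2 : q ≠ 2) (L : ℕ) : Nat.Coprime 2 (q ^ L) := by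
  apply Nat.Coprime.pow_right
  rw [Nat.coprime_primes Nat.prime_two hq]
  exact (Ne.symm hq2)

/-- the unit `2^e` of `ZMod (q^L)` -/
noncomputable def twoU (hq : q.Prime) (hq2 : q ≠ 2) (L e : ℕ) : (ZMod (q ^ L))ˣ :=
  (ZMod.unitOfCoprime 2 (coprime_two_pow hq hq2 L)) ^ e

theorem twoU_coe (hq : q.Prime) (hq2 : q ≠ 2) (L e : ℕ) :
    ((twoU hq hq2 L e : (ZMod (q ^ L))ˣ) : ZMod (q ^ L)) = 2 ^ e := by
  unfold twoU
  push_cast
  rfl

theorem sum_prz_total (κ : Ker q R) (hq : 0 < q) (m i B s' : ℕ) (hs' : s' < B) {c : ℤ}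
    (hc : ¬ (q : ℤ) ∣ c) :
    ∑ s ∈ range (B + i * κ.Smax), ∑ a ∈ range (q ^ m), prz κ m (a : ℤ) i s s' c = 1 := by
  have h : ∀ s ∈ range (B + i * κ.Smax), ∑ a ∈ range (q ^ m), prz κ m (a : ℤ) i s s' c =
      if s' ≤ s then (fun s'' => ∑ a ∈ range (q ^ m), pr κ m (a : ℤ) i s'' c) (s - s') else 0 := by
    intro s _
    unfold prz
    split_ifs
    · rfl
    · simp
  rw [Finset.sum_congr rfl h, sum_shift _ s' (fun s'' => ∑ a ∈ range (q ^ m), pr κ m (a : ℤ) i s'' c)]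
  exact pr_total' κ hq m i _ hc (by omega)

theorem sum_prz_W (κ : Ker q R) (m n i B s' : ℕ) (hs' : s' < B) (c : ℤ) :
    ∑ s ∈ range (B + i * κ.Smax), ∑ z ∈ range (q ^ n),
      prz κ n (z : ℤ) i s s' c ^ 2 / prz κ m (z : ℤ) i s s' c = W κ i m n c := by
  have h : ∀ s ∈ range (B + i * κ.Smax), ∑ z ∈ range (q ^ n),
      prz κ n (z : ℤ) i s s' c ^ 2 / prz κ m (z : ℤ) i s s' c =
      if s' ≤ s then (fun s'' => ∑ z ∈ range (q ^ n),
        pr κ n (z : ℤ) i s'' c ^ 2 / pr κ m (z : ℤ) i s'' c) (s - s') else 0 := by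
    intro s _
    unfold prz
    split_ifs
    · rfl
    · simp
  rw [Finset.sum_congr rfl h, sum_shift _ s' (fun s'' => ∑ z ∈ range (q ^ n),
        pr κ n (z : ℤ) i s'' c ^ 2 / pr κ m (z : ℤ) i s'' c)]
  rw [W_eq κ i m n (B + i * κ.Smax - s') c (by omega)]

theorem GM (κ : Ker q R) (hq : q.Prime) (hq2 : q ≠ 2) (m L i B : ℕ) (hm : 1 ≤ m)
    (F M : ℕ → ℤ → ℝ) 
    (hM0 : ∀ s c, 0 ≤ M s c)
    (hFM : ∀ s c y, M s c = 0 → F s (c + (q : ℤ) ^ (i * R + m) * y) = 0)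
    (hdead : ∀ s (c : ℤ), (q : ℤ) ∣ c → M s c = 0) (γ : ℝ) [NeZero (q ^ L)]
    (hγ : ∀ s (c : ℤ) (w : ZMod (q ^ L)), w ≠ 0 →
      2 * γ * ∑ v, wnd q (i * R + m) L (F s) c v ^ 2 ≤
        ∑ v, (wnd q (i * R + m) L (F s) c (v + w) - wnd q (i * R + m) L (F s) c v) ^ 2) :
    ∑ s ∈ range (B + i * κ.Smax), ∑ z ∈ range (q ^ (m + L)),
      (∑ s' ∈ range B, ∑ c ∈ range (q ^ (i * R + m + L)),
        F s' (c : ℤ) * prz κ (m + L) (z : ℤ) i s s' (c : ℤ)) ^ 2 /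
      (∑ s' ∈ range B, ∑ c ∈ range (q ^ (i * R + m)),
        M s' (c : ℤ) * prz κ m (z : ℤ) i s s' (c : ℤ)) ≤
    ∑ s' ∈ range B, ∑ c ∈ range (q ^ (i * R + m)),
      ((∑ y ∈ range (q ^ L), F s' ((c : ℤ) + (q : ℤ) ^ (i * R + m) * (y : ℤ)) ^ 2) / M s' (c : ℤ)) *
        (1 - γ * (1 - W κ i m (m + L) (c : ℤ))) := by
  have hq0 : 0 < q := hq.pos
  set K := i * R + m with hK
  -- data for mix_bound
  set I : Finset (ℕ × ℕ) := range B ×ˢ range (q ^ K) with hI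
  set A : Finset (ℕ × ℕ) := range (B + i * κ.Smax) ×ˢ range (q ^ m) with hA
  set f : ℕ × ℕ → ZMod (q ^ L) → ℝ := fun p => wnd q K L (F p.1) (p.2 : ℤ) with hf
  set MM : ℕ × ℕ → ℝ := fun p => M p.1 (p.2 : ℤ) with hMM
  set μ : ℕ × ℕ → ℕ × ℕ → ZMod (q ^ L) → ℝ := fun p a =>
    wnd q m L (fun z => prz κ (m + L) z i a.1 p.1 (p.2 : ℤ)) (a.2 : ℤ) with hμ
  set U : ℕ × ℕ → ℕ × ℕ → (ZMod (q ^ L))ˣ := fun p a => twoU hq hq2 L (a.1 - p.1) with hU
  have hper : ∀ (p a : ℕ × ℕ), Per q (m + L) (fun z => prz κ (m + L) z i a.1 p.1 (p.2 : ℤ)) :=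
    fun p a => (prz_mass κ hq0 i a.1 p.1 (p.2 : ℤ)).per (m + L)
  -- total mass of μ
  have hμsum : ∀ p a : ℕ × ℕ, ∑ t, μ p a t = prz κ m (a.2 : ℤ) i a.1 p.1 (p.2 : ℤ) := by
    intro p a
    simp only [hμ]
    rw [sum_wnd (F := fun z => prz κ (m + L) z i a.1 p.1 (p.2 : ℤ)) (a.2 : ℤ) (fun x => x)]
    exact ((prz_mass κ hq0 i a.1 p.1 (p.2 : ℤ)).cons_add m L (a.2 : ℤ)).symm
  have hmix := mix_bound I A f MM μ U γ (fun p _ => hM0 _ _)
    (by
      intro p _ h y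
      exact hFM p.1 (p.2 : ℤ) _ h)
    (by
      intro p _ a _ t
      exact prz_nonneg _ _ _ _ _ _ _)
    (by
      intro p _ w hw
      exact hγ p.1 (p.2 : ℤ) w hw)
  -- identify the left side
  have hLHS : ∑ s ∈ range (B + i * κ.Smax), ∑ z ∈ range (q ^ (m + L)),
      (∑ s' ∈ range B, ∑ c ∈ range (q ^ (K + L)),
        F s' (c : ℤ) * prz κ (m + L) (z : ℤ) i s s' (c : ℤ)) ^ 2 /
      (∑ s' ∈ range B, ∑ c ∈ range (q ^ K),
        M s' (c : ℤ) * prz κ m (z : ℤ) i s s' (c : ℤ)) =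
      ∑ a ∈ A, ∑ v, (∑ p ∈ I, ∑ y, μ p a (v - (U p a : ZMod (q ^ L)) * y) * f p y) ^ 2 /
        (∑ p ∈ I, (∑ t, μ p a t) * MM p) := by
    rw [hA, Finset.sum_product]
    refine Finset.sum_congr rfl fun s _ => ?_
    rw [sum_window (q := q) (m := m) (L := L) (F := fun z =>
      (∑ s' ∈ range B, ∑ c ∈ range (q ^ (K + L)),
        F s' (c : ℤ) * prz κ (m + L) z i s s' (c : ℤ)) ^ 2 /
      (∑ s' ∈ range B, ∑ c ∈ range (q ^ K),
        M s' (c : ℤ) * prz κ m z i s s' (c : ℤ)))]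
    refine Finset.sum_congr rfl fun a _ => Finset.sum_congr rfl fun v _ => ?_
    simp only [wnd]
    rw [hI, Finset.sum_product, Finset.sum_product]
    congr 1
    · congr 1
      refine Finset.sum_congr rfl fun s' _ => ?_
      rw [sum_window (q := q) (m := K) (L := L) (F := fun c => F s' c *
        prz κ (m + L) ((a : ℤ) + (q : ℤ) ^ m * (v.val : ℤ)) i s s' c)]
      refine Finset.sum_congr rfl fun c _ => Finset.sum_congr rfl fun y _ => ?_
      simp only [wnd, hf, hμ, hU]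
      by_cases hMz : M s' (c : ℤ) = 0
      · rw [hFM s' (c : ℤ) _ hMz]; ring
      have hcal : ¬ (q : ℤ) ∣ (c : ℤ) := fun h => hMz (hdead s' c h)
      rw [prz_shift κ (m + L) _ i s s' m hm hcal]
      rw [mul_comm]
      congr 1
      have e1 : (v - ((twoU hq hq2 L (s - s') : (ZMod (q ^ L))ˣ) : ZMod (q ^ L)) * y) =
          (((v.val : ℤ) - 2 ^ (s - s') * (y.val : ℤ) : ℤ) : ZMod (q ^ L)) := by
        rw [twoU_coe]; push_cast; simp
      have e2 := wnd_intCast (q := q) (m := m) (L := L) hq0 (hper (s', c) (s, a)) (a : ℤ)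
        ((v.val : ℤ) - 2 ^ (s - s') * (y.val : ℤ))
      rw [← e1] at e2
      simp only [wnd] at e2
      rw [e2]
      congr 1
      ring
    · refine Finset.sum_congr rfl fun s' _ => Finset.sum_congr rfl fun c _ => ?_
      rw [hμsum (s', c) (s, a)]
      rw [mul_comm]
      congr 1
      exact (prz_mass κ hq0 i s s' (c : ℤ)).per m _ _
  rw [hLHS]
  refine hmix.trans (le_of_eq ?_)
  rw [hI, Finset.sum_product]
  refine Finset.sum_congr rfl fun s' hs' => Finset.sum_congr rfl fun c _ => ?_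
  have hs'B : s' < B := Finset.mem_range.mp hs'
  simp only [hf, hMM]
  rw [sum_wnd (F := F s') (c : ℤ) (fun x => x ^ 2)]
  by_cases hMz : M s' (c : ℤ) = 0
  · rw [hMz]; simp
  have hcal : ¬ (q : ℤ) ∣ (c : ℤ) := fun h => hMz (hdead s' c h)
  congr 1
  have h1 : ∑ a ∈ A, (∑ t, μ (s', c) a t) = 1 := by
    rw [hA, Finset.sum_product, ← sum_prz_total κ hq0 m i B s' hs'B hcal]
    refine Finset.sum_congr rfl fun s _ => Finset.sum_congr rfl fun a _ => ?_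
    rw [hμsum]
  have h2 : ∑ a ∈ A, ((∑ t, μ (s', c) a t ^ 2) / (∑ t, μ (s', c) a t)) = W κ i m (m + L) (c : ℤ) := by
    rw [hA, Finset.sum_product, ← sum_prz_W κ m (m + L) i B s' hs'B (c : ℤ)]
    refine Finset.sum_congr rfl fun s _ => ?_
    rw [sum_window_range (q := q) (m := m) (L := L) (F := fun z =>
      prz κ (m + L) z i s s' (c : ℤ) ^ 2 / prz κ m z i s s' (c : ℤ))]
    refine Finset.sum_congr rfl fun a _ => ?_
    rw [hμsum]
    simp only [hμ]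
    rw [sum_wnd (F := fun z => prz κ (m + L) z i s s' (c : ℤ)) (a : ℤ) (fun x => x ^ 2),
      Finset.sum_div]
    refine Finset.sum_congr rfl fun y _ => ?_
    congr 1
    exact ((prz_mass κ hq0 i s s' (c : ℤ)).per m _ _).symm
  rw [Finset.sum_sub_distrib, ← Finset.mul_sum, Finset.sum_sub_distrib, h1, h2]

end Pool.Agent.H412R2
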