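import Pool.Agent.H33.G.R_seed8.H412R2.RigD

/-! Rigidity, part E: monotonicity of `W`, stationary families and the functional `Dn`. -/

set_option autoImplicit false

namespace Pool.Agent.H412R2

open Finset

variable {q R : ℕ}

theorem path_alive (κ : Ker q R) {j s : ℕ} {x z : ℤ} (h : Path κ.S κ.K j s x z)
    (hx : ¬ (q : ℤ) ∣ x) : ¬ (q : ℤ) ∣ z := by
  induction h with
  | refl x => exact hx
  | step hb _ ih => exact ih (κ.hlive _ _ hx hb)

theorem pr_dead (κ : Ker q R) {k : ℕ} (hk : 1 ≤ k) {v : ℤ} (hv : (q : ℤ) ∣ v) (j s : ℕ) {x : ℤ}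
    (hx : ¬ (q : ℤ) ∣ x) : pr κ k v j s x = 0 := by
  by_contra h
  obtain ⟨z, hz, hzv⟩ := pr_path κ k v j s h
  apply path_alive κ hz hx
  have h1 : (q : ℤ) ∣ z - v := (dvd_pow_self _ (by omega)).trans hzv
  have h2 : z = (z - v) + v := by ring
  rw [h2]
  exact dvd_add h1 hv

/-- (b) level shift -/
theorem W_level (κ : Ker q R) (hq : q.Prime) (hq2 : q ≠ 2) (j m L : ℕ) (hm : 1 ≤ m) {x : ℤ}
    (hx : ¬ (q : ℤ) ∣ x) :
    W κ (j + 1) m (m + L) x ≤ W κ j (m + R) (m + L + R) x := by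
  have hq0 := hq.pos
  have : NeZero (q ^ L) := ⟨(pow_pos hq0 L).ne'⟩
  have h := GM κ hq hq2 m L 1 (j * κ.Smax + 1) hm
    (fun s' c => pr κ (m + L + 1 * R) c j s' x) (fun s' c => pr κ (m + 1 * R) c j s' x)
    (fun _ _ => pr_nonneg _ _ _ _ _ _)
    (by
      intro s c y h0
      have h1 := (pr_mass κ hq0 j s x).mono hq0 (show m + 1 * R ≤ m + L + 1 * R by omega)
        (c + (q : ℤ) ^ (1 * R + m) * y)
      have h2 := (pr_mass κ hq0 j s x).per (m + 1 * R) c y
      rw [show 1 * R + m = m + 1 * R by ring] at h1 ⊢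
      exact le_antisymm (h1.trans (le_of_eq (h2.trans h0))) (pr_nonneg _ _ _ _ _ _))
    (by
      intro s c hc
      exact pr_dead κ (by omega) hc j s hx) 0
    (by
      intro s c w _
      simp only [mul_zero, zero_mul]
      exact Finset.sum_nonneg fun _ _ => sq_nonneg _)
  have hL : ∑ s ∈ range (j * κ.Smax + 1 + 1 * κ.Smax), ∑ z ∈ range (q ^ (m + L)),
      (∑ s' ∈ range (j * κ.Smax + 1), ∑ c ∈ range (q ^ (1 * R + m + L)),
        pr κ (m + L + 1 * R) (c : ℤ) j s' x * prz κ (m + L) (z : ℤ) 1 s s' (c : ℤ)) ^ 2 /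
      (∑ s' ∈ range (j * κ.Smax + 1), ∑ c ∈ range (q ^ (1 * R + m)),
        pr κ (m + 1 * R) (c : ℤ) j s' x * prz κ m (z : ℤ) 1 s s' (c : ℤ)) =
      W κ (j + 1) m (m + L) x := by
    have hck : ∀ (k : ℕ), 1 ≤ k → ∀ (z : ℤ) (s : ℕ), ∑ s' ∈ range (j * κ.Smax + 1),
        ∑ c ∈ range (q ^ (k + 1 * R)),
        pr κ (k + 1 * R) (c : ℤ) j s' x * prz κ k z 1 s s' (c : ℤ) = pr κ k z (j + 1) s x := by
      intro k hk z s
      rw [pr_CK κ hq0 k hk z j 1 s hx]
      -- compare both with the sum over a large range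
      have e1 : ∑ s' ∈ range (j * κ.Smax + 1), ∑ c ∈ range (q ^ (k + 1 * R)),
          pr κ (k + 1 * R) (c : ℤ) j s' x * prz κ k z 1 s s' (c : ℤ) =
          ∑ s' ∈ range (j * κ.Smax + 1 + (s + 1)), ∑ c ∈ range (q ^ (k + 1 * R)),
          pr κ (k + 1 * R) (c : ℤ) j s' x * prz κ k z 1 s s' (c : ℤ) := by
        apply Finset.sum_subset
        · intro a ha; rw [Finset.mem_range] at *; omega
        · intro s' _ hs'
          apply Finset.sum_eq_zero
          intro c _
          rw [pr_supp κ _ _ j s' x (by rw [Finset.mem_range] at hs'; omega), zero_mul]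
      have e2 : ∑ s' ∈ range (s + 1), ∑ c ∈ range (q ^ (k + 1 * R)),
          pr κ (k + 1 * R) (c : ℤ) j s' x * pr κ k z 1 (s - s') (c : ℤ) =
          ∑ s' ∈ range (j * κ.Smax + 1 + (s + 1)), ∑ c ∈ range (q ^ (k + 1 * R)),
          pr κ (k + 1 * R) (c : ℤ) j s' x * prz κ k z 1 s s' (c : ℤ) := by
        rw [← Finset.sum_subset (s₁ := range (s + 1))
          (s₂ := range (j * κ.Smax + 1 + (s + 1)))]
        · refine Finset.sum_congr rfl fun s' hs' => ?_
          unfold prz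
          rw [Finset.mem_range] at hs'
          simp only [if_pos (show s' ≤ s by omega)]
        · intro a ha; rw [Finset.mem_range] at *; omega
        · intro s' _ hs'
          apply Finset.sum_eq_zero
          intro c _
          unfold prz
          rw [if_neg (by rw [Finset.mem_range] at hs'; omega), mul_zero]
      rw [e1, e2]
    rw [W_eq κ (j + 1) m (m + L) (j * κ.Smax + 1 + 1 * κ.Smax) x (by rw [Nat.succ_mul]; omega)]
    refine Finset.sum_congr rfl fun s _ => Finset.sum_congr rfl fun z _ => ?_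
    rw [show 1 * R + m + L = m + L + 1 * R by ring, show 1 * R + m = m + 1 * R by ring]
    rw [hck (m + L) (by omega) (z : ℤ) s, hck m hm (z : ℤ) s]
  rw [hL] at h
  refine h.trans (le_of_eq ?_)
  simp only [zero_mul, sub_zero, mul_one]
  unfold W
  refine Finset.sum_congr rfl fun s' _ => ?_
  rw [show m + L + R = (m + R) + L by ring, sum_window_range (q := q) (m := m + R) (L := L)
    (F := fun z => pr κ (m + R + L) z j s' x ^ 2 / pr κ (m + R) z j s' x)]
  rw [show 1 * R + m = m + R by ring]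
  refine Finset.sum_congr rfl fun c _ => ?_
  rw [Finset.sum_div]
  refine Finset.sum_congr rfl fun y _ => ?_
  rw [show m + L + 1 * R = m + R + L by ring, show m + 1 * R = m + R by ring]
  congr 1
  exact ((pr_mass κ hq0 j s' x).per (m + R) _ _).symm

/-- (a) time shift -/
theorem W_time (κ : Ker q R) (hq0 : 0 < q) (j : ℕ) {m n : ℕ} (hmn : m ≤ n) {x : ℤ}
    (hx : ¬ (q : ℤ) ∣ x) :
    W κ (j + 1) m n x ≤ κ.P (W κ j m n) x := by
  have hN := K_nonempty κ hx
  set N : ℝ := ((κ.K x).card : ℝ) with hNdef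
  have hSx := κ.hSmax x
  have e1 : W κ (j + 1) m n x ≤ ∑ s ∈ range ((j + 1) * κ.Smax + 1), if κ.S x ≤ s then
      (fun s' => ∑ z ∈ range (q ^ n), (∑ b ∈ κ.K x, pr κ n z j s' b ^ 2 / pr κ m z j s' b) / N)
        (s - κ.S x) else 0 := by
    unfold W
    refine Finset.sum_le_sum fun s _ => ?_
    by_cases hs : κ.S x ≤ s
    · rw [if_pos hs]
      refine Finset.sum_le_sum fun z _ => ?_
      simp only [pr, if_pos hs]
      have ht := titu (κ.K x) (fun b => pr κ n z j (s - κ.S x) b)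
        (fun b => pr κ m z j (s - κ.S x) b) (fun b _ => pr_nonneg _ _ _ _ _ _)
        (fun b _ h0 => le_antisymm (h0 ▸ (pr_mass κ hq0 j (s - κ.S x) b).mono hq0 hmn z)
          (pr_nonneg _ _ _ _ _ _))
      have e : ((∑ b ∈ κ.K x, pr κ n z j (s - κ.S x) b) / N) ^ 2 /
          ((∑ b ∈ κ.K x, pr κ m z j (s - κ.S x) b) / N) =
          ((∑ b ∈ κ.K x, pr κ n z j (s - κ.S x) b) ^ 2 /
            (∑ b ∈ κ.K x, pr κ m z j (s - κ.S x) b)) / N := by
        rw [div_pow]
        field_simp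
      rw [e]
      exact div_le_div_of_nonneg_right ht hN.le
    · rw [if_neg hs]
      refine le_of_eq (Finset.sum_eq_zero fun z _ => ?_)
      simp [pr, if_neg hs]
  refine e1.trans (le_of_eq ?_)
  rw [sum_shift ((j + 1) * κ.Smax + 1) (κ.S x) (fun s' => ∑ z ∈ range (q ^ n),
    (∑ b ∈ κ.K x, pr κ n z j s' b ^ 2 / pr κ m z j s' b) / N)]
  change _ = (∑ b ∈ κ.K x, W κ j m n b) / N
  have e2 : ∀ b ∈ κ.K x, W κ j m n b = ∑ s ∈ range ((j + 1) * κ.Smax + 1 - κ.S x),
      ∑ z ∈ range (q ^ n), pr κ n z j s b ^ 2 / pr κ m z j s b := by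
    intro b _
    exact W_eq κ j m n _ b (by rw [Nat.succ_mul]; omega)
  rw [Finset.sum_congr rfl e2]
  symm
  calc (∑ b ∈ κ.K x, ∑ s ∈ range ((j + 1) * κ.Smax + 1 - κ.S x),
        ∑ z ∈ range (q ^ n), pr κ n (z : ℤ) j s b ^ 2 / pr κ m (z : ℤ) j s b) / N
      = (∑ s ∈ range ((j + 1) * κ.Smax + 1 - κ.S x), ∑ z ∈ range (q ^ n),
          ∑ b ∈ κ.K x, pr κ n (z : ℤ) j s b ^ 2 / pr κ m (z : ℤ) j s b) / N := by
        rw [Finset.sum_comm]
        congr 1
        exact Finset.sum_congr rfl fun s _ => Finset.sum_comm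
    _ = _ := by
        rw [Finset.sum_div]
        refine Finset.sum_congr rfl fun s _ => ?_
        rw [Finset.sum_div]

end Pool.Agent.H412R2
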