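import Pool.Agent.H33.G.R_seed8.H412R2.RigE

/-! Rigidity: definition of stationary families. -/

set_option autoImplicit false

namespace Pool.Agent.H412R2

open Finset

/-- stationary family of a kernel: `π k v` is the mass of the class `v mod q^k` -/
structure Stat {q R : ℕ} (κ : Ker q R) (π : ℕ → ℤ → ℝ) : Prop where
  mass : Mass q π
  total : π 0 0 = 1
  dead : ∀ (k : ℕ) (v : ℤ), 1 ≤ k → (q : ℤ) ∣ v → π k v = 0
  stat : ∀ (j k : ℕ) (v : ℤ), 1 ≤ k → π k v = ∑ c ∈ range (q ^ (k + j * R)),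
    π (k + j * R) (c : ℤ) * ∑ s ∈ range (j * κ.Smax + 1), pr κ k v j s (c : ℤ)

end Pool.Agent.H412R2
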