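import Pool.Agent.H33.G.R_seed8.H412R2.Defs

/-! Task 1 (TREE): elementary facts on the sets `tr`. -/

set_option autoImplicit false

namespace Pool.Agent.H412R2

theorem mem_tr_zero {q E s : ℕ} {x z : ℤ} : z ∈ tr q E 0 s x ↔ s = 0 ∧ z = x := by
  unfold tr
  by_cases h : s = 0
  · simp [h]
  · simp [h]

theorem mem_tr_succ {q E n s : ℕ} {x z : ℤ} (hq : 0 < q) :
    z ∈ tr q E (n + 1) s x ↔ ∃ (e : ℕ) (b : ℤ), 1 ≤ e ∧ e ≤ E ∧ e ≤ s ∧
      (q : ℤ) * b + 1 = 2 ^ e * x ∧ z ∈ tr q E n (s - e) b := by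
  have hq' : (q : ℤ) ≠ 0 := by exact_mod_cast hq.ne'
  rw [tr]
  simp only [Finset.mem_biUnion, Finset.mem_Icc]
  constructor
  · rintro ⟨e, ⟨he1, he2⟩, hz⟩
    split_ifs at hz with hd
    · obtain ⟨b, hb⟩ := hd
      refine ⟨e, b, he1, le_trans he2 (min_le_right _ _), le_trans he2 (min_le_left _ _), by linarith, ?_⟩
      rw [hb, Int.mul_ediv_cancel_left _ hq'] at hz
      exact hz
    · simp at hz
  · rintro ⟨e, b, he1, he2, he3, hb, hz⟩
    refine ⟨e, ⟨he1, le_min he3 he2⟩, ?_⟩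
    have hd : (2 : ℤ) ^ e * x - 1 = q * b := by linarith
    rw [hd, if_pos (Dvd.intro _ rfl), Int.mul_ediv_cancel_left _ hq']
    exact hz

theorem tr_off_nonneg {q E n s : ℕ} {x z : ℤ} (hq : 0 < q) (hz : z ∈ tr q E n s x) :
    0 ≤ 2 ^ s * x - (q : ℤ) ^ n * z := by
  induction n generalizing s x with
  | zero =>
    obtain ⟨rfl, rfl⟩ := mem_tr_zero.1 hz
    simp
  | succ n ih =>
    obtain ⟨e, b, he1, he2, he3, hb, hz⟩ := (mem_tr_succ hq).1 hz
    have h1 := ih hz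
    have hs : (2 : ℤ) ^ s = 2 ^ (s - e) * 2 ^ e := by
      rw [← pow_add]; congr 1; omega
    have h2 : (2 : ℤ) ^ s * x - (q : ℤ) ^ (n + 1) * z =
        2 ^ (s - e) + q * (2 ^ (s - e) * b - (q : ℤ) ^ n * z) := by
      rw [hs, mul_assoc, ← hb, pow_succ]; ring
    rw [h2]
    positivity

theorem tr_off_le {q E n s : ℕ} {x z : ℤ} (hq : 0 < q) (hz : z ∈ tr q E n s x) :
    2 ^ s * x - (q : ℤ) ^ n * z ≤ 2 ^ s * (q : ℤ) ^ n := by
  induction n generalizing s x with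
  | zero =>
    obtain ⟨rfl, rfl⟩ := mem_tr_zero.1 hz
    simp
  | succ n ih =>
    obtain ⟨e, b, he1, he2, he3, hb, hz⟩ := (mem_tr_succ hq).1 hz
    have h1 := ih hz
    have hs : (2 : ℤ) ^ s = 2 ^ (s - e) * 2 ^ e := by
      rw [← pow_add]; congr 1; omega
    have h2 : (2 : ℤ) ^ s * x - (q : ℤ) ^ (n + 1) * z =
        2 ^ (s - e) + q * (2 ^ (s - e) * b - (q : ℤ) ^ n * z) := by
      rw [hs, mul_assoc, ← hb, pow_succ]; ring
    rw [h2, hs]
    have hq1 : (1 : ℤ) ≤ q := by exact_mod_cast hq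
    have hqn : (1 : ℤ) ≤ (q : ℤ) ^ (n + 1) := one_le_pow₀ hq1
    have h2e : (2 : ℤ) ≤ 2 ^ e := by
      calc (2 : ℤ) = 2 ^ 1 := by norm_num
        _ ≤ 2 ^ e := pow_le_pow_right₀ (by norm_num) he1
    have h3 : (q : ℤ) * (2 ^ (s - e) * b - (q : ℤ) ^ n * z) ≤ q * (2 ^ (s - e) * (q : ℤ) ^ n) :=
      mul_le_mul_of_nonneg_left h1 (by linarith)
    have hp : (0 : ℤ) < 2 ^ (s - e) := by positivity
    calc (2 : ℤ) ^ (s - e) + q * (2 ^ (s - e) * b - (q : ℤ) ^ n * z)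
        ≤ 2 ^ (s - e) + q * (2 ^ (s - e) * (q : ℤ) ^ n) := by linarith
      _ = 2 ^ (s - e) * (1 + (q : ℤ) ^ (n + 1)) := by ring
      _ ≤ 2 ^ (s - e) * (2 * (q : ℤ) ^ (n + 1)) := by
          apply mul_le_mul_of_nonneg_left _ hp.le; linarith
      _ ≤ 2 ^ (s - e) * (2 ^ e * (q : ℤ) ^ (n + 1)) := by
          apply mul_le_mul_of_nonneg_left _ hp.le
          exact mul_le_mul_of_nonneg_right h2e (by linarith)
      _ = 2 ^ (s - e) * 2 ^ e * (q : ℤ) ^ (n + 1) := by ring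

theorem tr_size_le {q E n s : ℕ} {x z : ℤ} (hz : z ∈ tr q E n s x) : n ≤ s ∧ s ≤ n * E := by
  induction n generalizing s x with
  | zero =>
    obtain ⟨rfl, rfl⟩ := mem_tr_zero.1 hz
    simp
  | succ n ih =>
    rw [tr] at hz
    simp only [Finset.mem_biUnion, Finset.mem_Icc] at hz
    obtain ⟨e, ⟨he1, he2⟩, hz⟩ := hz
    have h1 : e ≤ s := le_trans he2 (min_le_left _ _)
    have h2 : e ≤ E := le_trans he2 (min_le_right _ _)
    split_ifs at hz with hd
    · obtain ⟨h3, h4⟩ := ih hz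
      refine ⟨by omega, ?_⟩
      rw [add_mul, one_mul]
      omega
    · simp at hz

theorem tr_shift_aux {q E n s : ℕ} (hq : 0 < q) {x z : ℤ} (hz : z ∈ tr q E n s x) (y : ℤ) :
    z + 2 ^ s * y ∈ tr q E n s (x + (q : ℤ) ^ n * y) := by
  induction n generalizing s x y with
  | zero =>
    obtain ⟨rfl, rfl⟩ := mem_tr_zero.1 hz
    rw [mem_tr_zero]
    simp
  | succ n ih =>
    obtain ⟨e, b, he1, he2, he3, hb, hz⟩ := (mem_tr_succ hq).1 hz
    rw [mem_tr_succ hq]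
    refine ⟨e, b + (q : ℤ) ^ n * (2 ^ e * y), he1, he2, he3, ?_, ?_⟩
    · rw [mul_add, mul_add, ← hb, pow_succ]; ring
    · have h := ih hz (2 ^ e * y)
      have hs : (2 : ℤ) ^ s = 2 ^ (s - e) * 2 ^ e := by
        rw [← pow_add]; congr 1; omega
      rw [hs, mul_assoc]
      exact h

theorem mem_tr_shift {q E n s : ℕ} (hq : 0 < q) (x y z : ℤ) :
    z + 2 ^ s * y ∈ tr q E n s (x + (q : ℤ) ^ n * y) ↔ z ∈ tr q E n s x := by
  constructor
  · intro h
    have h1 := tr_shift_aux hq h (-y)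
    have e1 : z + 2 ^ s * y + 2 ^ s * (-y) = z := by ring
    have e2 : x + (q : ℤ) ^ n * y + (q : ℤ) ^ n * (-y) = x := by ring
    rwa [e1, e2] at h1
  · intro h
    exact tr_shift_aux hq h y

theorem odd_child {q e : ℕ} {x b : ℤ} (_hq : Odd q) (he : 1 ≤ e)
    (hb : (q : ℤ) * b + 1 = 2 ^ e * x) : Odd b := by
  have h2 : Even ((2 : ℤ) ^ e * x) := by
    apply Even.mul_right
    exact (Int.even_pow.2 ⟨by decide, by omega⟩)
  rw [← hb] at h2
  have h3 : Odd ((q : ℤ) * b) := by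
    rcases Int.even_or_odd ((q : ℤ) * b) with h | h
    · exfalso
      have := h.add_one
      exact (Int.not_even_iff_odd.2 this) h2
    · exact h
  exact (Int.odd_mul.1 h3).2

theorem pow_two_odd_eq {e e' : ℕ} {x x' : ℤ} (hx : Odd x) (hx' : Odd x')
    (h : (2 : ℤ) ^ e * x = 2 ^ e' * x') : e = e' ∧ x = x' := by
  have key : ∀ (e e' : ℕ) (x x' : ℤ), Odd x → e ≤ e' → (2 : ℤ) ^ e * x = 2 ^ e' * x' → e = e' := by
    intro e e' x x' hx hle h
    by_contra hne
    obtain ⟨k, rfl⟩ := Nat.exists_eq_add_of_lt (lt_of_le_of_ne hle hne)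
    have h1 : x = 2 * (2 ^ k * x') := by
      have : (2 : ℤ) ^ e * x = 2 ^ e * (2 * (2 ^ k * x')) := by rw [h]; ring
      exact mul_left_cancel₀ (by positivity) this
    rw [h1] at hx
    exact (Int.not_odd_iff_even.2 (even_two_mul _)) hx
  have he : e = e' := by
    rcases le_total e e' with hle | hle
    · exact key e e' x x' hx hle h
    · exact (key e' e x' x hx' hle h.symm).symm
  subst he
  exact ⟨rfl, mul_left_cancel₀ (by positivity) h⟩

theorem tr_unique {q E n s s' : ℕ} {x x' z : ℤ} (hq : Odd q) (hz : z ∈ tr q E n s x)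
    (hz' : z ∈ tr q E n s' x') (hx : Odd x) (hx' : Odd x') : x = x' := by
  induction n generalizing s s' x x' with
  | zero =>
    obtain ⟨_, rfl⟩ := mem_tr_zero.1 hz
    obtain ⟨_, rfl⟩ := mem_tr_zero.1 hz'
    rfl
  | succ n ih =>
    obtain ⟨e, b, he1, he2, he3, hb, hz⟩ := (mem_tr_succ hq.pos).1 hz
    obtain ⟨e', b', he1', he2', he3', hb', hz'⟩ := (mem_tr_succ hq.pos).1 hz'
    have hbb : b = b' := ih hz hz' (odd_child hq he1 hb) (odd_child hq he1' hb')
    rw [hbb] at hb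
    exact (pow_two_odd_eq hx hx' (hb.symm.trans hb')).2

/-- two words of the same length from the same `x`, with the same endpoint, have the same first child -/
theorem tr_first_child {q E n s s' : ℕ} {x b b' z : ℤ} {e e' : ℕ} (hq : Odd q)
    (he : 1 ≤ e) (he' : 1 ≤ e')
    (hb : (q : ℤ) * b + 1 = 2 ^ e * x) (hb' : (q : ℤ) * b' + 1 = 2 ^ e' * x)
    (hz : z ∈ tr q E n s b) (hz' : z ∈ tr q E n s' b') : b = b' :=
  tr_unique hq hz hz' (odd_child hq he hb) (odd_child hq he' hb')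

/-- two words of the same length from the same `x`, with the same endpoint, have the same first
letter (`1 < q` is needed: for `q = 1` and `x = 0` all letters lead to `-1`). -/
theorem tr_first {q E n s s' : ℕ} {x b b' z : ℤ} {e e' : ℕ} (hq : Odd q) (hq1 : 1 < q)
    (he : 1 ≤ e) (he' : 1 ≤ e')
    (hb : (q : ℤ) * b + 1 = 2 ^ e * x) (hb' : (q : ℤ) * b' + 1 = 2 ^ e' * x)
    (hz : z ∈ tr q E n s b) (hz' : z ∈ tr q E n s' b') : b = b' ∧ e = e' := by
  have hbb : b = b' := tr_first_child hq he he' hb hb' hz hz'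
  refine ⟨hbb, ?_⟩
  subst hbb
  have hx : x ≠ 0 := by
    rintro rfl
    rw [mul_zero] at hb
    have h1 : (q : ℤ) * (-b) = 1 := by linarith
    have h2 : (q : ℤ) ∣ 1 := Dvd.intro _ h1
    have h3 := Int.le_of_dvd (by norm_num) h2
    have h4 : (1 : ℤ) < q := by exact_mod_cast hq1
    linarith
  have h5 : (2 : ℤ) ^ e = 2 ^ e' := mul_right_cancel₀ hx (hb.symm.trans hb')
  exact Int.pow_right_injective (by norm_num) h5

theorem tr_comp {q E n m s s' : ℕ} {x z w : ℤ} (hq : 0 < q) (hz : z ∈ tr q E n s x)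
    (hw : w ∈ tr q E m s' z) : w ∈ tr q E (n + m) (s + s') x := by
  induction n generalizing s x with
  | zero =>
    obtain ⟨rfl, rfl⟩ := mem_tr_zero.1 hz
    simpa using hw
  | succ n ih =>
    obtain ⟨e, b, he1, he2, he3, hb, hz⟩ := (mem_tr_succ hq).1 hz
    have h1 := ih hz
    have h2 : n + 1 + m = (n + m) + 1 := by ring
    rw [h2, mem_tr_succ hq]
    refine ⟨e, b, he1, he2, by omega, hb, ?_⟩
    have h3 : s + s' - e = s - e + s' := by omega
    rw [h3]
    exact h1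

theorem sum_tr_succ {q E n s : ℕ} (hq : Odd q) (hq1 : 1 < q) (x : ℤ) (φ : ℤ → ℝ) :
    ∑ z ∈ tr q E (n + 1) s x, φ z = ∑ e ∈ Finset.Icc 1 (min s E),
      if (q : ℤ) ∣ 2 ^ e * x - 1 then ∑ z ∈ tr q E n (s - e) ((2 ^ e * x - 1) / q), φ z else 0 := by
  rw [tr, Finset.sum_biUnion]
  · apply Finset.sum_congr rfl
    intro e _
    split_ifs with hd
    · rfl
    · simp
  · intro e he e' he' hne
    rw [Function.onFun, Finset.disjoint_left]
    intro z hz hz'
    rw [Finset.mem_coe, Finset.mem_Icc] at he he'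
    have hq' : (q : ℤ) ≠ 0 := by exact_mod_cast hq.pos.ne'
    split_ifs at hz with hd
    · split_ifs at hz' with hd'
      · have hb : (q : ℤ) * ((2 ^ e * x - 1) / q) + 1 = 2 ^ e * x := by
          rw [Int.mul_ediv_cancel' hd]; ring
        have hb' : (q : ℤ) * ((2 ^ e' * x - 1) / q) + 1 = 2 ^ e' * x := by
          rw [Int.mul_ediv_cancel' hd']; ring
        exact hne (tr_first hq hq1 he.1 he'.1 hb hb' hz hz').2
      · simp at hz'
    · simp at hz

theorem tr_end_odd {q E n s : ℕ} {x z : ℤ} (hq : Odd q) (hn : 1 ≤ n) (h : z ∈ tr q E n s x) :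
    Odd z := by
  induction n generalizing s x with
  | zero => omega
  | succ n ih =>
    obtain ⟨e, b, he1, he2, he3, hb, hz⟩ := (mem_tr_succ hq.pos).1 h
    rcases Nat.eq_zero_or_pos n with rfl | hn'
    · obtain ⟨_, rfl⟩ := mem_tr_zero.1 hz
      exact odd_child hq he1 hb
    · exact ih hn' hz

/-- if the middle nodes agree: uniqueness of the node after `n` letters -/
theorem tr_middle {q E n m s₁ s₂ s₁' s₂' : ℕ} {x y y' z : ℤ} (hq : Odd q) (hn : 1 ≤ n)
    (h1 : y ∈ tr q E n s₁ x) (h2 : z ∈ tr q E m s₂ y)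
    (h1' : y' ∈ tr q E n s₁' x) (h2' : z ∈ tr q E m s₂' y') : y = y' :=
  tr_unique hq h2 h2' (tr_end_odd hq hn h1) (tr_end_odd hq hn h1')

theorem pow_two_mod_three (g : ℕ) : (2 : ℤ) ^ g % 3 = if g % 2 = 0 then 1 else 2 := by
  induction g with
  | zero => simp
  | succ g ih =>
    rw [pow_succ]
    split_ifs at ih with h
    · rw [if_neg (by omega)]; omega
    · rw [if_pos (by omega)]; omega

theorem mem_tr_two {E s e f : ℕ} {x b z : ℤ} (he : 1 ≤ e) (hf : 1 ≤ f) (hs : e + f = s)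
    (hE : s ≤ E) (hb : 3 * b + 1 = 2 ^ e * x) (hz : 3 * z + 1 = 2 ^ f * b) :
    z ∈ tr 3 E 2 s x := by
  rw [mem_tr_succ (by norm_num)]
  refine ⟨e, b, he, by omega, by omega, by exact_mod_cast hb, ?_⟩
  rw [mem_tr_succ (by norm_num)]
  refine ⟨f, z, hf, by omega, by omega, by exact_mod_cast hz, ?_⟩
  rw [mem_tr_zero]
  exact ⟨by omega, rfl⟩

/-- a first child with the right parity -/
theorem exists_first {s : ℕ} {x : ℤ} (hx : ¬ (3 : ℤ) ∣ x) (hs : 20 ≤ s) :
    ∃ (e : ℕ) (b : ℤ), 1 ≤ e ∧ e ≤ 6 ∧ 3 * b + 1 = 2 ^ e * x ∧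
      ((s - e) % 2 = 0 ∧ b % 3 = 1 ∨ (s - e) % 2 = 1 ∧ b % 3 = 2) := by
  have hx3 : x % 3 = 1 ∨ x % 3 = 2 := by omega
  rcases hx3 with h | h
  · have hb : 3 * ((4 * x - 1) / 3) + 1 = 4 * x := by omega
    set b := (4 * x - 1) / 3 with hbdef
    have hb3 : b % 3 = 0 ∨ b % 3 = 1 ∨ b % 3 = 2 := by omega
    rcases Nat.mod_two_eq_zero_or_one s with hs2 | hs2
    · rcases hb3 with h0 | h0 | h0
      · exact ⟨4, 4 * b + 1, by norm_num, by norm_num, by norm_num; linarith, Or.inl ⟨by omega, by omega⟩⟩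
      · exact ⟨2, b, by norm_num, by norm_num, by norm_num; linarith, Or.inl ⟨by omega, by omega⟩⟩
      · exact ⟨6, 16 * b + 5, by norm_num, by norm_num, by norm_num; linarith, Or.inl ⟨by omega, by omega⟩⟩
    · rcases hb3 with h0 | h0 | h0
      · exact ⟨6, 16 * b + 5, by norm_num, by norm_num, by norm_num; linarith, Or.inr ⟨by omega, by omega⟩⟩
      · exact ⟨4, 4 * b + 1, by norm_num, by norm_num, by norm_num; linarith, Or.inr ⟨by omega, by omega⟩⟩
      · exact ⟨2, b, by norm_num, by norm_num, by norm_num; linarith, Or.inr ⟨by omega, by omega⟩⟩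
  · have hb : 3 * ((2 * x - 1) / 3) + 1 = 2 * x := by omega
    set b := (2 * x - 1) / 3 with hbdef
    have hb3 : b % 3 = 0 ∨ b % 3 = 1 ∨ b % 3 = 2 := by omega
    rcases Nat.mod_two_eq_zero_or_one s with hs2 | hs2
    · rcases hb3 with h0 | h0 | h0
      · exact ⟨5, 16 * b + 5, by norm_num, by norm_num, by norm_num; linarith, Or.inr ⟨by omega, by omega⟩⟩
      · exact ⟨3, 4 * b + 1, by norm_num, by norm_num, by norm_num; linarith, Or.inr ⟨by omega, by omega⟩⟩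
      · exact ⟨1, b, by norm_num, by norm_num, by norm_num; linarith, Or.inr ⟨by omega, by omega⟩⟩
    · rcases hb3 with h0 | h0 | h0
      · exact ⟨3, 4 * b + 1, by norm_num, by norm_num, by norm_num; linarith, Or.inl ⟨by omega, by omega⟩⟩
      · exact ⟨1, b, by norm_num, by norm_num, by norm_num; linarith, Or.inl ⟨by omega, by omega⟩⟩
      · exact ⟨5, 16 * b + 5, by norm_num, by norm_num, by norm_num; linarith, Or.inl ⟨by omega, by omega⟩⟩

theorem tr_two_class {E s : ℕ} {x : ℤ} (hx : ¬ (3 : ℤ) ∣ x) (hs : 20 ≤ s) (hE : s ≤ E) (c : ℤ)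
    (hc : c = 0 ∨ c = 1 ∨ c = 2) : ∃ z ∈ tr 3 E 2 s x, z % 3 = c := by
  obtain ⟨e, b, he1, he6, hb, hpar⟩ := exists_first hx hs
  obtain ⟨g, hg⟩ : ∃ g, s = e + (g + 12) := ⟨s - e - 12, by omega⟩
  have hg2 : 2 ≤ g := by omega
  have hG := pow_two_mod_three g
  -- `z₀`
  obtain ⟨z, hz⟩ : ∃ z : ℤ, 3 * z + 1 = 2 ^ (g + 12) * b := by
    have h1 : ((2 : ℤ) ^ (g + 12) * b) % 3 = 1 := by
      rw [Int.mul_emod, pow_two_mod_three]
      rcases hpar with ⟨h2, h3⟩ | ⟨h2, h3⟩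
      · rw [if_pos (by omega), h3]; norm_num
      · rw [if_neg (by omega), h3]; norm_num
    exact ⟨((2 : ℤ) ^ (g + 12) * b) / 3, by omega⟩
  have hp12 : (2 : ℤ) ^ (g + 12) = 4096 * 2 ^ g := by rw [pow_add]; ring
  have hp6 : (2 : ℤ) ^ (g + 6) = 64 * 2 ^ g := by rw [pow_add]; ring
  have he6' : (2 : ℤ) ^ (e + 6) = 64 * 2 ^ e := by rw [pow_add]; ring
  have he12' : (2 : ℤ) ^ (e + 12) = 4096 * 2 ^ e := by rw [pow_add]; ring
  have m0 : z ∈ tr 3 E 2 s x := mem_tr_two he1 (by omega : 1 ≤ g + 12) (by omega) hE hb hz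
  have m1 : z + 448 * 2 ^ g ∈ tr 3 E 2 s x := by
    refine mem_tr_two (e := e + 6) (f := g + 6) (b := 64 * b + 21) (by omega) (by omega) (by omega)
      hE ?_ ?_
    · rw [he6', mul_assoc, ← hb]; ring
    · rw [hp6]
      rw [hp12] at hz
      linear_combination hz
  have m2 : z + 455 * 2 ^ g ∈ tr 3 E 2 s x := by
    refine mem_tr_two (e := e + 12) (f := g) (b := 4096 * b + 1365) (by omega) (by omega) (by omega)
      hE ?_ ?_
    · rw [he12', mul_assoc, ← hb]; ring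
    · rw [hp12] at hz
      linear_combination hz
  set G : ℤ := 2 ^ g with hGdef
  have hG' : G % 3 = 1 ∨ G % 3 = 2 := by
    rw [hG]; split_ifs <;> simp
  have : z % 3 = c ∨ (z + 448 * G) % 3 = c ∨ (z + 455 * G) % 3 = c := by
    rcases hc with rfl | rfl | rfl <;> rcases hG' with h | h <;> omega
  rcases this with h | h | h
  · exact ⟨_, m0, h⟩
  · exact ⟨_, m1, h⟩
  · exact ⟨_, m2, h⟩

theorem exists_unit_child {x : ℤ} (hx : ¬ (3 : ℤ) ∣ x) : ∃ (e : ℕ) (b : ℤ), 1 ≤ e ∧ e ≤ 4 ∧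
    3 * b + 1 = 2 ^ e * x ∧ ¬ (3 : ℤ) ∣ b := by
  have hx3 : x % 3 = 1 ∨ x % 3 = 2 := by omega
  rcases hx3 with h | h
  · have hb : 3 * ((4 * x - 1) / 3) + 1 = 4 * x := by omega
    set b := (4 * x - 1) / 3 with hbdef
    by_cases h3 : (3 : ℤ) ∣ b
    · exact ⟨4, 4 * b + 1, by norm_num, by norm_num, by norm_num; linarith, by omega⟩
    · exact ⟨2, b, by norm_num, by norm_num, by norm_num; linarith, h3⟩
  · have hb : 3 * ((2 * x - 1) / 3) + 1 = 2 * x := by omega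
    set b := (2 * x - 1) / 3 with hbdef
    by_cases h3 : (3 : ℤ) ∣ b
    · exact ⟨3, 4 * b + 1, by norm_num, by norm_num, by norm_num; linarith, by omega⟩
    · exact ⟨1, b, by norm_num, by norm_num, by norm_num; linarith, h3⟩

theorem tr_fallback {E n s : ℕ} {x : ℤ} (hx : ¬ (3 : ℤ) ∣ x) (hs : 4 * n + 20 ≤ s) (hE : s ≤ E) :
    2 ≤ ((tr 3 E (n + 2) s x).filter (fun z => ¬ (3 : ℤ) ∣ z)).card := by
  induction n generalizing s x with
  | zero =>
    obtain ⟨z, hz, hz1⟩ := tr_two_class hx (by omega) hE 1 (by simp)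
    obtain ⟨w, hw, hw1⟩ := tr_two_class hx (by omega) hE 2 (by simp)
    have hne : z ≠ w := by rintro rfl; omega
    have hc := Finset.card_pair hne
    refine hc.symm.le.trans ?_
    apply Finset.card_le_card
    intro v hv
    rw [Finset.mem_insert, Finset.mem_singleton] at hv
    rw [Finset.mem_filter]
    rcases hv with rfl | rfl
    · exact ⟨hz, by omega⟩
    · exact ⟨hw, by omega⟩
  | succ n ih =>
    obtain ⟨e, b, he1, he4, hb, hb3⟩ := exists_unit_child hx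
    have h1 := ih (s := s - e) hb3 (by omega) (by omega)
    refine h1.trans (Finset.card_le_card ?_)
    intro z hz
    rw [Finset.mem_filter] at hz ⊢
    refine ⟨?_, hz.2⟩
    have h2 : n + 1 + 2 = (n + 2) + 1 := by ring
    rw [h2, mem_tr_succ (by norm_num)]
    exact ⟨e, b, he1, by omega, by omega, by exact_mod_cast hb, hz.1⟩

end Pool.Agent.H412R2
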